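import Mathlib

/-! Averages over finite types, characteristic functions. -/

set_option autoImplicit false

namespace Pool.Agent.MP_f80039_co.H9

section

open Finset

/-- The average of `f`. -/
noncomputable def Ex {Ω : Type*} [Fintype Ω] (f : Ω → ℝ) : ℝ := (∑ ω, f ω) / Fintype.card Ω

open Classical in
/-- The indicator of a proposition. -/
noncomputable def ind (p : Prop) : ℝ := if p then 1 else 0

/-- The proportion of points with property `p`. -/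
noncomputable def Pr {Ω : Type*} [Fintype Ω] (p : Ω → Prop) : ℝ := Ex fun ω => ind (p ω)

theorem ind_pos {p : Prop} (h : p) : ind p = 1 := by simp [ind, h]
theorem ind_neg {p : Prop} (h : ¬ p) : ind p = 0 := by simp [ind, h]
theorem ind_nonneg (p : Prop) : 0 ≤ ind p := by unfold ind; split_ifs <;> norm_num
theorem ind_le_one (p : Prop) : ind p ≤ 1 := by unfold ind; split_ifs <;> norm_num
theorem ind_mono {p q : Prop} (h : p → q) : ind p ≤ ind q := by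
  by_cases hp : p
  · rw [ind_pos hp, ind_pos (h hp)]
  · rw [ind_neg hp]; exact ind_nonneg q
theorem ind_and (p q : Prop) : ind (p ∧ q) = ind p * ind q := by
  by_cases hp : p <;> by_cases hq : q <;> simp [ind, hp, hq]
section

variable {Ω Ω' : Type*} [Fintype Ω] [Fintype Ω']

theorem Ex_mono {f g : Ω → ℝ} (h : ∀ ω, f ω ≤ g ω) : Ex f ≤ Ex g :=
  div_le_div_of_nonneg_right (sum_le_sum fun ω _ => h ω) (Nat.cast_nonneg _)

theorem Ex_congr {f g : Ω → ℝ} (h : ∀ ω, f ω = g ω) : Ex f = Ex g := by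
  rw [funext h]

theorem Ex_nonneg {f : Ω → ℝ} (h : ∀ ω, 0 ≤ f ω) : 0 ≤ Ex f :=
  div_nonneg (sum_nonneg fun ω _ => h ω) (Nat.cast_nonneg _)

theorem Ex_add (f g : Ω → ℝ) : Ex (fun ω => f ω + g ω) = Ex f + Ex g := by
  simp only [Ex, sum_add_distrib, add_div]

theorem Ex_sub (f g : Ω → ℝ) : Ex (fun ω => f ω - g ω) = Ex f - Ex g := by
  simp only [Ex, sum_sub_distrib, sub_div]

theorem Ex_mul (c : ℝ) (f : Ω → ℝ) : Ex (fun ω => c * f ω) = c * Ex f := by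
  simp only [Ex, ← mul_sum, mul_div_assoc]

theorem Ex_mul' (c : ℝ) (f : Ω → ℝ) : Ex (fun ω => f ω * c) = Ex f * c := by
  rw [mul_comm, ← Ex_mul]; simp only [mul_comm]

theorem Ex_const [Nonempty Ω] (c : ℝ) : Ex (fun _ : Ω => c) = c := by
  have : (Fintype.card Ω : ℝ) ≠ 0 := by exact_mod_cast Fintype.card_ne_zero
  simp only [Ex, sum_const, card_univ, nsmul_eq_mul]
  field_simp

theorem Ex_sum {ι : Type*} (s : Finset ι) (f : ι → Ω → ℝ) :
    Ex (fun ω => ∑ i ∈ s, f i ω) = ∑ i ∈ s, Ex (f i) := by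
  simp only [Ex]
  rw [sum_comm, sum_div]

theorem Ex_le_const [Nonempty Ω] {f : Ω → ℝ} {c : ℝ} (h : ∀ ω, f ω ≤ c) : Ex f ≤ c :=
  (Ex_mono h).trans (Ex_const c).le

theorem const_le_Ex [Nonempty Ω] {f : Ω → ℝ} {c : ℝ} (h : ∀ ω, c ≤ f ω) : c ≤ Ex f :=
  (Ex_const c).ge.trans (Ex_mono h)

theorem Ex_equiv (e : Ω ≃ Ω') (f : Ω' → ℝ) : Ex (fun ω => f (e ω)) = Ex f := by
  simp only [Ex, Equiv.sum_comp e f, Fintype.card_congr e]

theorem Ex_comm (f : Ω → Ω' → ℝ) :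
    (Ex fun a => Ex fun b => f a b) = Ex fun b => Ex fun a => f a b := by
  simp only [Ex, ← sum_div, div_div]
  rw [sum_comm, mul_comm]

/-- Resampling along a family of bijections. -/
theorem Ex_resample [Nonempty Ω'] (e : Ω' → Ω ≃ Ω) (f : Ω → ℝ) :
    Ex f = Ex fun ω => Ex fun g => f (e g ω) := by
  rw [Ex_comm]
  simp only [Ex_equiv]
  rw [Ex_const]

theorem Pr_nonneg (p : Ω → Prop) : 0 ≤ Pr p := Ex_nonneg fun _ => ind_nonneg _

theorem Pr_mono {p q : Ω → Prop} (h : ∀ ω, p ω → q ω) : Pr p ≤ Pr q :=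
  Ex_mono fun ω => ind_mono (h ω)

theorem Pr_le_one [Nonempty Ω] (p : Ω → Prop) : Pr p ≤ 1 := Ex_le_const fun _ => ind_le_one _

theorem Pr_of_not {p : Ω → Prop} (h : ∀ ω, ¬ p ω) : Pr p = 0 := by
  simp [Pr, ind_neg (h _), Ex]

theorem Pr_not_and (p q : Ω → Prop) :
    Pr (fun ω => ¬ (p ω ∧ q ω)) ≤ Pr (fun ω => ¬ p ω) + Pr fun ω => ¬ q ω := by
  rw [Pr, Pr, Pr, ← Ex_add]
  refine Ex_mono fun ω => ?_
  by_cases hp : p ω <;> by_cases hq : q ω <;> simp [ind, hp, hq]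

end

section pi

variable {ι : Type*} [Fintype ι] [DecidableEq ι] {α : ι → Type*} [∀ i, Fintype (α i)]

theorem Ex_pi_prod (f : ∀ i, α i → ℝ) :
    Ex (fun x : ∀ i, α i => ∏ i, f i (x i)) = ∏ i, Ex (f i) := by
  simp only [Ex, Fintype.card_pi, Nat.cast_prod, prod_div_distrib]
  rw [Finset.prod_univ_sum, Fintype.piFinset_univ]

variable [∀ i, Nonempty (α i)]

theorem Ex_pi_prod' (s : Finset ι) (f : ∀ i, α i → ℝ) :
    Ex (fun x : ∀ i, α i => ∏ i ∈ s, f i (x i)) = ∏ i ∈ s, Ex (f i) := by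
  have := Ex_pi_prod fun i (a : α i) => if i ∈ s then f i a else 1
  simp only [prod_ite_mem, univ_inter] at this
  rw [this, ← prod_subset (subset_univ s)]
  · exact prod_congr rfl fun i hi => by simp [hi]
  · intro i _ hi
    simp [hi, Ex_const]

theorem Ex_eval (i : ι) (f : α i → ℝ) : Ex (fun x : ∀ i, α i => f (x i)) = Ex f := by
  have := Ex_pi_prod' (α := α) {i} fun j a => if h : j = i then f (h ▸ a) else 0
  simpa using this

theorem Ex_sq_sum (X : ∀ i, α i → ℝ) :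
    Ex (fun x : ∀ i, α i => (∑ i, X i (x i) - ∑ i, Ex (X i)) ^ 2) =
      ∑ i, (Ex (fun a => X i a ^ 2) - Ex (X i) ^ 2) := by
  have h0 : ∀ i, Ex (fun a => X i a - Ex (X i)) = 0 := fun i => by
    rw [Ex_sub, Ex_const, sub_self]
  have h1 : ∀ x : ∀ i, α i, (∑ i, X i (x i) - ∑ i, Ex (X i)) ^ 2 =
      ∑ i, ∑ j, (X i (x i) - Ex (X i)) * (X j (x j) - Ex (X j)) := by
    intro x
    rw [← sum_sub_distrib, sq, sum_mul_sum]
  simp only [h1, Ex_sum]
  refine sum_congr rfl fun i _ => ?_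
  rw [sum_eq_single i]
  · rw [Ex_eval i fun a => (X i a - Ex (X i)) * (X i a - Ex (X i))]
    have : ∀ a, (X i a - Ex (X i)) * (X i a - Ex (X i)) =
        X i a ^ 2 - 2 * Ex (X i) * X i a + Ex (X i) ^ 2 := fun a => by ring
    simp only [this, Ex_add, Ex_sub, Ex_mul, Ex_const]
    ring
  · intro j _ hj
    have := Ex_pi_prod' (α := α) {i, j} fun k a => X k a - Ex (X k)
    simp only [prod_pair hj.symm, h0] at this
    simpa using this
  · simp

end pi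

end

section

open Finset Real

/-- The complex average of `f`. -/
noncomputable def Ec {Ω : Type*} [Fintype Ω] (f : Ω → ℂ) : ℂ := (∑ ω, f ω) / Fintype.card Ω

theorem Ec_re {Ω : Type*} [Fintype Ω] (f : Ω → ℂ) : (Ec f).re = Ex fun ω => (f ω).re := by
  simp only [Ec, Ex, Complex.div_natCast_re, Complex.re_sum]

theorem Ec_im {Ω : Type*} [Fintype Ω] (f : Ω → ℂ) : (Ec f).im = Ex fun ω => (f ω).im := by
  simp only [Ec, Ex, Complex.div_natCast_im, Complex.im_sum]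

theorem Ec_mul {Ω : Type*} [Fintype Ω] (c : ℂ) (f : Ω → ℂ) :
    Ec (fun ω => c * f ω) = c * Ec f := by
  simp only [Ec, ← mul_sum, mul_div_assoc]

theorem Ec_pi_prod {ι : Type*} [Fintype ι] [DecidableEq ι] {α : ι → Type*} [∀ i, Fintype (α i)]
    (f : ∀ i, α i → ℂ) : Ec (fun x : ∀ i, α i => ∏ i, f i (x i)) = ∏ i, Ec (f i) := by
  simp only [Ec, Fintype.card_pi, Nat.cast_prod, prod_div_distrib]
  rw [Finset.prod_univ_sum, Fintype.piFinset_univ]

theorem abs_Ex_le {Ω : Type*} [Fintype Ω] [Nonempty Ω] {f : Ω → ℝ} {c : ℝ}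
    (h : ∀ ω, |f ω| ≤ c) : |Ex f| ≤ c :=
  abs_le.2 ⟨const_le_Ex fun ω => (abs_le.1 (h ω)).1, Ex_le_const fun ω => (abs_le.1 (h ω)).2⟩

/-- The unit complex number of argument `y`. -/
noncomputable def ce (y : ℝ) : ℂ := Complex.exp (Complex.I * y)

theorem ce_re (y : ℝ) : (ce y).re = cos y := by
  rw [ce, mul_comm, Complex.exp_ofReal_mul_I_re]

theorem ce_im (y : ℝ) : (ce y).im = sin y := by
  rw [ce, mul_comm, Complex.exp_ofReal_mul_I_im]

theorem ce_add (y z : ℝ) : ce (y + z) = ce y * ce z := by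
  simp [ce, mul_add, Complex.exp_add]

theorem ce_sum {ι : Type*} (s : Finset ι) (y : ι → ℝ) : ce (∑ i ∈ s, y i) = ∏ i ∈ s, ce (y i) := by
  simp [ce, mul_sum, Complex.exp_sum]

theorem norm_ce (y : ℝ) : ‖ce y‖ = 1 := by
  rw [ce, mul_comm, Complex.norm_exp_ofReal_mul_I]

theorem normSq_Ec_ce {Ω : Type*} [Fintype Ω] [Nonempty Ω] (y : Ω → ℝ) :
    ‖Ec fun a => ce (y a)‖ ^ 2 = 1 - 2 * Ex fun a => Ex fun b => sin ((y a - y b) / 2) ^ 2 := by
  rw [Complex.sq_norm, Complex.normSq_apply, Ec_re, Ec_im]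
  simp only [ce_re, ce_im]
  have h : ∀ a b, sin ((y a - y b) / 2) ^ 2 =
      1 / 2 - 1 / 2 * (cos (y a) * cos (y b) + sin (y a) * sin (y b)) := by
    intro a b
    rw [← cos_sub, sin_sq_eq_half_sub]
    ring_nf
  simp only [h, Ex_sub, Ex_const, Ex_mul, Ex_add, Ex_mul']
  ring

theorem norm_prod_sub_prod {ι : Type*} (s : Finset ι) (z w : ι → ℂ) (hz : ∀ i, ‖z i‖ ≤ 1)
    (hw : ∀ i, ‖w i‖ ≤ 1) : ‖∏ i ∈ s, z i - ∏ i ∈ s, w i‖ ≤ ∑ i ∈ s, ‖z i - w i‖ := by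
  classical
  induction s using Finset.induction_on with
  | empty => simp
  | insert a s ha ih =>
    rw [prod_insert ha, prod_insert ha, sum_insert ha]
    have h1 : ‖∏ i ∈ s, z i‖ ≤ 1 := by
      rw [norm_prod]; exact prod_le_one (fun i _ => norm_nonneg _) fun i _ => hz i
    calc ‖z a * ∏ i ∈ s, z i - w a * ∏ i ∈ s, w i‖
        = ‖(z a - w a) * ∏ i ∈ s, z i + w a * (∏ i ∈ s, z i - ∏ i ∈ s, w i)‖ := by ring_nf
      _ ≤ ‖z a - w a‖ * ‖∏ i ∈ s, z i‖ + ‖w a‖ * ‖∏ i ∈ s, z i - ∏ i ∈ s, w i‖ := by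
          simpa only [norm_mul] using norm_add_le ((z a - w a) * ∏ i ∈ s, z i)
            (w a * (∏ i ∈ s, z i - ∏ i ∈ s, w i))
      _ ≤ ‖z a - w a‖ * 1 + 1 * ∑ i ∈ s, ‖z i - w i‖ := by
          gcongr
          exact hw a
      _ = _ := by ring

end

section

open Finset Real

section one

variable {γ : Type*} [Fintype γ] [Nonempty γ]

/-- The mean of `sin²` over pairs. -/
noncomputable def full (u : ℝ) (X : γ → ℝ) : ℝ :=
  Ex fun a => Ex fun b => sin ((u * X a - u * X b) / 2) ^ 2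

/-- The variance. -/
noncomputable def vr (X : γ → ℝ) : ℝ := Ex fun a => (X a - Ex X) ^ 2

/-- The centred characteristic function. -/
noncomputable def psi (u : ℝ) (X : γ → ℝ) : ℂ := Ec fun a => ce (u * (X a - Ex X))

theorem vr_eq (X : γ → ℝ) : (Ex fun a => Ex fun b => (X a - X b) ^ 2) = 2 * vr X := by
  have h1 : ∀ a b, (X a - X b) ^ 2 = X a ^ 2 - 2 * (X a * X b) + X b ^ 2 := fun a b => by ring
  have h2 : ∀ a, (X a - Ex X) ^ 2 = X a ^ 2 - 2 * (X a * Ex X) + Ex X ^ 2 := fun a => by ring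
  simp only [vr, h1, h2, Ex_add, Ex_sub, Ex_mul, Ex_mul', Ex_const]
  ring

omit [Nonempty γ] in
theorem vr_nonneg (X : γ → ℝ) : 0 ≤ vr X := Ex_nonneg fun _ => sq_nonneg _

theorem normSq_psi (u : ℝ) (X : γ → ℝ) : ‖psi u X‖ ^ 2 = 1 - 2 * full u X := by
  rw [psi, normSq_Ec_ce, full]
  congr 2
  refine Ex_congr fun a => Ex_congr fun b => ?_
  ring_nf

theorem norm_psi_le (u : ℝ) (X : γ → ℝ) : ‖psi u X‖ ≤ exp (-full u X) := by
  refine le_of_sq_le_sq (by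
    rw [normSq_psi, ← exp_nat_mul]
    have := add_one_le_exp ((2 : ℕ) * -full u X)
    push_cast at this ⊢
    linarith) (exp_pos _).le

theorem full_le_vr (u : ℝ) (X : γ → ℝ) : full u X ≤ u ^ 2 / 2 * vr X := by
  have : full u X ≤ Ex fun a => Ex fun b => u ^ 2 / 4 * (X a - X b) ^ 2 := by
    refine Ex_mono fun a => Ex_mono fun b => ?_
    calc _ ≤ ((u * X a - u * X b) / 2) ^ 2 := sin_sq_le_sq
      _ = _ := by ring
  simp only [Ex_mul, vr_eq] at this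
  linarith

variable {X : γ → ℝ} {N : ℝ}

theorem abs_sub_Ex_le (h : ∀ a, 0 ≤ X a ∧ X a ≤ N) (a : γ) : |X a - Ex X| ≤ N := by
  have h1 : 0 ≤ Ex X := Ex_nonneg fun a => (h a).1
  have h2 : Ex X ≤ N := Ex_le_const fun a => (h a).2
  have := h a
  rw [abs_le]
  constructor <;> linarith

theorem vr_le (h : ∀ a, 0 ≤ X a ∧ X a ≤ N) : vr X ≤ N ^ 2 :=
  Ex_le_const fun a => sq_le_sq' (abs_le.1 (abs_sub_Ex_le h a)).1 (abs_le.1 (abs_sub_Ex_le h a)).2

omit [Nonempty γ] in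
theorem full_scale (h : ∀ a, 0 ≤ X a ∧ X a ≤ N) {u s : ℝ} (hu : 0 ≤ u) (huN : u * N ≤ π)
    (hs : 0 ≤ s) (hs1 : s ≤ 1) : 4 / π ^ 2 * s ^ 2 * full u X ≤ full (s * u) X := by
  simp only [full, ← Ex_mul]
  refine Ex_mono fun a => Ex_mono fun b => ?_
  have hab : |X a - X b| ≤ N := by
    have := h a
    have := h b
    rw [abs_le]
    constructor <;> linarith
  set y := (u * X a - u * X b) / 2 with hy
  have hy' : |y| ≤ π / 2 := by
    rw [hy, ← mul_sub, abs_div, abs_mul, abs_of_nonneg hu, abs_two]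
    have : u * |X a - X b| ≤ u * N := by gcongr
    linarith
  have e : (s * u * X a - s * u * X b) / 2 = s * y := by rw [hy]; ring
  have h1 : |s * y| ≤ π / 2 := by
    rw [abs_mul, abs_of_nonneg hs]
    nlinarith [abs_nonneg y]
  have h2 := mul_abs_le_abs_sin h1
  have h3 : (2 / π * |s * y|) ^ 2 ≤ |sin (s * y)| ^ 2 := by gcongr
  rw [e]
  rw [sq_abs, mul_pow, sq_abs] at h3
  calc 4 / π ^ 2 * s ^ 2 * sin y ^ 2 ≤ 4 / π ^ 2 * s ^ 2 * y ^ 2 :=
        mul_le_mul_of_nonneg_left sin_sq_le_sq (by positivity)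
    _ = (2 / π) ^ 2 * (s * y) ^ 2 := by ring
    _ ≤ _ := h3

end one

section sum

variable {ι : Type*} [Fintype ι] [DecidableEq ι] {α : ι → Type*} [∀ i, Fintype (α i)]
  [∀ i, Nonempty (α i)]

/-- The aperiodicity condition. -/
def Aper (n : ℕ) (X : ∀ i, α i → ℤ) : Prop :=
  ∀ r : ℕ, n ≤ r → r ≤ n ^ 3 →
    (n : ℝ) / 20 ≤ ∑ i, full (π * r / (n ^ 3 : ℕ)) fun a => (X i a : ℝ)

omit [DecidableEq ι] in
theorem var_ge {n : ℕ} (hn : 1 ≤ n) {X : ∀ i, α i → ℤ} (hA : Aper n X) :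
    (n : ℝ) ^ 5 / 100 ≤ ∑ i, vr fun a => (X i a : ℝ) := by
  have h1 := hA n le_rfl (Nat.le_self_pow (by norm_num) n)
  have h2 := sum_le_sum fun i (_ : i ∈ univ) =>
    full_le_vr (π * n / (n ^ 3 : ℕ)) fun a => (X i a : ℝ)
  rw [← mul_sum] at h2
  have hn' : (0 : ℝ) < n := by exact_mod_cast hn
  have h0 : 0 ≤ ∑ i, vr fun a => (X i a : ℝ) := sum_nonneg fun i _ => vr_nonneg _
  set v := ∑ i, vr fun a => (X i a : ℝ)
  have h3 : (π * n / (n ^ 3 : ℕ)) ^ 2 / 2 * v = π ^ 2 * v / (2 * n ^ 4) := by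
    push_cast; field_simp
  have h4 := (h1.trans h2).trans_eq h3
  rw [div_le_div_iff₀ (by norm_num) (by positivity)] at h4
  have h5 : π ^ 2 ≤ 10 := by nlinarith [pi_lt_d2, pi_pos]
  nlinarith

end sum

end

end Pool.Agent.MP_f80039_co.H9
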