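import Mathlib

/-! Numerical estimates. -/

set_option autoImplicit false

namespace Pool.Agent.MP_f80039_co.H9

open Finset Real

/-- The second-order approximation of the tilted point probability. -/
noncomputable def cf (τ P R B D v : ℝ) : ℝ :=
  1 + τ ^ 2 / 2 * P + (-(τ / 2 * P) - (D + τ * B) ^ 2 / 2) / v +
    3 * ((P - 2 * R) / 24 + (D + τ * B) * B / 6) / v ^ 2 + 15 * (-(B ^ 2 / 72)) / v ^ 3

theorem coef_bounds {n τ P R B D v : ℝ} (hn : 0 < n) (hτ : 0 ≤ τ) (hτ' : τ ≤ 50 / n ^ 5)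
    (hP : |P| ≤ n ^ 9) (hR : |R| ≤ n ^ 9) (hB : |B| ≤ n ^ 7) (hD : |D| ≤ 6 * n ^ 2)
    (hv : n ^ 5 / 100 ≤ v) :
    |τ ^ 2 / 2 * P| ≤ 1250 / n ∧ |(-(τ / 2 * P) - (D + τ * B) ^ 2 / 2) / v| ≤ 160000 / n ∧
      |((P - 2 * R) / 24 + (D + τ * B) * B / 6) / v ^ 2| ≤ 100000 / n ∧
      |(-(B ^ 2 / 72)) / v ^ 3| ≤ 14000 / n := by
  have hv0 : 0 < v := lt_of_lt_of_le (by positivity) hv
  have h1 : |τ * B| ≤ 50 * n ^ 2 := by
    rw [abs_mul, abs_of_nonneg hτ]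
    calc _ ≤ 50 / n ^ 5 * n ^ 7 := by gcongr
      _ = _ := by field_simp
  have h2 : |D + τ * B| ≤ 56 * n ^ 2 := by linarith [abs_add_le D (τ * B)]
  have h3 : |τ / 2 * P| ≤ 25 * n ^ 4 := by
    rw [abs_mul, abs_of_nonneg (by positivity)]
    calc _ ≤ 50 / n ^ 5 / 2 * n ^ 9 := by gcongr
      _ = _ := by field_simp; norm_num
  have h4 : (D + τ * B) ^ 2 ≤ (56 * n ^ 2) ^ 2 := by rw [← sq_abs]; gcongr
  have h5 : |(D + τ * B) * B| ≤ 56 * n ^ 2 * n ^ 7 := by rw [abs_mul]; gcongr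
  have h6 : B ^ 2 ≤ (n ^ 7) ^ 2 := by rw [← sq_abs]; gcongr
  refine ⟨?_, ?_, ?_, ?_⟩
  · rw [abs_mul, abs_of_nonneg (by positivity)]
    calc _ ≤ (50 / n ^ 5) ^ 2 / 2 * n ^ 9 := by gcongr
      _ = _ := by field_simp; norm_num
  · rw [abs_div, abs_of_pos hv0]
    calc _ ≤ 1600 * n ^ 4 / (n ^ 5 / 100) := by
          gcongr
          rw [abs_le] at h3 ⊢
          constructor <;> nlinarith [h3.1, h3.2, sq_nonneg (D + τ * B), pow_pos hn 4]
      _ = _ := by field_simp; norm_num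
  · rw [abs_div, abs_of_pos (pow_pos hv0 2)]
    calc _ ≤ 10 * n ^ 9 / (n ^ 5 / 100) ^ 2 := by
          gcongr
          rw [abs_le] at h5 hP hR ⊢
          constructor <;> linarith only [h5.1, h5.2, hP.1, hP.2, hR.1, hR.2, pow_pos hn 9]
      _ = _ := by field_simp; norm_num
  · rw [abs_div, abs_of_pos (pow_pos hv0 3), abs_neg, abs_of_nonneg (by positivity)]
    calc _ ≤ (n ^ 7) ^ 2 / 72 / (n ^ 5 / 100) ^ 3 := by gcongr
      _ = 1000000 / 72 / n := by field_simp; norm_num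
      _ ≤ _ := by gcongr; norm_num

theorem cf_near {n τ P R B D v : ℝ} (hn : 0 < n) (hτ : 0 ≤ τ) (hτ' : τ ≤ 50 / n ^ 5)
    (hP : |P| ≤ n ^ 9) (hR : |R| ≤ n ^ 9) (hB : |B| ≤ n ^ 7) (hD : |D| ≤ 6 * n ^ 2)
    (hv : n ^ 5 / 100 ≤ v) : |cf τ P R B D v - 1| ≤ 671250 / n := by
  obtain ⟨c0, c1, c2, c3⟩ := coef_bounds hn hτ hτ' hP hR hB hD hv
  rw [show 671250 / n = 1250 / n + 160000 / n + 3 * (100000 / n) + 15 * (14000 / n) by ring,
    cf, mul_div_assoc 3, mul_div_assoc 15, abs_le]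
  rw [abs_le] at c0 c1 c2 c3
  constructor <;> linarith [c0.1, c0.2, c1.1, c1.2, c2.1, c2.2, c3.1, c3.2]

theorem bd_bound {p1 p2 p3 v u0 A : ℝ} (c1 : |p1 / v| ≤ 1) (c2 : |p2 / v ^ 2| ≤ 1)
    (c3 : |p3 / v ^ 3| ≤ 1) (hv : 0 < v) (hu : 0 < u0) (hy : u0 ^ 2 * v ≤ A ^ 2) (hA : 1 ≤ A) :
    |(p1 / v + 3 * p2 / v ^ 2 + 15 * p3 / v ^ 3) * u0 + (p2 / v + 5 * p3 / v ^ 2) *
      u0 ^ 3 + p3 / v * u0 ^ 5| ≤ u0 * (26 * A ^ 4) := by
  rw [show (p1 / v + 3 * p2 / v ^ 2 + 15 * p3 / v ^ 3) * u0 +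
    (p2 / v + 5 * p3 / v ^ 2) * u0 ^ 3 + p3 / v * u0 ^ 5 = u0 * ((p1 / v + 3 * (p2 / v ^ 2) +
      15 * (p3 / v ^ 3)) + (p2 / v ^ 2 + 5 * (p3 / v ^ 3)) * (u0 ^ 2 * v) +
        p3 / v ^ 3 * (u0 ^ 2 * v) ^ 2) by field_simp, abs_mul, abs_of_pos hu]
  gcongr
  have y0 : 0 ≤ u0 ^ 2 * v := by positivity
  generalize u0 ^ 2 * v = y at *
  generalize p1 / v = q1 at *
  generalize p2 / v ^ 2 = q2 at *
  generalize p3 / v ^ 3 = q3 at *
  have b1 : |(q2 + 5 * q3) * y| ≤ 6 * A ^ 2 := by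
    rw [abs_mul, abs_of_nonneg y0]
    gcongr
    rw [abs_le] at c2 c3 ⊢
    constructor <;> linarith [c2.1, c2.2, c3.1, c3.2]
  have b2 : |q3 * y ^ 2| ≤ 1 * (A ^ 2) ^ 2 := by
    rw [abs_mul, abs_of_nonneg (sq_nonneg y)]; gcongr
  have b3 : (1 : ℝ) ≤ A ^ 4 := one_le_pow₀ hA
  have b4 : A ^ 2 ≤ A ^ 4 := pow_le_pow_right₀ hA (by norm_num)
  rw [abs_le] at c1 c2 c3 b1 b2 ⊢
  constructor <;> linarith [c1.1, c1.2, c2.1, c2.2, c3.1, c3.2, b1.1, b1.2, b2.1, b2.2]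

theorem core_combine {I J1 J2 G bd c v u0 A E Z n : ℝ} (hn : 1 ≤ n) (hv : 0 < v) (hu : 0 < u0)
    (hv2 : v ≤ n ^ 5) (hy1 : A ^ 2 / 100 ≤ u0 ^ 2 * v) (hy2 : u0 ^ 2 * v ≤ A ^ 2) (hA : 8 ≤ A)
    (hZ : exp (-(u0 ^ 2 / 2 * v)) ≤ Z) (hE : 0 ≤ E) (hinv : J1 + J2 = π * I)
    (T1 : |J1 - (c * G - bd)| ≤ E * u0) (T2 : |J2| ≤ exp 300 * Z * 4) (hc : |c| ≤ 2)
    (hbd : |bd| ≤ u0 * (26 * A ^ 4) * Z)
    (hT : |G - √(2 * π / v) / 2| ≤ exp (-(u0 ^ 2 / 2 * v)) / (v / 2 * u0)) :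
    |I * √(2 * π * v) - c| ≤ A * E + (4 * exp 300 * n ^ 3 + 50 + 26 * A ^ 5) * Z := by
  have hπ := pi_gt_three
  obtain ⟨s, hs⟩ : ∃ s, s = √(2 * π * v) / π := ⟨_, rfl⟩
  have hs0 : 0 ≤ s := by rw [hs]; positivity
  have hsu : s * u0 ≤ A := by
    rw [hs, div_mul_eq_mul_div, div_le_iff₀ (by linarith), ← sqrt_sq hu.le,
      ← sqrt_mul (by positivity)]
    refine sqrt_le_iff.2 ⟨by positivity, ?_⟩
    calc _ = 2 * π * (u0 ^ 2 * v) := by ring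
      _ ≤ π * π * A ^ 2 := by gcongr; linarith
      _ = _ := by ring
  have hsn : s ≤ n ^ 3 := by
    rw [hs, div_le_iff₀ (by linarith)]
    refine sqrt_le_iff.2 ⟨by positivity, ?_⟩
    have : n ^ 5 ≤ n ^ 6 := pow_le_pow_right₀ hn (by norm_num)
    calc _ ≤ π * π * n ^ 6 := by gcongr <;> linarith
      _ = _ := by ring
  have hsq : s * (√(2 * π / v) / 2) = 1 := by
    rw [hs, div_mul_div_comm, ← sqrt_mul (by positivity),
      show 2 * π * v * (2 * π / v) = (π * 2) ^ 2 by field_simp, sqrt_sq (by positivity),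
      div_self (by positivity)]
  have hZ0 : 0 < Z := (exp_pos _).trans_le hZ
  have hT' : s * (exp (-(u0 ^ 2 / 2 * v)) / (v / 2 * u0)) ≤ 25 * Z := by
    calc _ = s * u0 * exp (-(u0 ^ 2 / 2 * v)) * 2 / (u0 ^ 2 * v) := by field_simp
      _ ≤ A * Z * 2 / (A ^ 2 / 100) := by gcongr
      _ = 200 / A * Z := by field_simp; norm_num
      _ ≤ _ := by gcongr; rw [div_le_iff₀ (by linarith)]; linarith
  have e : I * √(2 * π * v) - c =
      s * (J1 - (c * G - bd)) + s * J2 + c * (s * (G - √(2 * π / v) / 2)) - s * bd := by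
    have : I * √(2 * π * v) = s * (J1 + J2) := by rw [hinv, hs]; field_simp
    rw [this]
    linear_combination c * hsq
  have b1 : |s * (J1 - (c * G - bd))| ≤ A * E := by
    rw [abs_mul, abs_of_nonneg hs0]
    calc _ ≤ s * (E * u0) := by gcongr
      _ = s * u0 * E := by ring
      _ ≤ _ := by gcongr
  have b2 : |s * J2| ≤ n ^ 3 * (exp 300 * Z * 4) := by
    rw [abs_mul, abs_of_nonneg hs0]
    gcongr
  have b3 : |c * (s * (G - √(2 * π / v) / 2))| ≤ 2 * (25 * Z) := by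
    rw [abs_mul, abs_mul, abs_of_nonneg hs0]
    exact mul_le_mul hc ((mul_le_mul_of_nonneg_left hT hs0).trans hT') (by positivity)
      (by norm_num)
  have b4 : |s * bd| ≤ A * (26 * A ^ 4) * Z := by
    rw [abs_mul, abs_of_nonneg hs0]
    calc _ ≤ s * (u0 * (26 * A ^ 4) * Z) := by gcongr
      _ = s * u0 * (26 * A ^ 4) * Z := by ring
      _ ≤ _ := by gcongr
  rw [e]
  rw [abs_le] at b1 b2 b3 b4 ⊢
  constructor <;> linarith [b1.1, b1.2, b2.1, b2.2, b3.1, b3.2, b4.1, b4.2]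

theorem core_err {A r : ℝ} (hA : 8 ≤ A) (hr : 1 ≤ r) :
    A * (27 * r ^ 2 * (A / r) ^ 5 + (2 * r ^ 2 * (A / r) ^ 4 * (6 * (A / r) + 2 * r ^ 2 *
      (A / r) ^ 3) ^ 2 + (2 * r ^ 2 * (A / r) ^ 4) ^ 2 + (6 * (A / r) + 2 * r ^ 2 *
        (A / r) ^ 3) ^ 4)) ≤ 4300 * A ^ 13 / r ^ 3 := by
  have hA1 : 1 ≤ A := by linarith
  have h1 : 6 * (A / r) + 2 * r ^ 2 * (A / r) ^ 3 ≤ 8 * A ^ 3 / r := by
    have : A ≤ A ^ 3 := le_self_pow₀ hA1 (by norm_num)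
    calc _ = (6 * A + 2 * A ^ 3) / r := by field_simp
      _ ≤ _ := by gcongr; linarith
  have p : ∀ k, k ≤ 13 → A ^ k ≤ A ^ 13 := fun k hk => pow_le_pow_right₀ hA1 hk
  have h2 : r ^ 3 ≤ r ^ 4 := pow_le_pow_right₀ hr (by norm_num)
  calc _ ≤ A * (27 * r ^ 2 * (A / r) ^ 5 + (2 * r ^ 2 * (A / r) ^ 4 * (8 * A ^ 3 / r) ^ 2 +
        (2 * r ^ 2 * (A / r) ^ 4) ^ 2 + (8 * A ^ 3 / r) ^ 4)) := by gcongr
    _ = 27 * A ^ 6 / r ^ 3 + (128 * A ^ 11 + 4 * A ^ 9 + 4096 * A ^ 13) / r ^ 4 := by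
        field_simp; ring
    _ ≤ 27 * A ^ 13 / r ^ 3 + (128 * A ^ 13 + 4 * A ^ 13 + 4096 * A ^ 13) / r ^ 3 := by
        gcongr <;> norm_num
    _ = 4255 * A ^ 13 / r ^ 3 := by ring
    _ ≤ _ := by gcongr; norm_num

theorem log_near {x : ℝ} (h : |x| ≤ 1 / 2) : |log (1 + x) - x| ≤ 2 * x ^ 2 := by
  rw [abs_le] at h ⊢
  have h0 : 0 < 1 + x := by linarith [h.1]
  have h1 := log_le_sub_one_of_pos h0
  have h2 := one_sub_inv_le_log_of_pos h0
  have h3 : x - 2 * x ^ 2 ≤ 1 - (1 + x)⁻¹ := by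
    rw [le_sub_comm, inv_le_iff_one_le_mul₀ h0]
    nlinarith [sq_nonneg x, mul_nonneg (sq_nonneg x) (by linarith [h.1] : 0 ≤ 1 + 2 * x)]
  constructor <;> nlinarith [sq_nonneg x]

theorem cf_half {P R B D v N : ℝ} (hv : v ≠ 0) (hN : N ≠ 0) :
    cf (1 / (2 * (v * N ^ 2))) P (R * N ^ 4) (B * N ^ 3) (D * N) (v * N ^ 2) =
      1 - (R / (4 * v ^ 2) + B ^ 2 / (12 * v ^ 3) + D ^ 2 / (2 * v)) := by
  unfold cf
  field_simp
  ring

theorem num_cf {n ε S R B D d E w c : ℝ} (hn : 0 < n) (hε : 0 < ε) (hε1 : ε ≤ 1 / 1000)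
    (hεn : 25000 ≤ ε * n) (hS : |S - n / 12| ≤ 2 * ε * n) (hR : |R - n / 144| ≤ 2 * ε * n)
    (hB : |B| ≤ 3 * ε * n) (hD : |D| ≤ 4) (hd : |d| ≤ 2) (hE : |D - d| ≤ E) (hw0 : 0 ≤ w)
    (hw : w ≤ ε) (hc : |c - (1 - (R / (4 * S ^ 2) + B ^ 2 / (12 * S ^ 3) + D ^ 2 / (2 * S)))| ≤
      ε / n) :
    1 / 2 ≤ c ∧ |log c - -((1 / 4 + 6 * ((1 + w) * d ^ 2)) / n)| ≤ (760 * ε + 39 * E) / n := by
  have hS' := abs_le.1 hS
  have hεn' : ε * n ≤ n / 1000 := by nlinarith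
  have hS1 : n / 13 ≤ S := by linarith [hS'.1]
  have hS0 : 0 < S := by linarith
  have hE0 : 0 ≤ E := (abs_nonneg _).trans hE
  have h1 : |R / (4 * S ^ 2) - 1 / 4 / n| ≤ 100 * ε / n := by
    rw [show R / (4 * S ^ 2) - 1 / 4 / n = (R * n - S ^ 2) / (4 * S ^ 2) / n by field_simp,
      abs_div, abs_of_pos hn, abs_div, abs_of_pos (by positivity : 0 < 4 * S ^ 2)]
    gcongr
    rw [div_le_iff₀ (by positivity)]
    have a1 : |(R - n / 144) * n| ≤ 2 * ε * n * n := by rw [abs_mul, abs_of_pos hn]; gcongr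
    have a2 : |(S - n / 12) * (S + n / 12)| ≤ 2 * ε * n * (17 / 100 * n) := by
      rw [abs_mul, abs_of_pos (by positivity : 0 < S + n / 12)]
      gcongr
      linarith [hS'.2]
    have a3 : (2 / 25 * n) ^ 2 ≤ S ^ 2 := by gcongr; linarith [hS'.1]
    have a4 := mul_le_mul_of_nonneg_left a3 hε.le
    have a5 : 0 ≤ ε * n * n := by positivity
    rw [abs_le] at a1 a2 ⊢
    constructor <;> linarith only [a1.1, a1.2, a2.1, a2.2, a4, a5]
  have h2 : B ^ 2 / (12 * S ^ 3) ≤ 2 * ε / n := by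
    have : B ^ 2 ≤ (3 * ε * n) ^ 2 := by rw [← sq_abs]; gcongr
    calc _ ≤ (3 * ε * n) ^ 2 / (12 * (n / 13) ^ 3) := by gcongr
      _ = 6591 / 4 * ε * ε / n := by field_simp; ring
      _ ≤ _ := by gcongr; linarith
  have h2' : 0 ≤ B ^ 2 / (12 * S ^ 3) := by positivity
  have hd2 : d ^ 2 ≤ 2 ^ 2 := by rw [← sq_abs]; gcongr
  have hD2 : D ^ 2 ≤ 4 ^ 2 := by rw [← sq_abs]; gcongr
  have h3 : |D ^ 2 / (2 * S) - 6 * ((1 + w) * d ^ 2) / n| ≤ (650 * ε + 39 * E) / n := by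
    rw [show D ^ 2 / (2 * S) - 6 * ((1 + w) * d ^ 2) / n = ((D - d) * (D + d) * (n / (2 * S)) -
      d ^ 2 * (12 * (S - n / 12) / (2 * S)) - 6 * (w * d ^ 2)) / n by field_simp; ring,
      abs_div, abs_of_pos hn]
    gcongr
    have a0 : n / (2 * S) ≤ 6.5 := by rw [div_le_iff₀ (by positivity)]; linarith
    have a1 : |(D - d) * (D + d) * (n / (2 * S))| ≤ E * 6 * 6.5 := by
      rw [abs_mul, abs_mul, abs_of_pos (by positivity : 0 < n / (2 * S))]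
      gcongr
      linarith [abs_add_le D d]
    have a2 : |d ^ 2 * (12 * (S - n / 12) / (2 * S))| ≤ 2 ^ 2 * (24 * ε * 6.5) := by
      rw [abs_mul, abs_of_nonneg (sq_nonneg d), abs_div, abs_mul,
        abs_of_pos (by positivity : 0 < 2 * S), abs_of_pos (by norm_num : (0 : ℝ) < 12)]
      gcongr
      calc _ ≤ 12 * (2 * ε * n) / (2 * S) := by gcongr
        _ = 24 * ε * (n / (2 * S)) := by ring
        _ ≤ _ := by gcongr
    have a3 : w * d ^ 2 ≤ ε * 2 ^ 2 := by gcongr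
    have a4 : 0 ≤ w * d ^ 2 := by positivity
    rw [abs_le] at a1 a2 ⊢
    constructor <;> linarith [a1.1, a1.2, a2.1, a2.2]
  have h4 : D ^ 2 / (2 * S) ≤ 104 / n := by
    calc _ ≤ 4 ^ 2 / (2 * (n / 13)) := by gcongr
      _ = _ := by field_simp; norm_num
  have h4' : 0 ≤ D ^ 2 / (2 * S) := by positivity
  generalize R / (4 * S ^ 2) = r1 at *
  generalize B ^ 2 / (12 * S ^ 3) = r2 at *
  generalize D ^ 2 / (2 * S) = r3 at *
  have hi : 0 < n⁻¹ := by positivity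
  have hi2 : 25000 * n⁻¹ ≤ ε := by rw [mul_inv_le_iff₀ hn]; exact hεn
  simp only [div_eq_mul_inv _ n] at *
  have b1 : ε * n⁻¹ ≤ 1 / 1000 * n⁻¹ := by gcongr
  rw [abs_le] at h1 h3 hc
  have h5 : |c - 1| ≤ 111 * n⁻¹ := by
    rw [abs_le]
    constructor <;> linarith [h1.1, h1.2, hc.1, hc.2]
  have h6 := log_near (h5.trans (by linarith))
  have h7 : (c - 1) ^ 2 ≤ (111 * n⁻¹) ^ 2 := by rw [← sq_abs]; gcongr
  have h8 : 25000 * n⁻¹ * n⁻¹ ≤ ε * n⁻¹ := by gcongr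
  rw [add_sub_cancel] at h6
  rw [abs_le] at h5 h6 ⊢
  refine ⟨by linarith [h5.1], ?_, ?_⟩ <;>
    linarith [h1.1, h1.2, hc.1, hc.2, h3.1, h3.2, h6.1, h6.2]

theorem num_var {n ε v S m i E : ℝ} (hn : 0 < n) (hε : 0 < ε) (hε1 : ε ≤ 1 / 1000)
    (hεn : 25000 ≤ ε * n) (hv : |v - n / 6| ≤ ε * n) (hm : 1 ≤ ε * (m - 1)) (hi0 : 0 ≤ i)
    (hi : i ≤ 2) (hE : E ≤ 3) (h : |v * (1 - 1 / m) - 2 * S - i / 6| ≤ E + 5 / m) :
    |-(1 / 2 * log (2 * S)) - (-(1 / 2 * log v) + 1 / 2 * log m - 1 / 2 * log (m - 1) +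
      i / 2 / n)| ≤ (40 * ε + 4 * E) / n := by
  have hm1 : 1000 ≤ m - 1 := by nlinarith
  have hm0 : 0 < m := by linarith
  have hεn' : ε * n ≤ n / 1000 := by nlinarith
  have hn1 : 25000000 ≤ n := by linarith
  have hw : 1 / m ≤ ε := by rw [div_le_iff₀ hm0]; nlinarith
  have hw0 : 0 < 1 / m := by positivity
  have hv' := abs_le.1 hv
  have hv0 : 0 < v := by linarith [hv'.1]
  obtain ⟨u, hu⟩ : ∃ u, u = v * (1 - 1 / m) := ⟨_, rfl⟩
  have hu1 : |u - n / 6| ≤ 1.2 * ε * n := by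
    have : v * (1 / m) ≤ 17 / 100 * n * ε := by gcongr; linarith [hv'.2]
    have : 0 ≤ v * (1 / m) := by positivity
    rw [hu, abs_le]
    constructor <;> linarith [hv'.1, hv'.2, mul_pos hε hn]
  have hu' := abs_le.1 hu1
  have hu2 : 41 / 250 * n ≤ u := by linarith only [hu'.1, hεn', hn]
  have hu0 : 0 < u := lt_of_lt_of_le (by positivity) hu2
  rw [← hu, show 5 / m = 5 * (1 / m) by ring] at h
  obtain ⟨x, hx⟩ : ∃ x, x = (2 * S - u) / u := ⟨_, rfl⟩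
  have hE0 : 0 ≤ E + 5 * (1 / m) := (abs_nonneg _).trans h
  have h1 : |x + i / n| ≤ (70 * ε + 7 * E) / n := by
    rw [show x + i / n = (-(u - 2 * S - i / 6) * (n / u) + i * ((u - n / 6) / u)) / n by
      rw [hx]; field_simp; ring, abs_div, abs_of_pos hn]
    gcongr
    have a0 : n / u ≤ 6.1 := by rw [div_le_iff₀ hu0]; linarith
    have a1 : |-(u - 2 * S - i / 6) * (n / u)| ≤ (E + 5 * (1 / m)) * 6.1 := by
      rw [abs_mul, abs_neg, abs_of_pos (by positivity : 0 < n / u)]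
      gcongr
    have a2 : |i * ((u - n / 6) / u)| ≤ 2 * (1.2 * ε * 6.1) := by
      rw [abs_mul, abs_of_nonneg hi0, abs_div, abs_of_pos hu0]
      gcongr
      calc _ ≤ 1.2 * ε * n / u := by gcongr
        _ = 1.2 * ε * (n / u) := by ring
        _ ≤ _ := by gcongr
    rw [abs_le] at a1 a2 ⊢
    constructor <;> linarith [a1.1, a1.2, a2.1, a2.2]
  have hi' : 0 < n⁻¹ := by positivity
  have hi2 : 25000 * n⁻¹ ≤ ε := by rw [mul_inv_le_iff₀ hn]; exact hεn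
  simp only [div_eq_mul_inv _ n] at *
  have b1 : ε * n⁻¹ ≤ 1 / 1000 * n⁻¹ := by gcongr
  have b2 : E * n⁻¹ ≤ 3 * n⁻¹ := by gcongr
  have b3 : i * n⁻¹ ≤ 2 * n⁻¹ := by gcongr
  have b4 : 0 ≤ i * n⁻¹ := by positivity
  have h2 : |x| ≤ 30 * n⁻¹ := by
    rw [abs_le] at h1 ⊢
    constructor <;> linarith [h1.1, h1.2]
  have h3 := log_near (h2.trans (by linarith))
  have h4 : x ^ 2 ≤ (30 * n⁻¹) ^ 2 := by rw [← sq_abs]; gcongr
  have h5 : 25000 * n⁻¹ * n⁻¹ ≤ ε * n⁻¹ := by gcongr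
  have h6 : log (2 * S) = log v + (log (m - 1) - log m) + log (1 + x) := by
    have := abs_le.1 h2
    rw [← log_div (by linarith) hm0.ne', ← log_mul hv0.ne' (by positivity),
      ← log_mul (by positivity) (by linarith [this.1])]
    congr 1
    rw [hx, show v * ((m - 1) / m) = u by rw [hu]; field_simp]
    field_simp
    ring
  have b5 : -(5 * ε * n⁻¹) ≤ E * n⁻¹ := by
    rw [← neg_mul]; gcongr; linarith
  rw [h6]
  rw [abs_le] at h1 h3 ⊢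
  constructor <;> linarith [h1.1, h1.2, h3.1, h3.2]

theorem log_shift {n v j e : ℝ} (hn : 1000 ≤ n) (hj0 : 0 ≤ j) (hj : j ≤ 3) (he : |e| ≤ n / 2)
    (hv : |(n - j) / 2 * v - (n ^ 2 / 12 - e)| ≤ 4) :
    0 < v ∧ |(n - 1) / 2 * (log v - log (n / 6)) - (j / 2 - 6 * e / n)| ≤ 100 / n := by
  have hn0 : 0 < n := by linarith
  have he' := abs_le.1 he
  have hv' := abs_le.1 hv
  have hv0 : 0 < v := by
    by_contra h
    nlinarith [hv'.1, he'.2]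
  obtain ⟨r, hr⟩ : ∃ r, r = ((n - j) / 2 * v - (n ^ 2 / 12 - e)) * (12 / n ^ 2) - 12 * e / n ^ 2 :=
    ⟨_, rfl⟩
  have h1 : |r + 12 * e / n ^ 2| ≤ 48 / n ^ 2 := by
    rw [hr, sub_add_cancel, abs_mul, abs_of_pos (by positivity : 0 < 12 / n ^ 2)]
    calc _ ≤ 4 * (12 / n ^ 2) := by gcongr
      _ = _ := by ring
  obtain ⟨w, hw⟩ : ∃ w, w = 1 / n := ⟨_, rfl⟩
  have hw0 : 0 < w := by rw [hw]; positivity
  have hw1 : w ≤ 1 / 1000 := by rw [hw]; gcongr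
  have hnw : n * w = 1 := by rw [hw]; field_simp
  rw [show 12 * e / n ^ 2 = 12 * (e * w) * w by rw [hw]; field_simp,
    show 48 / n ^ 2 = 48 * w ^ 2 by rw [hw]; field_simp] at h1
  have h2 : |e * w| ≤ 1 / 2 := by
    rw [abs_mul, abs_of_pos hw0]; nlinarith
  have h2' := abs_le.1 h2
  have h1' := abs_le.1 h1
  have h3 : |r| ≤ 7 * w := by
    rw [abs_le]; constructor <;> nlinarith only [h1'.1, h1'.2, h2'.1, h2'.2, hw0, hw1]
  have h4 : |-(j * w)| ≤ 3 * w := by rw [abs_neg, abs_of_nonneg (by positivity)]; gcongr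
  have h5 := log_near (h3.trans (by linarith))
  have h6 := log_near (h4.trans (by linarith))
  have h7 : r ^ 2 ≤ (7 * w) ^ 2 := by rw [← sq_abs]; gcongr
  have h8 : (-(j * w)) ^ 2 ≤ (3 * w) ^ 2 := by rw [← sq_abs]; gcongr
  have h9 : log v - log (n / 6) = log (1 + r) - log (1 + -(j * w)) := by
    have a1 := (abs_le.1 h3).1
    have a2 := (abs_le.1 h4).1
    rw [sub_eq_sub_iff_add_eq_add, ← log_mul hv0.ne' (by linarith),
      ← log_mul (by linarith) (by positivity), hr, hw]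
    congr 1
    field_simp
    ring
  have h10 : |log v - log (n / 6) - (j * w - 12 * (e * w) * w)| ≤ 164 * w ^ 2 := by
    rw [abs_le] at h5 h6 ⊢
    constructor <;> linarith [h5.1, h5.2, h6.1, h6.2, h1'.1, h1'.2]
  refine ⟨hv0, ?_⟩
  rw [show 6 * e / n = 6 * (e * w) by rw [hw]; ring, show 100 / n = 100 * w by rw [hw]; ring]
  generalize log v - log (n / 6) = l at h10
  generalize e * w = d at *
  obtain ⟨s, rfl⟩ : ∃ s, l = j * w - 12 * d * w + s := ⟨l - (j * w - 12 * d * w), by ring⟩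
  rw [add_sub_cancel_left] at h10
  rw [show (n - 1) / 2 * (j * w - 12 * d * w + s) - (j / 2 - 6 * d) =
    (n - 1) / 2 * s - (j / 2 - 6 * d) * w by linear_combination (j / 2 - 6 * d) * hnw]
  have a1 : |(n - 1) / 2 * s| ≤ n / 2 * (164 * w ^ 2) := by
    rw [abs_mul, abs_of_nonneg (by linarith)]; gcongr; linarith
  have a2 : |(j / 2 - 6 * d) * w| ≤ 5 * w := by
    rw [abs_mul, abs_of_pos hw0]; gcongr; rw [abs_le]; constructor <;> linarith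
  have a3 : n / 2 * (164 * w ^ 2) = 82 * w := by linear_combination 82 * w * hnw
  linarith [abs_sub ((n - 1) / 2 * s) ((j / 2 - 6 * d) * w)]

theorem gap_bounds {n v0 z : ℝ} (hn : 0 < n) (h1 : n / 7 ≤ v0) (h2 : v0 ≤ n / 5) (hz : 0 ≤ z)
    (hz1 : z ≤ 1) : z ≤ log v0 - log (max (v0 * (1 - z)) (n / 50)) ∧
      log v0 - log (max (v0 * (1 - z)) (n / 50)) ≤ 9 ∧
      (z ≤ 1 / 2 → log v0 - log (max (v0 * (1 - z)) (n / 50)) ≤ z + 2 * z ^ 2) := by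
  have hv : 0 < v0 := by linarith
  have hM : 0 < max (v0 * (1 - z)) (n / 50) := lt_max_of_lt_right (by linarith)
  refine ⟨?_, ?_, fun h => ?_⟩
  · rw [le_sub_comm, log_le_iff_le_exp hM, exp_sub, exp_log hv, div_eq_mul_inv v0, ← exp_neg]
    refine max_le (by gcongr; linarith [add_one_le_exp (-z)]) ?_
    have : 1 / 3 ≤ exp (-z) := by
      refine le_trans ?_ (exp_le_exp.2 (neg_le_neg hz1))
      rw [exp_neg, one_div]
      exact inv_anti₀ (exp_pos _) (by linarith [exp_one_lt_d9])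
    nlinarith
  · rw [← log_div hv.ne' hM.ne']
    refine (log_le_sub_one_of_pos (by positivity)).trans ?_
    rw [sub_le_iff_le_add, div_le_iff₀ hM]
    linarith [le_max_right (v0 * (1 - z)) (n / 50)]
  · have := log_near (x := -z) (by rwa [abs_neg, abs_of_nonneg hz])
    have h3 := log_le_log (mul_pos hv (by linarith : 0 < 1 - z)) (le_max_left _ (n / 50))
    rw [log_mul hv.ne' (by linarith)] at h3
    rw [← sub_eq_add_neg, neg_sq] at this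
    linarith [(abs_le.1 this).1]

theorem row_B {n f Q s δ : ℝ} (hn : 1000 ≤ n) (hf : f = n - 2 + δ) (hδ : δ = 0 ∨ δ = 1)
    (hQ0 : 0 ≤ Q) (hQ : Q ≤ f / 4) (hs : |s| ≤ 1) :
    |(n - 3) / 2 * (2 / (f - 1) * (Q - s ^ 2 / f)) - Q| ≤ 2 / n + δ := by
  have h1 : s ^ 2 ≤ 1 := (sq_le_one_iff_abs_le_one s).2 hs
  have h2 : s ^ 2 / f ≤ 2 / n := by
    rw [div_le_div_iff₀ (by rcases hδ with rfl | rfl <;> linarith) (by linarith)]
    rcases hδ with rfl | rfl <;> nlinarith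
  have h3 : 0 ≤ s ^ 2 / f := div_nonneg (sq_nonneg _) (by linarith)
  generalize s ^ 2 / f = r at *
  rcases hδ with rfl | rfl
  · have : n - 3 ≠ 0 := by linarith
    rw [hf, show n - 2 + 0 - 1 = n - 3 by ring, show (n - 3) / 2 * (2 / (n - 3) * (Q - r)) - Q = -r by
      field_simp; ring, abs_neg, abs_of_nonneg h3]
    linarith
  · have : 0 < n - 2 := by linarith
    rw [hf, show n - 2 + 1 - 1 = n - 2 by ring, show (n - 3) / 2 * (2 / (n - 2) * (Q - r)) - Q =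
      -(r + (Q - r) / (n - 2)) by field_simp; ring, abs_neg]
    have a1 : |(Q - r) / (n - 2)| ≤ 1 := by
      have : 2 / n ≤ 1 := by rw [div_le_one (by linarith)]; linarith
      rw [abs_div, abs_of_pos ‹0 < n - 2›, div_le_one ‹_›, abs_le]
      constructor <;> linarith
    linarith [abs_add_le r ((Q - r) / (n - 2)), abs_of_nonneg h3]

theorem tilt_num {n m v S s1 s2 s3 δ : ℝ} (hn : 0 < n) (hm : 42 ≤ m) (hv : n / 7 ≤ v)
    (h1 : |s1| ≤ 3 * δ / m) (hδ : δ ≤ n) (h2 : |s2| ≤ 240 * δ / (n * m))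
    (h3 : s2 = (m - 2) / 2 * (s1 / v) - s3 / S) :
    |-((m - 2) / 2 * (log (v - s1) - log v)) - s3 / S| ≤
      240 * δ / (n * m) + 441 * δ ^ 2 / (n ^ 2 * m) := by
  have hv0 : 0 < v := by linarith
  have hδ0 : 0 ≤ δ := by
    have := (abs_nonneg _).trans h1
    rw [le_div_iff₀ (by linarith)] at this
    linarith
  have h4 : |-(s1 / v)| ≤ 21 * δ / (n * m) := by
    rw [abs_neg, abs_div, abs_of_pos hv0]
    calc _ ≤ 3 * δ / m / (n / 7) := by gcongr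
      _ = _ := by field_simp; ring
  have h5 : 21 * δ / (n * m) ≤ 1 / 2 := by
    rw [div_le_iff₀ (by positivity)]; nlinarith
  have h6 := log_near (h4.trans h5)
  have h7 : log (v - s1) - log v = log (1 + -(s1 / v)) := by
    have := abs_le.1 (h4.trans h5)
    rw [show v - s1 = v * (1 + -(s1 / v)) by field_simp; ring,
      log_mul hv0.ne' (by linarith [this.1])]
    ring
  have h8 : (-(s1 / v)) ^ 2 ≤ (21 * δ / (n * m)) ^ 2 := by rw [← sq_abs]; gcongr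
  have h9 : |(m - 2) / 2 * (log (1 + -(s1 / v)) - -(s1 / v))| ≤ 441 * δ ^ 2 / (n ^ 2 * m) := by
    rw [abs_mul, abs_of_nonneg (by linarith : 0 ≤ (m - 2) / 2)]
    calc _ ≤ m / 2 * (2 * (21 * δ / (n * m)) ^ 2) := by gcongr <;> linarith
      _ = _ := by field_simp; ring
  rw [h7, show -((m - 2) / 2 * log (1 + -(s1 / v))) - s3 / S =
    s2 - (m - 2) / 2 * (log (1 + -(s1 / v)) - -(s1 / v)) by rw [h3]; ring]
  linarith [abs_sub s2 ((m - 2) / 2 * (log (1 + -(s1 / v)) - -(s1 / v)))]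

theorem c_bounds {m f : ℝ} (hm : 42 ≤ m) (h1 : f ≤ m) (h2 : m ≤ f + 2) :
    |2 * f / ((f - 1) * (f - 2))| ≤ 3 / m ∧
      |(m - 2) / 2 * (2 * f / ((f - 1) * (f - 2))) - 1| ≤ 6 / m := by
  have h3 : 0 < (f - 1) * (f - 2) := mul_pos (by linarith) (by linarith)
  have h4 : 2 * f * m ≤ 3 * ((f - 1) * (f - 2)) := by nlinarith
  have h5 : 0 < m := by linarith
  constructor
  · rw [abs_of_nonneg (div_nonneg (by linarith) h3.le), div_le_div_iff₀ h3 h5]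
    linarith
  · rw [show (m - 2) / 2 * (2 * f / ((f - 1) * (f - 2))) - 1 =
      (f * (m - f + 1) - 2) / ((f - 1) * (f - 2)) by
        rw [eq_div_iff h3.ne', sub_mul, mul_assoc, div_mul_cancel₀ _ h3.ne']; ring,
      abs_of_nonneg (div_nonneg (by nlinarith) h3.le), div_le_div_iff₀ h3 h5]
    have : (f * (m - f + 1) - 2) * m ≤ 3 * f * m := by gcongr; nlinarith
    linarith

theorem row_var {q m f i : ℝ} (hq0 : 0 ≤ q) (hq : q ≤ 1) (hm : 6 ≤ m) (h1 : f ≤ m)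
    (h2 : m ≤ f + 2) (hi : i = 0 ∨ i = 1) :
    |q * (1 - 1 / m) - (1 - i) * (q * (1 - 1 / f)) - i / 6| ≤
      i * |q - 1 / 6| + i / m + (m - f) * (3 / 2 / m ^ 2) := by
  have hm0 : 0 < m := by linarith
  have hf0 : 0 < f := by linarith
  have h3 : 0 ≤ (m - f) * (3 / 2 / m ^ 2) := mul_nonneg (by linarith) (by positivity)
  rcases hi with rfl | rfl
  · rw [show q * (1 - 1 / m) - (1 - 0) * (q * (1 - 1 / f)) - 0 / 6 = (m - f) * (q / (f * m)) by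
      field_simp; ring, abs_of_nonneg (mul_nonneg (by linarith) (by positivity))]
    simp only [zero_mul, zero_div, zero_add]
    refine mul_le_mul_of_nonneg_left ?_ (by linarith)
    rw [div_le_div_iff₀ (by positivity) (by positivity)]
    nlinarith
  · have : q * (1 / m) ≤ 1 / m := mul_le_of_le_one_left (by positivity) hq
    have : 0 ≤ q * (1 / m) := by positivity
    rw [abs_le]
    constructor <;> linarith [le_abs_self (q - 1 / 6), neg_abs_le (q - 1 / 6)]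

theorem row_beta {q f i ε : ℝ} (hq0 : 0 ≤ q) (hq : q ≤ 1) (hf : 2 ≤ ε * f) (hf1 : 1 ≤ f)
    (hi : i = 0 ∨ i = 1) :
    |1 / 2 * ((1 - i) * (q * (1 - 1 / f))) - 1 / 12| ≤ |q - 1 / 6| / 2 + ε / 4 + i / 12 ∧
      |(1 / 2 * ((1 - i) * (q * (1 - 1 / f)))) ^ 2 - 1 / 144| ≤
        |q - 1 / 6| / 2 + ε / 4 + i / 12 := by
  have h1 : 1 / f ≤ ε / 2 := by rw [div_le_iff₀ (by linarith)]; linarith
  have h2 : 0 ≤ 1 / f := by positivity
  have h3 : 1 / f ≤ 1 := by rw [div_le_one (by linarith)]; exact hf1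
  have h4 : q * (1 / f) ≤ ε / 2 := (mul_le_of_le_one_left h2 hq).trans h1
  have h5 : 0 ≤ q * (1 / f) := by positivity
  have h6 : q * (1 / f) ≤ q := mul_le_of_le_one_right hq0 h3
  have key : ∀ β B : ℝ, 0 ≤ β → β ≤ 1 / 2 → |β - 1 / 12| ≤ B →
      |β - 1 / 12| ≤ B ∧ |β ^ 2 - 1 / 144| ≤ B := fun β B b0 b1 hB => ⟨hB, by
    rw [show β ^ 2 - 1 / 144 = (β - 1 / 12) * (β + 1 / 12) by ring, abs_mul]
    exact (mul_le_of_le_one_right (abs_nonneg _) (by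
      rw [abs_of_nonneg (by linarith)]; linarith)).trans hB⟩
  rcases hi with rfl | rfl
  · refine key _ _ (by linarith) (by linarith) ?_
    rw [abs_le]
    constructor <;> linarith [le_abs_self (q - 1 / 6), neg_abs_le (q - 1 / 6)]
  · refine key _ _ (by simp) (by simp) ?_
    rw [abs_le]
    constructor <;> linarith [abs_nonneg (q - 1 / 6)]

theorem line_ge {n S I : ℝ} (hn : 0 < n) (hS : 0 < S) (hSn : S ≤ n)
    (h : 1 / 2 ≤ I * √(2 * π * (S * (n ^ 2) ^ 2))) : 1 / (6 * √(n ^ 5)) ≤ I := by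
  have hπ := pi_pos
  have a1 : √(2 * π * (S * (n ^ 2) ^ 2)) ≤ 3 * √(n ^ 5) := by
    rw [← sqrt_sq (by norm_num : (0 : ℝ) ≤ 3), ← sqrt_mul (by norm_num)]
    refine sqrt_le_sqrt ?_
    calc _ ≤ 2 * 4 * (n * (n ^ 2) ^ 2) := by gcongr; exact pi_le_four
      _ ≤ _ := by nlinarith [pow_pos hn 5]
  have a2 : 0 < I := by
    by_contra h'
    nlinarith [sqrt_nonneg (2 * π * (S * (n ^ 2) ^ 2))]
  rw [div_le_iff₀ (by positivity)]
  nlinarith

theorem log_line {n S I : ℝ} (hn : 0 < n) (hS : 0 < S) (hI : 0 < I) :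
    log (I * √(2 * π * (S * (n ^ 2) ^ 2))) =
      log I + 1 / 2 * (log (π * n ^ 4) + log (2 * S)) := by
  have hπ := pi_pos
  rw [log_mul hI.ne' (by positivity), log_sqrt (by positivity), ← log_mul (by positivity)
    (by positivity), show π * n ^ 4 * (2 * S) = 2 * π * (S * (n ^ 2) ^ 2) by ring]
  ring

theorem tilted_num {n m ε θ E1 E2 G lI l1 l2 lv lm lm' c i : ℝ} (hn : 0 < n) (hθ : ε / n ≤ θ)
    (hG : G / n ≤ 2 * θ) (h1 : 0 ≤ E1) (h2 : 0 ≤ E2)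
    (h3 : |lI + 1 / 2 * (l1 + l2) - -(c / n)| ≤ (760 * ε + 39 * (E1 + G)) / n)
    (h5 : |-(1 / 2 * l2) - (-(1 / 2 * lv) + 1 / 2 * lm - 1 / 2 * lm' + i / 2 / n)| ≤
      (40 * ε + 4 * E2) / n) (hm : m = c / n - i / 2 / n) :
    |lI - (-(1 / 2 * (l1 + lv)) + 1 / 2 * lm - 1 / 2 * lm' - m)| ≤ 878 * θ + 43 * (E1 + E2) / n := by
  have a4 := div_nonneg h1 hn.le
  have a5 := div_nonneg h2 hn.le
  simp only [add_div, mul_div_assoc, mul_add] at h3 h5 ⊢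
  rw [abs_le] at h3 h5 ⊢
  constructor <;> linarith [h3.1, h3.2, h5.1, h5.2]

theorem var_num {n m v S i E : ℝ} (hm : 10 ≤ m) (hmn : m ≤ n) (hv0 : 0 ≤ v) (hv : v ≤ n)
    (hi0 : 0 ≤ i) (hi : i ≤ 2) (hE : E ≤ 2 * (5 / 6))
    (h : |v * (1 - 1 / m) - 2 * S - i / 6| ≤ E + 5 / m) : |v - 2 * S| ≤ 4 * n / m := by
  have hm0 : 0 < m := by linarith
  have a1 : v * (1 / m) ≤ n / m := by rw [mul_one_div]; gcongr
  have a2 : 0 ≤ v * (1 / m) := by positivity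
  have a3 : 1 ≤ n / m := by rw [le_div_iff₀ hm0]; linarith
  have a4 : 5 / m ≤ 1 / 2 := by rw [div_le_iff₀ hm0]; linarith
  rw [mul_div_assoc]
  rw [abs_le] at h ⊢
  constructor <;> linarith [h.1, h.2]

theorem le_sqrt_of_le {y A B : ℝ} (hy : 0 ≤ y) (hA : y ≤ A) (hB : y ≤ B) : y ≤ √(A * B) :=
  le_sqrt_of_sq_le (by rw [sq]; gcongr; linarith)

theorem log_near' {u w η : ℝ} (hu : 0 < u) (h : |w - u| ≤ η * u) (hη : η ≤ 1 / 2) :
    0 < w ∧ |log w - log u| ≤ 2 * η := by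
  have h1 : |(w - u) / u| ≤ η := by rw [abs_div, abs_of_pos hu, div_le_iff₀ hu]; exact h
  have h2 := log_near (h1.trans hη)
  have h3 : 0 < w := by nlinarith [(abs_le.1 h).1]
  have h4 : 2 * ((w - u) / u) ^ 2 ≤ η := by
    rw [← sq_abs]; nlinarith [abs_nonneg ((w - u) / u)]
  rw [show 1 + (w - u) / u = w / u by field_simp; ring, log_div h3.ne' hu.ne'] at h2
  rw [abs_le] at h1 h2 ⊢
  exact ⟨h3, by linarith [h1.1, h2.1], by linarith [h1.2, h2.2]⟩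

theorem row_var2 {q m f i : ℝ} (hq0 : 0 ≤ q) (hq : q ≤ 1) (hm : 1 ≤ m) (hf : f = 0 ∨ 1 ≤ f)
    (hi : i = 0 ∨ i = 1) (h : (f = m ∧ i = 0) ∨ f + 1 ≤ m) :
    |(1 - i) * (q * (1 - 1 / f)) - q * (1 - 1 / m)| ≤ m - f ∧
      (1 - i) * (q * (1 - 1 / f)) ≤ q := by
  have h1 : 0 ≤ 1 / f ∧ 1 / f ≤ 1 := by
    rcases hf with rfl | hf
    · simp
    · exact ⟨by positivity, (div_le_one (by linarith)).2 hf⟩
  have h2 : 0 ≤ 1 / m ∧ 1 / m ≤ 1 := ⟨by positivity, (div_le_one (by linarith)).2 hm⟩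
  have h3 : 0 ≤ q * (1 - 1 / f) ∧ q * (1 - 1 / f) ≤ q := by constructor <;> nlinarith [h1.1, h1.2]
  have h4 : 0 ≤ q * (1 - 1 / m) ∧ q * (1 - 1 / m) ≤ q := by constructor <;> nlinarith [h2.1, h2.2]
  refine ⟨?_, by rcases hi with rfl | rfl <;> linarith [h3.2]⟩
  rcases h with ⟨rfl, rfl⟩ | h
  · simp
  · rw [abs_le]
    rcases hi with rfl | rfl <;> constructor <;> linarith [h3.1, h3.2, h4.1, h4.2]

theorem sqrt_step {c m : ℝ} (hc : 0 ≤ c) (hm : 0 ≤ m) :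
    2 * √(c * m) + √(c / (m + 1)) ≤ 2 * √(c * (m + 1)) := by
  have h1 : 0 < √(m + 1) := by positivity
  have h2 : √m ≤ √(m + 1) - 1 / (2 * √(m + 1)) := by
    have e : √(m + 1) ^ 2 = m + 1 := sq_sqrt (by linarith)
    refine sqrt_le_iff.2 ⟨?_, ?_⟩
    · rw [sub_nonneg, div_le_iff₀ (by positivity)]; nlinarith
    · have : √(m + 1) * (1 / (2 * √(m + 1))) = 1 / 2 := by field_simp
      nlinarith [sq_nonneg (1 / (2 * √(m + 1)))]
  rw [sqrt_mul hc, sqrt_mul hc, sqrt_div hc]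
  have h3 := mul_le_mul_of_nonneg_left h2 (sqrt_nonneg c)
  have h4 : √c * (1 / (2 * √(m + 1))) * 2 = √c / √(m + 1) := by field_simp
  linarith

theorem exp_neg_two_le {η : ℝ} (h0 : 0 ≤ η) (h : η ≤ 1 / 2) : exp (-(2 * η)) ≤ 1 - η := by
  rw [exp_neg, inv_le_comm₀ (exp_pos _) (by linarith), inv_le_iff_one_le_mul₀ (by linarith)]
  nlinarith [add_one_le_exp (2 * η)]

theorem ph_le0 {n m v : ℝ} (hn : 25000000 ≤ n) (hm : 1 ≤ m) (hv : n / 50 ≤ v) :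
    1 / 2 * log m - (m - 1) / 2 * log (π * n ^ 4 * v) ≤ -(7 * (m - 1)) := by
  have h2 := log_le_sub_one_of_pos (by linarith : 0 < m)
  have h3 : 15 ≤ log (π * n ^ 4 * v) := by
    have h4 : 50 ≤ n ^ 4 := le_trans (by linarith) (le_self_pow₀ (by linarith) (by norm_num))
    have h5 : exp 1 ^ 15 ≤ 3 ^ 15 := by gcongr; linarith [exp_one_lt_d9]
    have h6 : 1 * 50 * (n / 50) ≤ π * n ^ 4 * v := by
      gcongr; linarith [pi_gt_three]
    rw [← exp_nat_mul] at h5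
    rw [le_log_iff_exp_le (by linarith)]
    norm_num at h5
    linarith
  nlinarith

end Pool.Agent.MP_f80039_co.H9
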