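import Pool.Agent.MP_f80039_co.H9.Tail
import Pool.Agent.MP_f80039_co.H9.Cf

/-! Resampling one line, and the potential. -/

set_option autoImplicit false

namespace Pool.Agent.MP_f80039_co.H9

section

open Finset Real

/-- The tilted local limit theorem at order `n` with error `η`. -/
def TL (n : ℕ) (η : ℝ) : Prop := ∀ (α : Fin n → Type) [∀ i, Fintype (α i)]
    [∀ i, Nonempty (α i)] (X : ∀ i, α i → ℤ) (t : ℤ) (τ : ℝ),
    (∀ i a, 0 ≤ X i a ∧ X i a ≤ n ^ 2) → Aper n X →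
    |∑ i, Ex (fun a => (X i a : ℝ)) - t| ≤ 6 * n ^ 2 → 0 ≤ τ → τ ≤ 50 / n ^ 5 →
    |(Ex fun x : ∀ i, α i => ind (∑ i, X i (x i) = t) * wt (fun i a => (X i a : ℝ)) τ x) *
        √(2 * π * ∑ i, vr fun a => (X i a : ℝ)) -
      cf τ (∑ i, p4 fun a => (X i a : ℝ)) (∑ i, vr (fun a => (X i a : ℝ)) ^ 2)
        (∑ i, m3 fun a => (X i a : ℝ)) (∑ i, Ex (fun a => (X i a : ℝ)) - t)
        (∑ i, vr fun a => (X i a : ℝ))| ≤ η

end

section

open Finset Real

theorem Pr_exists_le {Ω ι : Type*} [Fintype Ω] (S : Finset ι) (A : ι → Ω → Prop) :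
    Pr (fun ω => ∃ i ∈ S, A i ω) ≤ ∑ i ∈ S, Pr (A i) := by
  simp only [Pr, ← Ex_sum]
  refine Ex_mono fun ω => ?_
  by_cases h : ∃ i ∈ S, A i ω
  · rw [ind_pos h]
    obtain ⟨i, hi, h⟩ := h
    rw [← ind_pos h]
    exact single_le_sum (f := fun i => ind (A i ω)) (fun i _ => ind_nonneg _) hi
  · rw [ind_neg h]
    exact sum_nonneg fun i _ => ind_nonneg _

theorem sum_ind_le {ι : Type*} [Fintype ι] (p : ι → Prop) (S : Finset ι) (h : ∀ i, p i → i ∈ S) :
    ∑ i, ind (p i) ≤ S.card := by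
  classical
  calc _ ≤ ∑ i, if i ∈ S then (1 : ℝ) else 0 := sum_le_sum fun i _ => by
        split_ifs with hi
        · exact ind_le_one _
        · rw [ind_neg fun hp => hi (h i hp)]
    _ = _ := by simp

/-- Arrangements of `0, …, n² - 1` in the square. -/
abbrev Om (n : ℕ) := Fin n × Fin n ≃ Fin (n ^ 2)

instance (n : ℕ) : Nonempty (Om n) := ⟨finProdFinEquiv.trans (finCongr (sq n).symm)⟩

variable {n : ℕ}

/-- An entry. -/
def val (x : Om n) (a b : Fin n) : ℤ := (x (a, b) : ℕ)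

theorem val_bd (x : Om n) (a b : Fin n) : 0 ≤ val x a b ∧ val x a b ≤ n ^ 2 :=
  ⟨Nat.cast_nonneg _, by unfold val; exact_mod_cast (x (a, b)).2.le⟩

/-- Invariance under permutations of the free cells of the rows. -/
def Inv (U : Fin n → Finset (Fin n)) (E : Om n → Prop) : Prop :=
  ∀ g : Fin n → Equiv.Perm (Fin n), (∀ a b, b ∉ U a → g a b = b) →
    ∀ x, E (act (Equiv.prodCongrRight g) x) ↔ E x

/-- The sum of the pair averages of the rows. -/
noncomputable def sav (κ : Fin (n ^ 2) → Fin (n ^ 2) → ℝ) (U : Fin n → Finset (Fin n))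
    (x : Om n) : ℝ := ∑ a, av (fun b b' => κ (x (a, b)) (x (a, b'))) (U a)

/-- The free parts of the rows are aperiodic. -/
def Gs (γ : ℝ) (U : Fin n → Finset (Fin n)) (x : Om n) : Prop :=
  ∀ r : ℕ, n ≤ r → r ≤ n ^ 3 → γ ≤ sav (ks n r) U x

theorem bad_le {U : Fin n → Finset (Fin n)} {k : ℕ} (hk : 0 < k) (hU : ∀ a, 2 * k ≤ (U a).card)
    {ε : ℝ} (hε : 0 < ε) (hε1 : ε ≤ 1 / 18) (hn : 2 ≤ n) (hkn : 48 * k ≤ ε * n) :
    Pr (fun x => ¬ Gs (n / 4) U x) ≤ (n ^ 3 + 3) * exp (-(n * k * ε ^ 2 / 64)) := by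
  have hn' : (2 : ℝ) ≤ n := by exact_mod_cast hn
  have hk' : (1 : ℝ) ≤ k := by exact_mod_cast hk
  have ht : ∀ κ : Fin (n ^ 2) → Fin (n ^ 2) → ℝ, (∀ v y, |κ v y| ≤ 1) → (∀ v, κ v v = 0) →
      Pr (fun x => n * (mean κ + ε / 2) < sav κ U x) ≤ exp (-(n * k * ε ^ 2 / 64)) := by
    intro κ h1 h2
    have := tail U hk hU κ h1 h2 (ε := ε / 2) (by positivity) (by linarith) (by
      simp only [Fintype.card_fin, Fintype.card_prod]
      push_cast
      rw [← mul_div_assoc, div_le_iff₀ (by positivity)]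
      nlinarith)
    simp only [Fintype.card_fin] at this
    exact this.trans_eq (by congr 2; ring)
  have hneg : ∀ κ : Fin (n ^ 2) → Fin (n ^ 2) → ℝ, (∀ v y, |κ v y| ≤ 1) → (∀ v, κ v v = 0) →
      Pr (fun x => sav κ U x < n * (mean κ - ε / 2)) ≤ exp (-(n * k * ε ^ 2 / 64)) := by
    intro κ h1 h2
    refine le_trans (Pr_mono fun x hx => ?_) (ht (fun v y => -κ v y) (by simpa using h1)
      (by simpa using h2))
    have e1 : mean (fun v y => -κ v y) = -mean κ := by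
      simp only [mean, Ex, sum_neg_distrib, neg_div]
    have e2 : sav (fun v y => -κ v y) U x = -sav κ U x := by
      simp only [sav, av_neg, sum_neg_distrib]
    rw [e1, e2]
    linarith
  have h1 : Pr (fun x => ¬ Gs (n / 4) U x) ≤ (n ^ 3 + 1) * exp (-(n * k * ε ^ 2 / 64)) := by
    calc _ ≤ Pr (fun x => ∃ r ∈ Icc n (n ^ 3), sav (ks n r) U x < n * (mean (ks n r) - ε / 2)) := by
          refine Pr_mono fun x hx => ?_
          simp only [Gs, not_forall, not_le] at hx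
          obtain ⟨r, h1, h2, h3⟩ := hx
          refine ⟨r, mem_Icc.2 ⟨h1, h2⟩, h3.trans_le ?_⟩
          nlinarith only [mean_ks hn h1 h2, hε1, hn']
      _ ≤ ∑ _r ∈ Icc n (n ^ 3), exp (-(n * k * ε ^ 2 / 64)) :=
          (Pr_exists_le _ _).trans (sum_le_sum fun r _ => hneg _ (fun v y => by
            rw [abs_of_nonneg (ks_nonneg _ _ _ _)]; exact ks_le_one _ _ _ _) (ks_self n r))
      _ ≤ _ := by
          rw [sum_const, Nat.card_Icc, nsmul_eq_mul]
          gcongr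
          exact_mod_cast Nat.sub_le _ _
  exact h1.trans (by gcongr; norm_num)

/-- The cells from which the entry at `(a, p a)` is drawn. -/
def V (U : Fin n → Finset (Fin n)) (p : Fin n → Fin n) (a : Fin n) : Finset (Fin n) :=
  if p a ∈ U a then U a else {p a}

variable {U : Fin n → Finset (Fin n)} {p : Fin n → Fin n}

theorem mem_V (a : Fin n) : p a ∈ V U p a := by
  unfold V; split_ifs with h <;> simp [h]

instance (a : Fin n) : Nonempty (V U p a) := ⟨⟨p a, mem_V a⟩⟩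

/-- Exchange the cells of the line with the drawn cells. -/
def sw (ρ : ∀ a, V U p a) : Om n ≃ Om n :=
  act (Equiv.prodCongrRight fun a => Equiv.swap (p a) (ρ a))

theorem sw_apply (ρ : ∀ a, V U p a) (x : Om n) (a b : Fin n) :
    sw ρ x (a, b) = x (a, Equiv.swap (p a) (ρ a) b) := rfl

theorem eq_of_inactive {a : Fin n} (h : p a ∉ U a) (c : V U p a) : (c : Fin n) = p a := by
  have := c.2
  simpa [V, h] using this

theorem mem_of_active {a : Fin n} (h : p a ∈ U a) (c : V U p a) : (c : Fin n) ∈ U a := by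
  have := c.2
  simpa [V, h] using this

theorem Inv.sw {E : Om n → Prop} (hE : Inv U E) (ρ : ∀ a, V U p a) (x : Om n) :
    E (sw ρ x) ↔ E x := by
  refine hE _ (fun a b hb => ?_) x
  by_cases h : p a ∈ U a
  · exact Equiv.swap_apply_of_ne_of_ne (fun e => hb (e ▸ h))
      fun e => hb (e ▸ mem_of_active h (ρ a))
  · rw [eq_of_inactive h]; simp

/-- The line through the cells `(a, p a)` has sum `t`. -/
def Line (p : Fin n → Fin n) (t : ℤ) (x : Om n) : Prop := ∑ a, val x a (p a) = t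

theorem line_sw (t : ℤ) (ρ : ∀ a, V U p a) (x : Om n) :
    Line p t (sw ρ x) ↔ ∑ a, val x a (ρ a) = t := by
  simp [Line, val, sw_apply]

/-- The mean of the resampled line is close to `t`. -/
def Cent (U : Fin n → Finset (Fin n)) (p : Fin n → Fin n) (t : ℤ) (x : Om n) : Prop :=
  |∑ a, Ex (fun b : V U p a => (val x a b : ℝ)) - t| ≤ 6 * n ^ 2

theorem cent_of {t : ℤ} {x : Om n} {m : ℕ} (hm : 0 < m) {W : Fin n → Finset (Fin n)}
    (hW : ∀ a, (W a).card = m) (hUW : ∀ a, U a ⊆ W a)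
    (hs : ∑ a, ∑ b ∈ W a, val x a b = m * t) (hc : ∑ a, ((m : ℝ) - (U a).card) ≤ 2 * m)
    (hi : ∑ a, ind (p a ∉ U a) ≤ 2) : Cent U p t x := by
  have hm' : (0 : ℝ) < m := by exact_mod_cast hm
  have hv : ∀ a b, (0 : ℝ) ≤ val x a b ∧ (val x a b : ℝ) ≤ n ^ 2 := fun a b => by
    exact_mod_cast val_bd x a b
  have h1 : (t : ℝ) = ∑ a, (∑ b ∈ W a, (val x a b : ℝ)) / m := by
    rw [← sum_div, eq_div_iff hm'.ne', mul_comm]
    exact_mod_cast hs.symm
  have h2 : ∀ a, |Ex (fun b : V U p a => (val x a b : ℝ)) - (∑ b ∈ W a, (val x a b : ℝ)) / m| ≤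
      2 * n ^ 2 / m * (m - (U a).card) + n ^ 2 * ind (p a ∉ U a) := by
    intro a
    have hle : ((U a).card : ℝ) ≤ m := by exact_mod_cast hW a ▸ card_le_card (hUW a)
    by_cases h : p a ∈ U a
    · rw [Ex_subtype (V U p a) fun b => (val x a b : ℝ), ind_neg (not_not.2 h)]
      have := avg_sub (hUW a) ⟨_, h⟩ (y := fun b => (val x a b : ℝ)) (M := n ^ 2) fun b => by
        rw [abs_of_nonneg (hv a b).1]; exact (hv a b).2
      rw [hW a] at this
      simp only [V, h, if_true]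
      refine this.trans (le_of_eq (by ring))
    · rw [ind_pos h]
      have e1 : 0 ≤ Ex (fun b : V U p a => (val x a b : ℝ)) := Ex_nonneg fun b => (hv a b).1
      have e2 : Ex (fun b : V U p a => (val x a b : ℝ)) ≤ n ^ 2 := Ex_le_const fun b => (hv a b).2
      have e3 : 0 ≤ (∑ b ∈ W a, (val x a b : ℝ)) / m :=
        div_nonneg (sum_nonneg fun b _ => (hv a b).1) hm'.le
      have e4 : (∑ b ∈ W a, (val x a b : ℝ)) / m ≤ n ^ 2 := by
        rw [div_le_iff₀ hm']
        refine (sum_le_sum fun b _ => (hv a b).2).trans ?_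
        simp [hW a, mul_comm]
      have e5 : 0 ≤ 2 * (n : ℝ) ^ 2 / m * (m - (U a).card) := by
        have := sub_nonneg.2 hle
        positivity
      rw [abs_le]
      constructor <;> linarith
  rw [Cent, h1, ← sum_sub_distrib]
  refine (abs_sum_le_sum_abs _ _).trans ((sum_le_sum fun a _ => h2 a).trans ?_)
  rw [sum_add_distrib, ← mul_sum, ← mul_sum]
  calc _ ≤ 2 * (n : ℝ) ^ 2 / m * (2 * m) + n ^ 2 * 2 := by gcongr
    _ = _ := by field_simp; ring

theorem av_V_le {φ : Fin n → Fin n → ℝ} (h : ∀ a b, 0 ≤ φ a b) (a : Fin n) :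
    av φ (V U p a) ≤ av φ (U a) := by
  unfold V
  split_ifs
  · exact le_rfl
  · simpa [av] using av_nonneg (U := U a) h

theorem av_V_ge {φ : Fin n → Fin n → ℝ} (h1 : ∀ a b, φ a b ≤ 1) (h0 : ∀ a, φ a a = 0)
    (a : Fin n) : av φ (U a) - ind (p a ∉ U a) ≤ av φ (V U p a) := by
  unfold V
  split_ifs with h
  · rw [ind_neg (not_not.2 h), sub_zero]
  · rw [ind_pos h]
    have := av_le_one (U := U a) h1 h0
    simp only [av, card_singleton, Nat.cast_one, sub_self, mul_zero, div_zero] at this ⊢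
    linarith

theorem aper_of {x : Om n} (hn : 80 ≤ n) (hG : Gs (n / 8) U x)
    (hi : ∑ a, ind (p a ∉ U a) ≤ 2) : Aper n fun a (b : V U p a) => val x a b := by
  intro r h1 h2
  have h3 := hG r h1 h2
  have hn' : (80 : ℝ) ≤ n := by exact_mod_cast hn
  have h4 : ∀ a, (av (fun b b' => ks n r (x (a, b)) (x (a, b'))) (U a) - ind (p a ∉ U a)) / 2 ≤
      full (π * r / (n ^ 3 : ℕ)) fun b : V U p a => (val x a b : ℝ) := by
    intro a
    set φ := fun b b' => ks n r (x (a, b)) (x (a, b'))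
    have e := Ex_pair (φ := φ) (U := V U p a) ⟨_, mem_V a⟩ fun b => ks_self _ _ _
    change full (π * r / (n ^ 3 : ℕ)) (fun b : V U p a => ((x (a, b) : ℕ) : ℝ)) = _ at e
    simp only [val, Int.cast_natCast]
    rw [e]
    have h5 := av_V_ge (U := U) (p := p) (φ := φ) (fun _ _ => ks_le_one _ _ _ _)
      (fun _ => ks_self _ _ _) a
    have h6 : 0 ≤ av φ (V U p a) := av_nonneg fun _ _ => ks_nonneg _ _ _ _
    by_cases hc : (V U p a).card = 1
    · have : av φ (V U p a) = 0 := by simp [av, hc]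
      rw [this] at h5 ⊢
      linarith
    · have hc' : (2 : ℝ) ≤ (V U p a).card := by
        have := card_pos.2 ⟨_, mem_V (U := U) (p := p) a⟩
        exact_mod_cast (by omega : 2 ≤ (V U p a).card)
      have : 1 / ((V U p a).card : ℝ) ≤ 1 / 2 := by gcongr
      nlinarith
  have h5 := sum_le_sum fun a (_ : a ∈ univ) => h4 a
  rw [← sum_div, sum_sub_distrib] at h5
  unfold sav at h3
  linarith

theorem vr_V (x : Om n) (a : Fin n) : vr (fun b : V U p a => (val x a b : ℝ)) =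
    (n : ℝ) ^ 4 / 2 * (av (fun b b' => kq n (x (a, b)) (x (a, b'))) (V U p a) *
      (1 - 1 / (V U p a).card)) := by
  have hn : (0 : ℝ) < n := by exact_mod_cast a.pos
  rw [← Ex_pair ⟨_, mem_V a⟩ fun b => kq_self _ _]
  have := vr_eq fun b : V U p a => (val x a b : ℝ)
  simp only [kq, div_eq_mul_inv, Ex_mul']
  simp only [val, Int.cast_natCast] at this ⊢
  rw [this]
  field_simp

theorem var_bounds {x : Om n} {ε : ℝ} {k : ℕ} (hG : |sav (kq n) U x - n / 6| ≤ ε * n)
    (hi : ∑ a, ind (p a ∉ U a) ≤ 2) (hU : ∀ a, 2 * k ≤ (U a).card) (hk : 1 ≤ ε * k)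
    (hn : 4 ≤ ε * n) (hε : ε ≤ 1 / 18) :
    (1 / 12 - ε) * n ^ 5 ≤ ∑ a, vr (fun b : V U p a => (val x a b : ℝ)) ∧
      ∑ a, vr (fun b : V U p a => (val x a b : ℝ)) ≤ (1 / 12 + ε) * n ^ 5 := by
  have hε0 : 0 < ε := by
    by_contra h
    nlinarith [Nat.cast_nonneg (α := ℝ) k]
  have hk0 : (0 : ℝ) < k := by
    by_contra h
    nlinarith
  have hn0 : (0 : ℝ) < n := by
    by_contra h
    nlinarith
  simp only [vr_V, ← mul_sum]
  rw [abs_le, sav] at hG
  set φ := fun a b b' => kq n (x (a, b)) (x (a, b'))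
  have h0 : ∀ a, 0 ≤ av (φ a) (V U p a) := fun a => av_nonneg fun _ _ => kq_nonneg _ _ _
  constructor
  · have h1 : ∀ a, (av (φ a) (U a) - ind (p a ∉ U a)) * (1 - ε / 2) ≤
        av (φ a) (V U p a) * (1 - 1 / (V U p a).card) := by
      intro a
      have h2 := av_V_ge (U := U) (p := p) (φ := φ a) (fun _ _ => kq_le_one _ _ _)
        (fun _ => kq_self _ _) a
      by_cases h : p a ∈ U a
      · have hc : (2 * k : ℝ) ≤ (V U p a).card := by
          simp only [V, h, if_true]; exact_mod_cast hU a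
        have : 1 / ((V U p a).card : ℝ) ≤ ε / 2 := by
          rw [div_le_iff₀ (by linarith)]; nlinarith
        nlinarith [h0 a]
      · have : av (φ a) (V U p a) = 0 := by simp [av, V, h]
        rw [this] at h2 ⊢
        nlinarith
    have h2 := sum_le_sum fun a (_ : a ∈ univ) => h1 a
    rw [← sum_mul, sum_sub_distrib] at h2
    have h3 : (n : ℝ) * (1 / 6 - 2 * ε) ≤
        (∑ a, av (φ a) (U a) - ∑ a, ind (p a ∉ U a)) * (1 - ε / 2) := by
      calc _ ≤ (n / 6 - ε * n - 2) * (1 - ε / 2) := by nlinarith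
        _ ≤ _ := by gcongr <;> linarith [hG.1]
    calc _ = (n : ℝ) ^ 4 / 2 * (n * (1 / 6 - 2 * ε)) := by ring
      _ ≤ _ := by gcongr; exact h3.trans h2
  · have h1 : ∀ a, av (φ a) (V U p a) * (1 - 1 / (V U p a).card) ≤ av (φ a) (U a) := by
      intro a
      have h2 := av_V_le (U := U) (p := p) (φ := φ a) (fun _ _ => kq_nonneg _ _ _) a
      have : 0 ≤ 1 / ((V U p a).card : ℝ) := by positivity
      nlinarith [h0 a]
    have h2 := sum_le_sum fun a (_ : a ∈ univ) => h1 a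
    calc _ ≤ (n : ℝ) ^ 4 / 2 * (n * (1 / 6 + 2 * ε)) := by
          gcongr
          nlinarith [hG.2]
      _ = _ := by ring

end

section

open Finset Real

variable {n : ℕ} {t : ℤ}

/-- The first `j` columns have sum `t`. -/
def Cols (t : ℤ) (j : ℕ) (x : Om n) : Prop := ∀ b : Fin n, b.val < j → ∑ a, val x a b = t

theorem val_act (g : Fin n → Equiv.Perm (Fin n)) (x : Om n) (a b : Fin n) :
    val (act (Equiv.prodCongrRight g) x) a b = val x a (g a b) := rfl

theorem total (ht : 2 * t = n * (n ^ 2 - 1)) (x : Om n) : ∑ a, ∑ b, val x a b = n * t := by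
  have h1 : ∑ a, ∑ b, val x a b = ∑ v : Fin (n ^ 2), ((v : ℕ) : ℤ) := by
    rw [← Fintype.sum_prod_type', ← Equiv.sum_comp x]
    rfl
  have h2 : ∀ N : ℕ, 2 * ∑ v ∈ range N, (v : ℤ) = N * (N - 1) := fun N => by
    induction N with
    | zero => simp
    | succ N ih => rw [sum_range_succ, mul_add, ih]; push_cast; ring
  have h3 := h2 (n ^ 2)
  rw [h1, Fin.sum_univ_eq_sum_range fun v => (v : ℤ)]
  push_cast at h3
  nlinarith

/-- Both diagonals have sum `t`. -/
def Dg (t : ℤ) (x : Om n) : Prop := Line id t x ∧ Line Fin.rev t x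

/-- All rows have sum `t`. -/
def Rows (t : ℤ) (x : Om n) : Prop := ∀ a, ∑ b, val x a b = t

/-- The arrangement is magic with sum `t`. -/
def Mag (t : ℤ) (x : Om n) : Prop := (Dg t x ∧ Rows t x) ∧ Cols t n x

theorem inv_dg : Inv (fun a => univ \ {a, a.rev}) (Dg (n := n) t) := by
  intro g hg x
  have h1 : ∀ a, g a a = a := fun a => hg a a (by simp)
  have h2 : ∀ a, g a a.rev = a.rev := fun a => hg a a.rev (by simp)
  simp only [Dg, Line, val_act, id, h1, h2]

theorem inv_rows {U : Fin n → Finset (Fin n)} : Inv U (Rows (n := n) t) := by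
  intro g _ x
  refine forall_congr' fun a => ?_
  simp only [val_act]
  rw [Equiv.sum_comp (g a) (val x a)]

theorem Pr_tr (F G : Om n → Prop) (h : ∀ x, F (act (Equiv.prodComm _ _) x) ↔ G x) :
    Pr F = Pr G := by
  rw [Pr, ← Ex_equiv (act (Equiv.prodComm _ _))]
  simp only [h, Pr]

theorem rows_tr (x : Om n) : Rows t (act (Equiv.prodComm _ _) x) ↔ Cols t n x :=
  ⟨fun h b _ => h b, fun h b => h b b.2⟩

end

section

open Finset Real

variable {n : ℕ}

/-- The centred and normalised value. -/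
noncomputable def yv (v : Fin (n ^ 2)) : ℝ := ((v : ℕ) - ((n : ℝ) ^ 2 - 1) / 2) / n ^ 2

theorem sq_pos_of (v : Fin (n ^ 2)) : (0 : ℝ) < (n : ℝ) ^ 2 := by exact_mod_cast v.pos

theorem abs_yv_le (v : Fin (n ^ 2)) : |yv v| ≤ 1 / 2 := by
  have h0 := sq_pos_of v
  have h1 : ((v : ℕ) : ℝ) + 1 ≤ n ^ 2 := by exact_mod_cast v.2
  have h2 : (0 : ℝ) ≤ (v : ℕ) := by positivity
  rw [yv, abs_div, abs_of_pos h0, div_le_iff₀ h0, abs_le]
  constructor <;> linarith

theorem val_eq (x : Om n) (a b : Fin n) :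
    (val x a b : ℝ) = n ^ 2 * yv (x (a, b)) + (n ^ 2 - 1) / 2 := by
  have h0 : (0 : ℝ) < n := by exact_mod_cast a.pos
  simp only [val, yv, Int.cast_natCast]
  field_simp
  ring

theorem kq_eq (v y : Fin (n ^ 2)) : kq n v y = (yv v - yv y) ^ 2 := by
  have h0 := sq_pos_of v
  simp only [kq, yv]
  field_simp
  ring

theorem yv_rev (v : Fin (n ^ 2)) : yv v.rev = -yv v := by
  simp only [yv, Fin.val_rev]
  rw [Nat.cast_sub v.2]
  push_cast
  ring

/-- The kernels of the power means. -/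
noncomputable def k1 (j : ℕ) (v y : Fin (n ^ 2)) : ℝ :=
  if v = y then 0 else (yv v ^ j + yv y ^ j) / 2

/-- The power means of a part of a row. -/
noncomputable def mom (j : ℕ) (x : Om n) (a : Fin n) (U : Finset (Fin n)) : ℝ :=
  (∑ b ∈ U, yv (x (a, b)) ^ j) / U.card

/-- Twice the normalised sample variance of a part of a row. -/
noncomputable def avq (x : Om n) (a : Fin n) (U : Finset (Fin n)) : ℝ :=
  av (fun b b' => kq n (x (a, b)) (x (a, b'))) U

theorem avq_nonneg (x : Om n) (a : Fin n) (U : Finset (Fin n)) : 0 ≤ avq x a U :=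
  av_nonneg fun _ _ => kq_nonneg _ _ _

theorem avq_le_one (x : Om n) (a : Fin n) (U : Finset (Fin n)) : avq x a U ≤ 1 :=
  av_le_one (fun _ _ => kq_le_one _ _ _) fun _ => kq_self _ _

theorem abs_yv_pow (v : Fin (n ^ 2)) (j : ℕ) : |yv v ^ j| ≤ (1 / 2) ^ j := by
  rw [abs_pow]; gcongr; exact abs_yv_le v

theorem abs_mom_le (j : ℕ) (x : Om n) (a : Fin n) (U : Finset (Fin n)) :
    |mom j x a U| ≤ (1 / 2) ^ j := by
  rcases U.eq_empty_or_nonempty with rfl | ⟨b, hb⟩
  · simp [mom]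
  · have : Nonempty U := ⟨⟨b, hb⟩⟩
    rw [mom, ← Ex_subtype U fun b => yv (x (a, b)) ^ j]
    exact abs_Ex_le fun c => abs_yv_pow _ j

theorem abs_k1_le (j : ℕ) (v y : Fin (n ^ 2)) : |k1 j v y| ≤ 1 := by
  unfold k1
  split_ifs
  · simp
  · have h : (1 / 2 : ℝ) ^ j ≤ 1 := pow_le_one₀ (by norm_num) (by norm_num)
    have h1 := abs_le.1 (abs_yv_pow v j)
    have h2 := abs_le.1 (abs_yv_pow y j)
    rw [abs_le]
    constructor <;> linarith [h1.1, h1.2, h2.1, h2.2]

theorem av_k1 (j : ℕ) (x : Om n) (a : Fin n) {U : Finset (Fin n)} (hU : 2 ≤ U.card) :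
    av (fun b b' => k1 j (x (a, b)) (x (a, b'))) U = mom j x a U := by
  have h1 : ∀ b b', k1 j (x (a, b)) (x (a, b')) = (yv (x (a, b)) ^ j + yv (x (a, b')) ^ j) / 2 -
      if b = b' then yv (x (a, b)) ^ j else 0 := by
    intro b b'
    by_cases h : b = b'
    · simp [k1, h]
    · simp [k1, h]
  have h2 : (2 : ℝ) ≤ U.card := by exact_mod_cast hU
  have h3 : (U.card : ℝ) - 1 ≠ 0 := by linarith
  simp only [av, mom, h1, sum_sub_distrib, ← sum_div, sum_add_distrib, sum_const, nsmul_eq_mul,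
    ← mul_sum]
  rw [sum_congr rfl fun b hb => sum_ite_eq_of_mem U b _ hb]
  field_simp
  ring

theorem mean_k1 {j : ℕ} (hj : Odd j) : mean (k1 (n := n) j) = 0 := by
  have h : mean (k1 (n := n) j) = -mean (k1 (n := n) j) := by
    conv_lhs => rw [mean, ← Ex_equiv Fin.revPerm]
    rw [mean, neg_eq_neg_one_mul, ← Ex_mul]
    refine Ex_congr fun v => ?_
    rw [← Ex_equiv Fin.revPerm, ← Ex_mul]
    refine Ex_congr fun y => ?_
    simp only [k1, Fin.revPerm_apply, Fin.rev_inj, yv_rev, hj.neg_pow]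
    split_ifs <;> ring
  linarith

theorem abs_tail {U : Fin n → Finset (Fin n)} {k : ℕ} (hk : 0 < k)
    (hU : ∀ a, 2 * k ≤ (U a).card) {ε : ℝ} (hε : 0 < ε) (hε1 : ε ≤ 1 / 18) (hn : 2 ≤ n)
    (hkn : 48 * k ≤ ε * n) (κ : Fin (n ^ 2) → Fin (n ^ 2) → ℝ) (h1 : ∀ v y, |κ v y| ≤ 1)
    (h2 : ∀ v, κ v v = 0) :
    Pr (fun x : Om n => n * (ε / 2) <
      ∑ a, |av (fun b b' => κ (x (a, b)) (x (a, b'))) (U a) - mean κ|) ≤
      2 ^ n * exp (-(n * k * ε ^ 2 / 64)) := by
  have hn' : (2 : ℝ) ≤ n := by exact_mod_cast hn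
  have hk' : (1 : ℝ) ≤ k := by exact_mod_cast hk
  set K : (Fin n → Bool) → Fin n → Fin (n ^ 2) → Fin (n ^ 2) → ℝ := fun s a v y =>
    (if s a then 1 else -1) * κ v y with hK
  calc _ ≤ Pr (fun x : Om n => ∃ s ∈ (univ : Finset (Fin n → Bool)),
        ∑ a, mean (K s a) + Fintype.card (Fin n) * (ε / 2) <
          ∑ a, av (fun b b' => K s a (x (a, b)) (x (a, b'))) (U a)) := by
        refine Pr_mono fun x hx => ⟨fun a => decide
          (mean κ ≤ av (fun b b' => κ (x (a, b)) (x (a, b'))) (U a)), mem_univ _, ?_⟩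
        rw [Fintype.card_fin, ← lt_sub_iff_add_lt', ← sum_sub_distrib]
        refine hx.trans_eq (sum_congr rfl fun a _ => ?_)
        simp only [hK, mean, Ex_mul, av, ← mul_sum, mul_div_assoc, decide_eq_true_eq]
        split_ifs with h
        · rw [abs_of_nonneg (sub_nonneg.2 h)]; ring
        · rw [abs_of_neg (sub_neg.2 (not_le.1 h))]; ring
    _ ≤ ∑ _s : Fin n → Bool, exp (-(n * k * ε ^ 2 / 64)) := by
        refine (Pr_exists_le _ _).trans (sum_le_sum fun s _ => ?_)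
        have := tail_fam U hk hU (K s) (fun a v y => by
          simp only [hK]; split_ifs <;> simpa using h1 v y) (fun a v => by simp [hK, h2])
          (ε := ε / 2) (by positivity) (by linarith) (by
            simp only [Fintype.card_fin, Fintype.card_prod]
            push_cast
            rw [← mul_div_assoc, div_le_iff₀ (by positivity)]
            nlinarith)
        exact this.trans_eq (by rw [Fintype.card_fin]; congr 2; ring)
    _ = _ := by simp

/-- The free parts of the rows are typical. -/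
def Good2 (ε : ℝ) (U : Fin n → Finset (Fin n)) (x : Om n) : Prop :=
  Gs (n / 4) U x ∧ ∑ a, |avq x a (U a) - 1 / 6| ≤ ε * n ∧ ∑ a, |mom 1 x a (U a)| ≤ ε * n ∧
    ∑ a, |mom 3 x a (U a)| ≤ ε * n

/-- The bound for the probability of an atypical state. -/
noncomputable def beta2 (n k : ℕ) (ε : ℝ) : ℝ :=
  (n ^ 3 + 3 + 3 * 2 ^ n) * exp (-(n * k * ε ^ 2 / 64))

theorem bad2_le {U : Fin n → Finset (Fin n)} {k : ℕ} (hk : 0 < k) (hU : ∀ a, 2 * k ≤ (U a).card)
    {ε : ℝ} (hε : 0 < ε) (hε1 : ε ≤ 1 / 18) (hn : 2 ≤ n) (hkn : 48 * k ≤ ε * n) :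
    Pr (fun x => ¬ Good2 ε U x) ≤ beta2 n k ε := by
  have hn' : (2 : ℝ) ≤ n := by exact_mod_cast hn
  have hk' : (1 : ℝ) ≤ k := by exact_mod_cast hk
  have h0 := bad_le hk hU hε hε1 hn hkn
  have ht := abs_tail hk hU hε hε1 hn hkn
  have h1 : Pr (fun x => ¬ ∑ a, |avq x a (U a) - 1 / 6| ≤ ε * n) ≤
      2 ^ n * exp (-(n * k * ε ^ 2 / 64)) := by
    refine le_trans (Pr_mono fun x hx => ?_) (ht (kq n) (fun v y => by
      rw [abs_of_nonneg (kq_nonneg _ _ _)]; exact kq_le_one _ _ _) (kq_self n))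
    by_contra h
    refine hx ?_
    have hm : |mean (kq n) - 1 / 6| ≤ ε / 2 := by
      rw [mean_kq (by omega), sub_sub_cancel_left, abs_neg, abs_of_nonneg (by positivity),
        div_le_iff₀ (by positivity)]
      have : (n : ℝ) ≤ ((n : ℝ) ^ 2) ^ 2 := by
        rw [← pow_mul]; exact le_self_pow₀ (by linarith) (by norm_num)
      nlinarith
    have := sum_le_sum fun a (_ : a ∈ univ) => (abs_sub_le (avq x a (U a)) (mean (kq n))
      (1 / 6)).trans (add_le_add_right hm _)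
    rw [sum_add_distrib, sum_const, card_univ, Fintype.card_fin, nsmul_eq_mul] at this
    unfold avq at this ⊢
    linarith [not_lt.1 h]
  have h2 : ∀ j, Odd j → Pr (fun x => ¬ ∑ a, |mom j x a (U a)| ≤ ε * n) ≤
      2 ^ n * exp (-(n * k * ε ^ 2 / 64)) := fun j hj => by
    refine le_trans (Pr_mono fun x hx => ?_) (ht (k1 j) (abs_k1_le j) fun v => by simp [k1])
    simp only [mean_k1 hj, sub_zero, av_k1 j x _ (le_trans (by omega) (hU _))]
    nlinarith [not_le.1 hx]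
  have a1 := Pr_not_and (Gs (n / 4) U) fun x => ∑ a, |avq x a (U a) - 1 / 6| ≤ ε * n ∧
    ∑ a, |mom 1 x a (U a)| ≤ ε * n ∧ ∑ a, |mom 3 x a (U a)| ≤ ε * n
  have a2 := Pr_not_and (fun x => ∑ a, |avq x a (U a) - 1 / 6| ≤ ε * n) fun x =>
    ∑ a, |mom 1 x a (U a)| ≤ ε * n ∧ ∑ a, |mom 3 x a (U a)| ≤ ε * n
  have a3 := Pr_not_and (fun x => ∑ a, |mom 1 x a (U a)| ≤ ε * n) fun x =>
    ∑ a, |mom 3 x a (U a)| ≤ ε * n
  have := h2 1 odd_one
  have := h2 3 (by decide)
  refine a1.trans ?_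
  unfold beta2
  linarith

theorem sum_perm {γ M : Type*} [AddCommMonoid M] {U : Finset γ} {g : Equiv.Perm γ}
    (hg : ∀ b, b ∉ U → g b = b) (f : γ → M) : ∑ b ∈ U, f (g b) = ∑ b ∈ U, f b := by
  refine sum_equiv g (fun b => ⟨fun hb => ?_, fun hb => ?_⟩) fun _ _ => rfl
  · by_contra h
    exact h (by rwa [g.injective (hg _ h)])
  · by_contra h
    exact h (by rwa [hg b h] at hb)

theorem av_perm {γ : Type*} {U : Finset γ} {g : Equiv.Perm γ} (hg : ∀ b, b ∉ U → g b = b)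
    (φ : γ → γ → ℝ) : av (fun b b' => φ (g b) (g b')) U = av φ U := by
  simp only [av, sum_perm hg, sum_perm hg fun b => ∑ b' ∈ U, φ b b']

theorem act_row (g : Fin n → Equiv.Perm (Fin n)) (x : Om n) (a b : Fin n) :
    act (Equiv.prodCongrRight g) x (a, b) = x (a, g a b) := rfl

theorem sav_act {U : Fin n → Finset (Fin n)} {g : Fin n → Equiv.Perm (Fin n)}
    (hg : ∀ a b, b ∉ U a → g a b = b) (κ : Fin (n ^ 2) → Fin (n ^ 2) → ℝ) (x : Om n) :
    sav κ U (act (Equiv.prodCongrRight g) x) = sav κ U x :=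
  sum_congr rfl fun a _ => av_perm (hg a) fun b b' => κ (x (a, b)) (x (a, b'))

theorem inv_gs {U : Fin n → Finset (Fin n)} {γ : ℝ} : Inv U (Gs γ U) := fun g hg x => by
  simp only [Gs, sav_act hg]

theorem Inv.and {U : Fin n → Finset (Fin n)} {E F : Om n → Prop} (hE : Inv U E) (hF : Inv U F) :
    Inv U fun x => E x ∧ F x := fun g hg x => and_congr (hE g hg x) (hF g hg x)

theorem Inv.mono {U U' : Fin n → Finset (Fin n)} {E : Om n → Prop} (hE : Inv U E)
    (h : ∀ a, U' a ⊆ U a) : Inv U' E := fun g hg x =>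
  hE g (fun a b hb => hg a b fun h' => hb (h a h')) x

section V

variable {U : Fin n → Finset (Fin n)} {p : Fin n → Fin n}

theorem Ex_V_active {a : Fin n} (h : p a ∈ U a) (f : Fin n → ℝ) :
    Ex (fun b : V U p a => f b) = (∑ b ∈ U a, f b) / (U a).card := by
  rw [Ex_subtype]; simp [V, h]

theorem Ex_V_inactive {a : Fin n} (h : p a ∉ U a) (f : Fin n → ℝ) :
    Ex (fun b : V U p a => f b) = f (p a) := by
  rw [Ex_subtype]; simp [V, h]

theorem zc_val (x : Om n) (a : Fin n) (c : V U p a) :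
    zc (fun b : V U p a => (val x a b : ℝ)) c =
      n ^ 2 * (yv (x (a, c)) - Ex fun b : V U p a => yv (x (a, b))) := by
  simp only [zc, val_eq, Ex_add, Ex_mul, Ex_const]
  ring

theorem m3_V (x : Om n) (a : Fin n) : |m3 fun b : V U p a => (val x a b : ℝ)| ≤
    (n ^ 2) ^ 3 * (|mom 3 x a (U a)| + 2 * |mom 1 x a (U a)|) := by
  simp only [m3, zc_val, mul_pow, Ex_mul]
  rw [abs_mul, abs_of_nonneg (by positivity)]
  gcongr
  by_cases h : p a ∈ U a
  · have e : ∀ y M : ℝ, (y - M) ^ 3 = y ^ 3 - 3 * M * y ^ 2 + 3 * M ^ 2 * y ^ 1 - M ^ 3 :=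
      fun y M => by ring
    have e1 : (Ex fun b : V U p a => yv (x (a, b))) = mom 1 x a (U a) := by
      rw [Ex_V_active h fun b => yv (x (a, b))]; simp [mom]
    have e2 : ∀ j, (Ex fun b : V U p a => yv (x (a, b)) ^ j) = mom j x a (U a) := fun j =>
      Ex_V_active h fun b => yv (x (a, b)) ^ j
    simp only [e1, e, Ex_add, Ex_sub, Ex_mul, Ex_const, e2]
    have b1 := abs_mom_le 1 x a (U a)
    have b2 := abs_mom_le 2 x a (U a)
    generalize mom 1 x a (U a) = M at *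
    generalize mom 2 x a (U a) = M2 at *
    have b3 : |M * (2 * M ^ 2 - 3 * M2)| ≤ |M| * 2 := by
      rw [abs_mul]
      gcongr
      have : M ^ 2 ≤ ((1 / 2) ^ 1) ^ 2 := by rw [← sq_abs]; gcongr
      rw [abs_le] at b2 ⊢
      constructor <;> nlinarith [b2.1, b2.2, sq_nonneg M]
    calc _ = |mom 3 x a (U a) + M * (2 * M ^ 2 - 3 * M2)| := by congr 1; ring
      _ ≤ _ := by linarith [abs_add_le (mom 3 x a (U a)) (M * (2 * M ^ 2 - 3 * M2))]
  · simp only [eq_of_inactive h, Ex_const, sub_self]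
    simp
    positivity

theorem av_erase {γ : Type*} [DecidableEq γ] {U : Finset γ} (h3 : 3 ≤ U.card) (y : γ → ℝ)
    (ρ : U) : av (fun b b' => (y b - y b') ^ 2) (U.erase ρ) =
      av (fun b b' => (y b - y b') ^ 2) U + 2 * U.card / ((U.card - 1) * (U.card - 2)) *
        (vr (fun b : U => y b) - zc (fun b : U => y b) ρ ^ 2) := by
  have : Nonempty U := ⟨ρ⟩
  have hc : (3 : ℝ) ≤ U.card := by exact_mod_cast h3
  have h1 : ∀ c, ∑ b ∈ U, (y c - y b) ^ 2 =
      U.card * ((y c - Ex fun b : U => y b) ^ 2 + vr fun b : U => y b) := by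
    intro c
    have e : ∀ b : U, (y c - y b) ^ 2 = (y c - Ex fun b : U => y b) ^ 2 -
        2 * (y c - Ex fun b : U => y b) * zc (fun b : U => y b) b +
          zc (fun b : U => y b) b ^ 2 := fun b => by unfold zc; ring
    have := Ex_subtype U fun b => (y c - y b) ^ 2
    simp only [e, Ex_add, Ex_sub, Ex_mul, Ex_const, Ex_zc, Ex_zc_sq] at this
    rw [eq_div_iff (by linarith)] at this
    linarith
  have h2 : ∑ c ∈ U, (y c - Ex fun b : U => y b) ^ 2 = U.card * vr fun b : U => y b := by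
    rw [vr, Ex_subtype U fun c => (y c - Ex fun b : U => y b) ^ 2]
    field_simp
  have h4 : ∀ b, (y b - y ρ) ^ 2 = (y ρ - y b) ^ 2 := fun b => by ring
  rw [av, av, card_erase_of_mem ρ.2, Nat.cast_sub (by omega), sum_erase_eq_sub ρ.2]
  simp only [sum_erase_eq_sub ρ.2, sum_sub_distrib, h4, sub_self]
  simp only [h1, ← mul_sum, sum_add_distrib, h2, sum_const, nsmul_eq_mul, zc]
  have : (U.card : ℝ) - 1 ≠ 0 := by linarith
  have : (U.card : ℝ) - 2 ≠ 0 := by linarith
  have : (U.card : ℝ) - 1 - 1 ≠ 0 := by linarith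
  push_cast
  field_simp
  ring

theorem sav_sw (κ : Fin (n ^ 2) → Fin (n ^ 2) → ℝ) (x : Om n) (ρ : ∀ a, V U p a) :
    sav κ (fun a => (U a).erase (p a)) (sw ρ x) =
      ∑ a, av (fun b b' => κ (x (a, b)) (x (a, b'))) ((U a).erase (ρ a)) := by
  refine sum_congr rfl fun a _ => ?_
  simp only [sw_apply]
  by_cases hp : p a ∈ U a
  · exact av_swap (φ := fun b b' => κ (x (a, b)) (x (a, b'))) hp (mem_of_active hp _)
  · rw [eq_of_inactive hp]; simp

theorem avq_erase (x : Om n) (a : Fin n) (h3 : 3 ≤ (U a).card) (ρ : V U p a) :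
    avq x a ((U a).erase ρ) = avq x a (U a) -
      2 * (U a).card / (((U a).card - 1) * ((U a).card - 2)) *
        ((zc (fun b : V U p a => (val x a b : ℝ)) ρ ^ 2 -
          vr fun b : V U p a => (val x a b : ℝ)) / n ^ 4) := by
  have hn : (0 : ℝ) < n := by exact_mod_cast a.pos
  by_cases hp : p a ∈ U a
  · have hV : V U p a = U a := by simp [V, hp]
    have := av_erase (U := V U p a) (hV ▸ h3) (fun b => yv (x (a, b))) ρ
    simp only [avq, kq_eq, ← Ex_zc_sq, zc_val, mul_pow, Ex_mul]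
    simp only [vr, zc] at this
    conv_lhs => rw [← hV, this]
    simp only [hV]
    field_simp
    ring
  · simp only [← Ex_zc_sq, zc_val]
    simp only [eq_of_inactive hp, erase_eq_of_notMem hp, Ex_const]
    simp

end V

end

section

open Finset Real

variable {n : ℕ}

/-- At most two frozen cells in each row and column. -/
structure Frz (Fz : Fin n → Finset (Fin n)) : Prop where
  row : ∀ a, (Fz a).card ≤ 2
  col : ∀ b, ∑ a, ind (b ∈ Fz a) ≤ 2

/-- The free cells in the columns of `W`. -/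
def UW (Fz : Fin n → Finset (Fin n)) (W : Finset (Fin n)) (a : Fin n) : Finset (Fin n) := W \ Fz a

/-- The number of frozen cells of a column. -/
noncomputable def ii (Fz : Fin n → Finset (Fin n)) (c : Fin n) : ℝ := ∑ a, ind (c ∈ Fz a)

/-- The sum over the frozen cells of a column. -/
noncomputable def dd (Fz : Fin n → Finset (Fin n)) (x : Om n) (c : Fin n) : ℝ :=
  ∑ a, ind (c ∈ Fz a) * yv (x (a, c))

/-- The dispersion of the frozen sums. -/
noncomputable def qq (Fz : Fin n → Finset (Fin n)) (W : Finset (Fin n)) (x : Om n) : ℝ :=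
  ∑ c ∈ W, dd Fz x c ^ 2 - (∑ c ∈ W, dd Fz x c) ^ 2 / W.card

/-- The columns of `W` have the right total. -/
def Tot (W : Finset (Fin n)) (x : Om n) : Prop := ∑ a, ∑ c ∈ W, yv (x (a, c)) = 0

/-- The main part of the potential. -/
noncomputable def ph (Fz : Fin n → Finset (Fin n)) (W : Finset (Fin n)) (x : Om n) : ℝ :=
  1 / 2 * log W.card - (W.card - 1) / 2 * log (π * n ^ 4 * max (sav (kq n) (UW Fz W) x) (n / 50))

/-- The correction of the potential. -/
noncomputable def co (Fz : Fin n → Finset (Fin n)) (W : Finset (Fin n)) (x : Om n) : ℝ :=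
  (W.card / 4 + 6 * qq Fz W x - (∑ c ∈ W, ii Fz c) / 2) / n

/-- Invariance of a function under permutations of the free cells of the rows. -/
def InvF (U : Fin n → Finset (Fin n)) (F : Om n → ℝ) : Prop :=
  ∀ g : Fin n → Equiv.Perm (Fin n), (∀ a b, b ∉ U a → g a b = b) →
    ∀ x, F (act (Equiv.prodCongrRight g) x) = F x

theorem InvF.sw {U : Fin n → Finset (Fin n)} {p : Fin n → Fin n} {F : Om n → ℝ} (hF : InvF U F)
    (ρ : ∀ a, V U p a) (x : Om n) : F (sw ρ x) = F x := by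
  refine hF _ (fun a b hb => ?_) x
  by_cases h : p a ∈ U a
  · exact Equiv.swap_apply_of_ne_of_ne (fun e => hb (e ▸ h))
      fun e => hb (e ▸ mem_of_active h (ρ a))
  · rw [eq_of_inactive h]; simp

theorem Inv.ind {U : Fin n → Finset (Fin n)} {E : Om n → Prop} (hE : Inv U E) :
    InvF U fun x => ind (E x) := fun g hg x => by simp only [hE g hg x]

theorem InvF.mul {U : Fin n → Finset (Fin n)} {F G : Om n → ℝ} (hF : InvF U F) (hG : InvF U G) :
    InvF U fun x => F x * G x := fun g hg x => by simp only [hF g hg x, hG g hg x]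

theorem InvF.mono {U U' : Fin n → Finset (Fin n)} {F : Om n → ℝ} (hF : InvF U F)
    (h : ∀ a, U' a ⊆ U a) : InvF U' F := fun g hg x =>
  hF g (fun a b hb => hg a b fun h' => hb (h a h')) x

variable {Fz : Fin n → Finset (Fin n)} {W : Finset (Fin n)} {b : Fin n} {x : Om n} {t : ℤ}

theorem mem_UW {a c : Fin n} : c ∈ UW Fz W a ↔ c ∈ W ∧ c ∉ Fz a := mem_sdiff

theorem UW_erase : (fun a => (UW Fz W a).erase b) = UW Fz (W.erase b) := by
  funext a
  ext c
  simp only [mem_erase, mem_UW]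
  tauto

theorem ind_UW (hb : b ∈ W) (a : Fin n) : ind (b ∉ UW Fz W a) = ind (b ∈ Fz a) := by
  simp [mem_UW, hb]

theorem sum_UW (a : Fin n) (f : Fin n → ℝ) :
    ∑ c ∈ UW Fz W a, f c = ∑ c ∈ W, f c - ∑ c ∈ W, ind (c ∈ Fz a) * f c := by
  rw [← sum_sub_distrib, UW, sdiff_eq_filter, sum_filter]
  refine sum_congr rfl fun c _ => ?_
  by_cases h : c ∈ Fz a <;> simp [ind, h]

theorem card_UW (a : Fin n) :
    (W.card : ℝ) - (UW Fz W a).card = ∑ c ∈ W, ind (c ∈ Fz a) := by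
  have := sum_UW (Fz := Fz) (W := W) a fun _ => 1
  simp only [sum_const, nsmul_eq_mul, mul_one] at this
  linarith

theorem card_UW_le (a : Fin n) : ((UW Fz W a).card : ℝ) ≤ W.card := by
  exact_mod_cast card_le_card sdiff_subset

theorem Frz.card_ge (h : Frz Fz) (a : Fin n) : W.card ≤ (UW Fz W a).card + 2 :=
  card_le_card_sdiff_add_card.trans (Nat.add_le_add_left (h.row a) _)

theorem Frz.sum_card (h : Frz Fz) : ∑ a, ((W.card : ℝ) - (UW Fz W a).card) ≤ 2 * W.card := by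
  simp only [card_UW]
  rw [sum_comm]
  exact (sum_le_sum fun c _ => h.col c).trans (by simp [mul_comm])

theorem Frz.inact (h : Frz Fz) (hb : b ∈ W) : ∑ a, ind (b ∉ UW Fz W a) ≤ 2 := by
  simp only [ind_UW hb]; exact h.col b

theorem Frz.sum_ind (h : Frz Fz) (c : Fin n) {f : Fin n → ℝ} {K : ℝ} (hf : ∀ a, |f a| ≤ K) :
    ∑ a, ind (c ∈ Fz a) * |f a| ≤ 2 * K := by
  have hK : 0 ≤ K := (abs_nonneg _).trans (hf c)
  calc _ ≤ ∑ a, ind (c ∈ Fz a) * K := sum_le_sum fun a _ => by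
        gcongr; exacts [ind_nonneg _, hf a]
    _ ≤ _ := by rw [← sum_mul]; gcongr; exact h.col c

theorem abs_sum_ind (p : Fin n → Prop) (f : Fin n → ℝ) :
    |∑ a, ind (p a) * f a| ≤ ∑ a, ind (p a) * |f a| :=
  (abs_sum_le_sum_abs _ _).trans_eq (sum_congr rfl fun a _ => by
    rw [abs_mul, abs_of_nonneg (ind_nonneg _)])

theorem Frz.abs_dd (h : Frz Fz) (x : Om n) (c : Fin n) : |dd Fz x c| ≤ 1 :=
  (abs_sum_ind _ _).trans ((h.sum_ind c fun a => abs_yv_le (x (a, c))).trans_eq (by norm_num))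

theorem Frz.abs_sum_dd (h : Frz Fz) (x : Om n) : |∑ c ∈ W, dd Fz x c| ≤ W.card :=
  (abs_sum_le_sum_abs _ _).trans ((sum_le_sum fun c _ => h.abs_dd x c).trans (by simp))

theorem Frz.abs_avg_dd (h : Frz Fz) (x : Om n) : |(∑ c ∈ W, dd Fz x c) / W.card| ≤ 1 := by
  rw [abs_div, Nat.abs_cast]
  exact div_le_one_of_le₀ (h.abs_sum_dd x) (Nat.cast_nonneg _)

theorem Frz.abs_co (h : Frz Fz) (x : Om n) : |co Fz W x| ≤ 7 * W.card / n := by
  have h1 : ∑ c ∈ W, dd Fz x c ^ 2 ≤ W.card :=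
    (sum_le_sum fun c _ => (sq_le_one_iff_abs_le_one _).2 (h.abs_dd x c)).trans (by simp)
  have h2 : 0 ≤ ∑ c ∈ W, dd Fz x c ^ 2 := by positivity
  have h3 : (∑ c ∈ W, dd Fz x c) ^ 2 / W.card ≤ W.card := by
    refine div_le_of_le_mul₀ (by positivity) (by positivity) ?_
    rw [← sq_abs, ← sq]; gcongr; exact h.abs_sum_dd x
  have h4 : 0 ≤ (∑ c ∈ W, dd Fz x c) ^ 2 / W.card := by positivity
  have h5 : ∑ c ∈ W, ii Fz c ≤ 2 * W.card :=
    (sum_le_sum fun c _ => h.col c).trans (by simp [mul_comm])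
  have h6 : 0 ≤ ∑ c ∈ W, ii Fz c := sum_nonneg fun c _ => sum_nonneg fun a _ => ind_nonneg _
  have h7 : (0 : ℝ) ≤ W.card := by positivity
  rw [co, abs_div, Nat.abs_cast]
  gcongr
  rw [qq, abs_le]
  constructor <;> linarith

theorem inv_dd (c : Fin n) : InvF (UW Fz W) fun x => dd Fz x c := fun g hg x =>
  sum_congr rfl fun a _ => by
    by_cases h : c ∈ Fz a
    · rw [act_row, hg a c fun h' => (mem_UW.1 h').2 h]
    · simp [ind_neg h]

theorem qq_erase (hb : b ∈ W) (hm : 2 ≤ W.card) : qq Fz W x = qq Fz (W.erase b) x +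
    (1 + 1 / (W.card - 1)) * (dd Fz x b - (∑ c ∈ W, dd Fz x c) / W.card) ^ 2 := by
  have h1 : (2 : ℝ) ≤ W.card := by exact_mod_cast hm
  have : (W.card : ℝ) - 1 ≠ 0 := by linarith
  simp only [qq, sum_erase_eq_sub hb, card_erase_of_mem hb]
  rw [Nat.cast_sub (by omega)]
  push_cast
  field_simp
  ring

theorem card_mul_mom (x : Om n) (a : Fin n) (U : Finset (Fin n)) :
    U.card * mom 1 x a U = ∑ c ∈ U, yv (x (a, c)) := by
  rcases U.eq_empty_or_nonempty with rfl | hU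
  · simp
  · have : (0 : ℝ) < U.card := by exact_mod_cast hU.card_pos
    simp only [mom, pow_one]
    field_simp

theorem line_iff (ht : 2 * t = n * (n ^ 2 - 1)) (p : Fin n → Fin n) (x : Om n) :
    Line p t x ↔ ∑ a, yv (x (a, p a)) = 0 := by
  have h1 : (2 * t : ℝ) = n * (n ^ 2 - 1) := by exact_mod_cast ht
  rcases Nat.eq_zero_or_pos n with rfl | hn
  · have : t = 0 := by simpa using ht
    simp [Line, this]
  have hn' : (0 : ℝ) < n ^ 2 := by positivity
  rw [Line, ← Int.cast_inj (α := ℝ)]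
  push_cast
  simp only [val_eq, sum_add_distrib, ← mul_sum, sum_const, card_univ, Fintype.card_fin,
    nsmul_eq_mul]
  constructor
  · intro h
    exact (mul_eq_zero.1 (by linarith)).resolve_left hn'.ne'
  · intro h
    rw [h]; linarith

theorem mean_col (ht : 2 * t = n * (n ^ 2 - 1)) (hb : b ∈ W) (hT : Tot W x) :
    ∑ a, Ex (fun c : V (UW Fz W) (fun _ => b) a => (val x a c : ℝ)) - t = n ^ 2 *
      (dd Fz x b - (∑ c ∈ W, dd Fz x c) / W.card - ∑ a, ind (b ∈ Fz a) * mom 1 x a (UW Fz W a) +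
        (∑ a, (W.card - (UW Fz W a).card) * mom 1 x a (UW Fz W a)) / W.card) := by
  have h1 : (2 * t : ℝ) = n * (n ^ 2 - 1) := by exact_mod_cast ht
  have hm : (0 : ℝ) < W.card := by exact_mod_cast card_pos.2 ⟨b, hb⟩
  have h2 : ∀ a, Ex (fun c : V (UW Fz W) (fun _ => b) a => yv (x (a, c))) =
      mom 1 x a (UW Fz W a) - ind (b ∈ Fz a) * mom 1 x a (UW Fz W a) +
        ind (b ∈ Fz a) * yv (x (a, b)) := by
    intro a
    by_cases h : b ∈ Fz a
    · rw [Ex_V_inactive (fun h' => (mem_UW.1 h').2 h) fun c => yv (x (a, c)), ind_pos h]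
      ring
    · rw [Ex_V_active (mem_UW.2 ⟨hb, h⟩) fun c => yv (x (a, c)), ind_neg h]
      simp [mom]
  have h3 : ∑ a, (UW Fz W a).card * mom 1 x a (UW Fz W a) = -∑ c ∈ W, dd Fz x c := by
    simp only [card_mul_mom, sum_UW, sum_sub_distrib, dd]
    rw [hT, sum_comm, zero_sub]
  simp only [val_eq, Ex_add, Ex_mul, Ex_const, h2, sum_add_distrib, sum_sub_distrib, ← mul_sum,
    sum_const, card_univ, Fintype.card_fin, nsmul_eq_mul, sub_mul, h3]
  rw [dd]
  field_simp
  rw [h1]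
  ring

theorem Frz.abs_G (h : Frz Fz) (x : Om n) :
    ∑ a, (W.card - (UW Fz W a).card) * |mom 1 x a (UW Fz W a)| ≤ W.card := by
  calc _ ≤ ∑ a, ((W.card : ℝ) - (UW Fz W a).card) * (1 / 2) ^ 1 := sum_le_sum fun a _ => by
        gcongr; exacts [sub_nonneg.2 (card_UW_le a), abs_mom_le 1 x a _]
    _ ≤ _ := by rw [← sum_mul]; linarith [h.sum_card (W := W)]

theorem Frz.mean_col (h : Frz Fz) (ht : 2 * t = n * (n ^ 2 - 1)) (hb : b ∈ W) (hT : Tot W x) :
    ∃ D : ℝ, ∑ a, Ex (fun c : V (UW Fz W) (fun _ => b) a => (val x a c : ℝ)) - t = D * n ^ 2 ∧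
      |D| ≤ 4 ∧ |D - (dd Fz x b - (∑ c ∈ W, dd Fz x c) / W.card)| ≤
        ∑ a, ind (b ∈ Fz a) * |mom 1 x a (UW Fz W a)| +
          (∑ a, (W.card - (UW Fz W a).card) * |mom 1 x a (UW Fz W a)|) / W.card := by
  have hm : (0 : ℝ) < W.card := by exact_mod_cast card_pos.2 ⟨b, hb⟩
  have h1 := abs_sum_ind (fun a => b ∈ Fz a) fun a => mom 1 x a (UW Fz W a)
  have h2 : |(∑ a, (W.card - (UW Fz W a).card) * mom 1 x a (UW Fz W a)) / W.card| ≤
      (∑ a, (W.card - (UW Fz W a).card) * |mom 1 x a (UW Fz W a)|) / W.card := by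
    rw [abs_div, abs_of_pos hm]
    gcongr
    refine (abs_sum_le_sum_abs _ _).trans_eq (sum_congr rfl fun a _ => ?_)
    rw [abs_mul, abs_of_nonneg (sub_nonneg.2 (card_UW_le a))]
  have h3 := h.sum_ind b fun a => abs_mom_le 1 x a (UW Fz W a)
  have h4 := (div_le_one hm).2 (h.abs_G (W := W) x)
  have h5 := h.abs_dd x b
  have h6 := h.abs_avg_dd (W := W) x
  refine ⟨_, (H9.mean_col ht hb hT).trans (mul_comm _ _), ?_, ?_⟩ <;>
    rw [abs_le] at h1 h2 h5 h6 ⊢ <;> constructor <;>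
    linarith [h1.1, h1.2, h2.1, h2.2, h5.1, h5.2, h6.1, h6.2]

theorem vr_col (hb : b ∈ W) (x : Om n) (a : Fin n) :
    vr (fun c : V (UW Fz W) (fun _ => b) a => (val x a c : ℝ)) = n ^ 4 / 2 *
      ((1 - ind (b ∈ Fz a)) * (avq x a (UW Fz W a) * (1 - 1 / (UW Fz W a).card))) := by
  rw [vr_V]
  by_cases h : b ∈ Fz a
  · simp [V, mem_UW, h, ind]
  · simp [V, mem_UW, h, hb, ind, avq]

theorem tot_erase (ht : 2 * t = n * (n ^ 2 - 1)) (hb : b ∈ W) (hT : Tot W x)
    (hL : Line (fun _ => b) t x) : Tot (W.erase b) x := by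
  rw [line_iff ht] at hL
  simp only [Tot, sum_erase_eq_sub hb, sum_sub_distrib, hL, sub_zero]
  exact hT

theorem inv_line : Inv (UW Fz (W.erase b)) (Line (fun _ => b) t) := fun g hg x => by
  simp only [Line, val_act]
  rw [sum_congr rfl fun a _ => by rw [hg a b (by simp [mem_UW])]]

theorem sav_le (U : Fin n → Finset (Fin n)) (x : Om n) : sav (kq n) U x ≤ n :=
  (sum_le_sum fun a _ => avq_le_one x a (U a)).trans (by simp)

theorem ph_le (hn : 25000000 ≤ n) (hm : 1 ≤ W.card) (x : Om n) :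
    ph Fz W x ≤ -(7 * (W.card - 1)) :=
  ph_le0 (by exact_mod_cast hn) (by exact_mod_cast hm) (le_max_right _ _)

theorem ph_ge (hn : 1 ≤ n) (hm : 1 ≤ W.card) (x : Om n) :
    -((W.card - 1) / 2 * log (4 * n ^ 5)) ≤ ph Fz W x := by
  have h1 : (1 : ℝ) ≤ W.card := by exact_mod_cast hm
  have hn' : (1 : ℝ) ≤ n := by exact_mod_cast hn
  have h2 := log_nonneg h1
  have h3 : log (π * n ^ 4 * max (sav (kq n) (UW Fz W) x) (n / 50)) ≤ log (4 * n ^ 5) := by
    have := pi_pos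
    refine log_le_log (by positivity) ?_
    calc _ ≤ 4 * (n : ℝ) ^ 4 * n := by
          gcongr; exacts [pi_le_four, max_le (sav_le _ x) (by linarith)]
      _ = _ := by ring
  unfold ph
  nlinarith

theorem Frz.psi_le (h : Frz Fz) (hn : 25000000 ≤ n) (hm : 2 ≤ W.card) (x : Om n) :
    exp (ph Fz W x - co Fz W x) ≤ 1 := by
  have h1 : (2 : ℝ) ≤ W.card := by exact_mod_cast hm
  have h2 : (W.card : ℝ) ≤ n := by simpa using card_le_univ W
  have h3 : 7 * (W.card : ℝ) / n ≤ 7 := by rw [div_le_iff₀ (by linarith)]; linarith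
  rw [exp_le_one_iff]
  linarith [ph_le (Fz := Fz) hn (by omega : 1 ≤ W.card) x, (abs_le.1 (h.abs_co (W := W) x)).1]

end

section

open Finset Real

/-- The loss for one of the last columns. -/
noncomputable def dl (n k : ℕ) : ℝ := √n * k + 2 * (2 * k + 2)

/-- The numerical conditions. -/
structure Par2 (n k : ℕ) (ε : ℝ) : Prop where
  tl : TL n (ε / n)
  e1 : ε ≤ 1 / 1000
  en : 25000 ≤ ε * n
  k1 : 1 ≤ ε * k
  kn : 48 * k ≤ ε * n
  t1 : exp 24 * (4 * exp (-(ε * k / 16))) ≤ ε / n * (1 / (6 * √(n ^ 5)))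
  p1 : (2 * k + 2) ^ 2 * dl n k ≤ ε * n
  p2 : 2 * (n ^ 3 + 2) * exp (-(k ^ 2 / 16)) ≤ ε / n * exp (-((2 * k + 2) * log (4 * n ^ 5)))

/-- The logarithm of the inverse probability of two lines. -/
noncomputable def LG (n : ℕ) : ℝ := log (π * n ^ 5 / 6)

variable {n k : ℕ} {ε : ℝ}

theorem Par2.e0 (h : Par2 n k ε) : 0 < ε := by
  by_contra h'
  nlinarith [h.k1, Nat.cast_nonneg (α := ℝ) k]

theorem Par2.kge (h : Par2 n k ε) : (1000 : ℝ) ≤ k := by
  nlinarith [h.k1, h.e1, Nat.cast_nonneg (α := ℝ) k]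

theorem Par2.nge (h : Par2 n k ε) : (25000000 : ℝ) ≤ n := by
  nlinarith [h.en, h.e1, Nat.cast_nonneg (α := ℝ) n]

theorem Par2.small (h : Par2 n k ε) : ε * n ≤ n / 1000 := by
  nlinarith [h.e1, h.nge]

theorem Par2.theta (h : Par2 n k ε) {m : ℝ} (hm : 0 < m) (hmn : m ≤ n) :
    ε / n ≤ √(ε / (n * m)) ∧ ∀ y C : ℝ, 0 ≤ y → 0 ≤ C → y ≤ C → y ≤ C * (ε * n) / m →
      y / n ≤ C * √(ε / (n * m)) := by
  have hn : (0 : ℝ) < n := by linarith
  have he := h.e0
  constructor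
  · refine le_sqrt_of_sq_le ?_
    rw [div_pow, div_le_div_iff₀ (by positivity) (by positivity)]
    have : ε * m ≤ 1 * n := by gcongr; linarith [h.e1]
    nlinarith [mul_pos he hn]
  · intro y C hy hC h1 h2
    have := le_sqrt_of_le hy h1 h2
    rw [show C * (C * (ε * n) / m) = (C * n) ^ 2 * (ε / (n * m)) by field_simp,
      sqrt_mul (by positivity), sqrt_sq (by positivity)] at this
    rw [div_le_iff₀ hn]
    linarith

theorem Par2.dl_facts (h : Par2 n k ε) : 5000000 ≤ dl n k ∧ 2 * (2 * k + 2) ≤ dl n k ∧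
    (2 * k + 2) * (dl n k / n) ≤ ε / (2 * k + 2) ∧ 2000 * (dl n k / n) ≤ ε / (2 * k + 2) ∧
    ε / n ≤ ε / (2 * k + 2) ∧ ε / (2 * k + 2) ≤ 1 / 2000000 ∧ √n * k ≤ 4 * n := by
  have hk := h.kge
  have hn := h.nge
  have he := h.e0
  have h1 : 5000 ≤ √n := le_sqrt_of_sq_le (by linarith)
  have h2 : 5000 * 1000 ≤ √n * k := by gcongr
  have h3 : 5000000 ≤ dl n k := by unfold dl; linarith
  have h4 : (2 * k + 2) * (dl n k / n) ≤ ε / (2 * k + 2) := by
    rw [← mul_div_assoc, div_le_div_iff₀ (by linarith) (by linarith)]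
    linarith [h.p1]
  have h5 : 1 * dl n k ≤ (2 * k + 2) ^ 2 * dl n k := by gcongr; nlinarith
  have h6 := h.small
  have h7 := h.p1
  refine ⟨h3, by unfold dl; linarith, h4, le_trans (by gcongr; linarith) h4, ?_, ?_, ?_⟩
  · gcongr; linarith [h.kn]
  · rw [div_le_iff₀ (by linarith)]; linarith [h.e1]
  · unfold dl at h5 h7; linarith

theorem LG_pos (hn : (2 : ℝ) ≤ n) : 0 < LG n := by
  refine log_pos ?_
  have : (2 : ℝ) ^ 5 ≤ n ^ 5 := by gcongr
  nlinarith [pi_gt_three]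

end

end Pool.Agent.MP_f80039_co.H9
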