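import Pool.Agent.MP_f80039_co.H9.Tilt
import Pool.Agent.MP_f80039_co.H9.Pot

/-! The tilted local limit theorem and the choice of the parameters. -/

set_option autoImplicit false

namespace Pool.Agent.MP_f80039_co.H9

section

open Finset Real Filter

variable {ι : Type*} [Fintype ι] [DecidableEq ι] {α : ι → Type*} [∀ i, Fintype (α i)]
  [∀ i, Nonempty (α i)]

omit [DecidableEq ι] in
theorem full_ge {n : ℕ} (hn : 400 ≤ n) (hc : Fintype.card ι = n) {X : ∀ i, α i → ℤ}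
    (h : ∀ i a, 0 ≤ X i a ∧ X i a ≤ n ^ 2) (hA : Aper n X) {u w : ℝ} (hw0 : 0 ≤ w) (hw : w ≤ 1)
    (hu : w ≤ u * n ^ 2) (hu' : u ≤ π) :
    w ^ 2 * n / 500 ≤ ∑ i, full u fun a => (X i a : ℝ) := by
  have hn' : (400 : ℝ) ≤ n := by exact_mod_cast hn
  have hn0 : (0 : ℝ) < n := by linarith
  have hY : ∀ i a, 0 ≤ (X i a : ℝ) ∧ (X i a : ℝ) ≤ (n : ℝ) ^ 2 := fun i a => by
    exact_mod_cast h i a
  have hπ := pi_pos
  have hu0 : 0 ≤ u := by
    by_contra h0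
    nlinarith [pow_pos hn0 2]
  rcases le_total (u * n ^ 2) π with h1 | h1
  · have h2 := hA n le_rfl (Nat.le_self_pow (by norm_num) n)
    have h3 := sum_le_sum fun i (_ : i ∈ univ) => full_scale (hY i) (u := π * n / (n ^ 3 : ℕ))
      (s := u * n ^ 2 / π) (by positivity) (by push_cast; apply le_of_eq; field_simp)
      (by positivity) ((div_le_one hπ).2 h1)
    rw [← mul_sum, show u * n ^ 2 / π * (π * n / (n ^ 3 : ℕ)) = u by push_cast; field_simp] at h3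
    refine le_trans ?_ h3
    have h4 : π ^ 2 ≤ 10 := by nlinarith [pi_lt_d2]
    calc w ^ 2 * n / 500 = 4 / 10 * (w ^ 2 / 10) * (n / 20) := by ring
      _ ≤ 4 / π ^ 2 * ((u * n ^ 2) ^ 2 / π ^ 2) * (n / 20) := by gcongr
      _ ≤ _ := by rw [div_pow]; gcongr
  · set r := ⌈u * n ^ 3 / π⌉₊ with hr
    have h2 : u * n ^ 3 / π ≤ r := Nat.le_ceil _
    have h3 : (r : ℝ) ≤ u * n ^ 3 / π + 1 := (Nat.ceil_lt_add_one (by positivity)).le
    have h4 := hA r (by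
      have : (n : ℝ) ≤ r := by
        refine le_trans ?_ h2
        rw [le_div_iff₀ hπ]; nlinarith
      exact_mod_cast this) (Nat.ceil_le.2 (by
      push_cast
      rw [div_le_iff₀ hπ]; nlinarith [pow_pos hn0 3]))
    have h5 := sum_le_sum fun i (_ : i ∈ univ) => full_lip (hY i) u (π * r / (n ^ 3 : ℕ))
    have h6 : |u - π * r / (n ^ 3 : ℕ)| ≤ π / n ^ 3 := by
      push_cast
      have e : u - π * r / n ^ 3 = π / n ^ 3 * (u * n ^ 3 / π - r) := by field_simp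
      rw [e, abs_mul, abs_of_pos (by positivity)]
      refine mul_le_of_le_one_right (by positivity) (abs_le.2 ⟨by linarith, by linarith⟩)
    rw [sum_sub_distrib, sum_const, card_univ, hc, nsmul_eq_mul] at h5
    have h7 : n * (|u - π * r / (n ^ 3 : ℕ)| * n ^ 2) ≤ π := by
      calc _ ≤ n * (π / n ^ 3 * n ^ 2) := by gcongr
        _ = _ := by field_simp
    have : w ^ 2 ≤ 1 := pow_le_one₀ hw0 hw
    nlinarith [pi_le_four]

theorem core_explicit {n : ℕ} (hn : 1000000 ≤ n) (hc : Fintype.card ι = n) {X : ∀ i, α i → ℤ}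
    (h : ∀ i a, 0 ≤ X i a ∧ X i a ≤ n ^ 2) (hA : Aper n X) {t : ℤ}
    (ht : |∑ i, Ex (fun a => (X i a : ℝ)) - t| ≤ 6 * n ^ 2) {τ A ω : ℝ} (hτ : 0 ≤ τ)
    (hτ' : τ ≤ 50 / n ^ 5) (hA8 : 8 ≤ A) (hω : ω = A / √n) (hω1 : ω ≤ 1 / 2)
    (h1 : 2 * n * ω ^ 4 ≤ 1) (h2 : 6 * ω + 2 * n * ω ^ 3 ≤ 1) :
    |(Ex fun x : ∀ i, α i => ind (∑ i, X i (x i) = t) * wt (fun i a => (X i a : ℝ)) τ x) *
        √(2 * π * ∑ i, vr fun a => (X i a : ℝ)) -
      cf τ (∑ i, p4 fun a => (X i a : ℝ)) (∑ i, vr (fun a => (X i a : ℝ)) ^ 2)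
        (∑ i, m3 fun a => (X i a : ℝ)) (∑ i, Ex (fun a => (X i a : ℝ)) - t)
        (∑ i, vr fun a => (X i a : ℝ))| ≤
      A * (27 * n * ω ^ 5 + (2 * n * ω ^ 4 * (6 * ω + 2 * n * ω ^ 3) ^ 2 + (2 * n * ω ^ 4) ^ 2 +
        (6 * ω + 2 * n * ω ^ 3) ^ 4)) +
      (4 * exp 300 * n ^ 3 + 50 + 26 * A ^ 5) * exp (-(A ^ 2 / 500)) := by
  have hn' : (1000000 : ℝ) ≤ n := by exact_mod_cast hn
  have hn0 : (0 : ℝ) < n := by linarith
  set Y : ∀ i, α i → ℝ := fun i a => (X i a : ℝ) with hY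
  have hYb : ∀ i a, 0 ≤ Y i a ∧ Y i a ≤ (n : ℝ) ^ 2 := fun i a => by
    simp only [hY]
    exact_mod_cast h i a
  have hv1 : (n : ℝ) ^ 5 / 100 ≤ ∑ i, vr (Y i) := var_ge (by omega) hA
  obtain ⟨m1, m2, m3', hv2⟩ := sum_moments (X := Y) (by exact_mod_cast hc) hYb
  have hinv := inversion X t τ
  have hap := fun u hu hw => PhiT_approx hYb (t := t) (τ := τ) (u := u) (ω := ω) (n := n)
    (by exact_mod_cast hc) ht hu hτ hw
  have hout := fun u => norm_PhiT_le hYb (t := t) (u := u) (β := 50 / n) hτ (by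
    calc _ ≤ 50 / n ^ 5 * ((n : ℝ) ^ 2) ^ 2 := by gcongr
      _ = _ := by field_simp) (by positivity) (by rw [div_le_one hn0]; linarith)
  have hfull := fun u => full_ge (u := u) (w := ω) (by omega) hc h hA
  have hcont := PhiT_cont Y t τ
  change ∫ u in (0 : ℝ)..π, (PhiT Y t τ u).re = π * Ex fun x => _ * wt Y τ x at hinv
  change |(Ex fun x => _ * wt Y τ x) * √(2 * π * ∑ i, vr (Y i)) - cf τ (∑ i, p4 (Y i))
    (∑ i, vr (Y i) ^ 2) (∑ i, m3 (Y i)) (∑ i, Ex (Y i) - t) (∑ i, vr (Y i))| ≤ _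
  change ∀ u, _ → _ → _ → _ → _ ≤ ∑ i, full u (Y i) at hfull
  change |∑ i, Ex (Y i) - t| ≤ _ at ht
  generalize (Ex fun x : ∀ i, α i => ind (∑ i, X i (x i) = t) * wt Y τ x) = I at *
  generalize ∑ i, p4 (Y i) = P at *
  generalize ∑ i, vr (Y i) ^ 2 = R at *
  generalize ∑ i, m3 (Y i) = B at *
  generalize ∑ i, Ex (Y i) - t = D at *
  generalize ∑ i, vr (Y i) = v at *
  obtain ⟨c0, c1, c2, c3⟩ := coef_bounds hn0 hτ hτ' m1 m2 m3' ht hv1
  have hv0 : 0 < v := lt_of_lt_of_le (by positivity) hv1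
  have hr0 : 0 < √(n : ℝ) := by positivity
  have hrr : √(n : ℝ) ^ 2 = n := sq_sqrt hn0.le
  have hω0 : 0 < ω := by rw [hω]; positivity
  have hω2 : ω ^ 2 * n = A ^ 2 := by rw [hω, div_pow, hrr]; field_simp
  obtain ⟨u0, hu0⟩ : ∃ u0, u0 = ω / n ^ 2 := ⟨_, rfl⟩
  have hu0' : u0 * n ^ 2 = ω := by rw [hu0]; field_simp
  have hu00 : 0 < u0 := by rw [hu0]; positivity
  have hu0π : u0 ≤ π := by
    rw [hu0]
    exact (div_le_self hω0.le (one_le_pow₀ (by linarith only [hn']))).trans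
      (by linarith only [hω1, pi_gt_three])
  have hy : u0 ^ 2 * n ^ 5 = A ^ 2 := by rw [← hω2, ← hu0']; ring
  have hy1 : A ^ 2 / 100 ≤ u0 ^ 2 * v := by
    calc _ = u0 ^ 2 * (n ^ 5 / 100) := by rw [← hy]; ring
      _ ≤ _ := by gcongr
  have hy2 : u0 ^ 2 * v ≤ A ^ 2 := by rw [← hy]; gcongr
  set E := 27 * n * ω ^ 5 + (2 * n * ω ^ 4 * (6 * ω + 2 * n * ω ^ 3) ^ 2 + (2 * n * ω ^ 4) ^ 2 +
    (6 * ω + 2 * n * ω ^ 3) ^ 4)
  set Z := exp (-(A ^ 2 / 500))
  have hZ : exp (-(u0 ^ 2 / 2 * v)) ≤ Z := exp_le_exp.2 (by linarith only [hy1, sq_nonneg A])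
  have hG := gauss_poly hv0 (1 + τ ^ 2 / 2 * P) (-(τ / 2 * P) - (D + τ * B) ^ 2 / 2)
    ((P - 2 * R) / 24 + (D + τ * B) * B / 6) (-(B ^ 2 / 72)) u0
  have hT := gauss_tail hv0 hu00
  have T1 := intervalIntegral.norm_integral_le_of_norm_le_const (a := 0) (b := u0) (C := E)
    (f := fun u => (PhiT Y t τ u).re - exp (-(u ^ 2 / 2 * v)) * (1 + τ ^ 2 / 2 * P +
      (-(τ / 2 * P) - (D + τ * B) ^ 2 / 2) * u ^ 2 + ((P - 2 * R) / 24 + (D + τ * B) * B / 6) *
        u ^ 4 + -(B ^ 2 / 72) * u ^ 6)) fun u hu => by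
      rw [Set.uIoc_of_le hu00.le] at hu
      have := hap u hu.1.le (by rw [← hu0']; gcongr; exact hu.2) (by
        calc _ ≤ 50 / n ^ 5 * ((n : ℝ) ^ 2) ^ 2 := by gcongr
          _ = 50 / n := by field_simp
          _ ≤ _ := by rw [div_le_iff₀ hn0, hω2]; nlinarith only [hA8]) hω0.le hω1 h1 h2
      rw [Real.norm_eq_abs]
      convert this using 3
      ring
  have T2 := intervalIntegral.norm_integral_le_of_norm_le_const (a := u0) (b := π)
    (C := exp 300 * Z) (f := fun u => (PhiT Y t τ u).re) fun u hu => by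
      rw [Set.uIoc_of_le hu0π] at hu
      refine (Complex.abs_re_le_norm _).trans ((hout u).trans ?_)
      have := hfull u hω0.le (by linarith) (by rw [← hu0']; gcongr; exact hu.1.le) hu.2
      rw [hω2] at this
      refine mul_le_mul (exp_le_exp.2 ?_) (exp_le_exp.2 (neg_le_neg this)) (exp_pos _).le
        (exp_pos _).le
      rw [hc]; apply le_of_eq; field_simp; norm_num
  rw [intervalIntegral.integral_sub (hcont.intervalIntegrable _ _)
    (Continuous.intervalIntegrable (by fun_prop) _ _), hG, Real.norm_eq_abs, sub_zero,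
    abs_of_pos hu00] at T1
  rw [← intervalIntegral.integral_add_adjacent_intervals (b := u0) (hcont.intervalIntegrable _ _)
    (hcont.intervalIntegrable _ _)] at hinv
  rw [Real.norm_eq_abs, abs_of_nonneg (sub_nonneg.2 hu0π)] at T2
  have hcf : |cf τ P R B D v| ≤ 2 := by
    have h3 := cf_near hn0 hτ hτ' m1 m2 m3' ht hv1
    have : (671250 : ℝ) / n ≤ 1 := by rw [div_le_one hn0]; linarith
    rw [abs_le] at h3 ⊢
    constructor <;> linarith [h3.1, h3.2]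
  have hbd := bd_bound (c1.trans (by rw [div_le_one hn0]; linarith))
    (c2.trans (by rw [div_le_one hn0]; linarith)) (c3.trans (by rw [div_le_one hn0]; linarith))
    hv0 hu00 hy2 (by linarith)
  refine core_combine (by linarith) hv0 hu00 hv2 hy1 hy2 hA8 hZ (by positivity) hinv T1
    (T2.trans ?_) hcf ?_ hT
  · gcongr
    linarith [pi_le_four]
  · rw [abs_mul, abs_of_pos (exp_pos _)]
    gcongr

theorem core {ε : ℝ} (hε : 0 < ε) : ∀ᶠ n : ℕ in atTop, TL n (ε / n) := by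
  obtain ⟨δ, hδ, hδ1, hδ2⟩ : ∃ δ : ℝ, 0 < δ ∧ δ ≤ 1 / 8 ∧ 8600 * δ ≤ ε :=
    ⟨min (1 / 8) (ε / 8600), by positivity, min_le_left _ _, by
      linarith [min_le_right (1 / 8 : ℝ) (ε / 8600)]⟩
  have h1 := tendsto_natCast_atTop_atTop.eventually
    ((isLittleO_pow_log_id_atTop (n := 26)).bound (by positivity : 0 < δ ^ 2))
  have h2 := (tendsto_log_atTop.comp tendsto_natCast_atTop_atTop).eventually_ge_atTop 5000
  have h3 := (tendsto_natCast_atTop_atTop (R := ℝ)).eventually_ge_atTop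
    (2 * (4 * exp 300 + 76) / ε)
  filter_upwards [h1, h2, h3, eventually_ge_atTop 1000000] with n h1 h2 h3 hn
  intro α _ _ X t τ hX hA ht hτ hτ'
  have hn' : (1000000 : ℝ) ≤ n := by exact_mod_cast hn
  have hn0 : (0 : ℝ) < n := by linarith
  change 5000 ≤ log n at h2
  simp only [id, Real.norm_eq_abs, abs_of_pos hn0] at h1
  have hlog : exp (log n) = n := exp_log hn0
  generalize log (n : ℝ) = A at *
  obtain ⟨r, hr⟩ : ∃ r, r = √(n : ℝ) := ⟨_, rfl⟩
  have hrr : r ^ 2 = n := by rw [hr, sq_sqrt hn0.le]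
  have hr1 : 1 ≤ r := by rw [hr]; exact one_le_sqrt.2 (by linarith)
  have hA1 : 1 ≤ A := by linarith
  have h4 : A ^ 13 ≤ δ * r := by
    refine le_of_sq_le_sq ?_ (by positivity)
    rw [mul_pow, hrr, ← pow_mul]
    exact (le_abs_self _).trans h1
  have p : ∀ k, k ≤ 13 → A ^ k / r ≤ 1 / 8 := fun k hk => by
    rw [div_le_iff₀ (by linarith)]
    exact (pow_le_pow_right₀ hA1 hk).trans (h4.trans (by gcongr))
  refine (core_explicit hn (by simp) hX hA ht hτ hτ' (A := A) (ω := A / r) (by linarith)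
    (by rw [hr]) (by have := p 1 (by norm_num); rw [pow_one] at this; linarith) ?_ ?_).trans ?_
  · have : A ^ 4 / r ^ 2 ≤ A ^ 4 / r := by
      gcongr; exact le_self_pow₀ hr1 (by norm_num)
    calc _ = 2 * (A ^ 4 / r ^ 2) := by rw [← hrr]; field_simp
      _ ≤ _ := by linarith [p 4 (by norm_num)]
  · calc _ = 6 * (A ^ 1 / r) + 2 * (A ^ 3 / r) := by rw [← hrr]; field_simp
      _ ≤ _ := by linarith [p 1 (by norm_num), p 3 (by norm_num)]
  have e1 := core_err (A := A) (r := r) (by linarith) hr1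
  rw [hrr] at e1
  have e2 : 4300 * A ^ 13 / r ^ 3 ≤ ε / 2 / n := by
    calc _ ≤ 4300 * (δ * r) / r ^ 3 := by gcongr
      _ = 4300 * δ / n := by rw [← hrr]; field_simp
      _ ≤ _ := by gcongr; linarith
  have e3 : exp (-(A ^ 2 / 500)) ≤ 1 / (n : ℝ) ^ 10 := by
    rw [← hlog, ← exp_nat_mul, one_div, ← exp_neg]
    apply exp_le_exp.2
    push_cast
    nlinarith only [h2]
  have e4 : A ≤ n := by linarith [add_one_le_exp A]
  have e5 : 4 * exp 300 * (n : ℝ) ^ 3 + 50 + 26 * A ^ 5 ≤ (4 * exp 300 + 76) * n ^ 8 := by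
    have q : ∀ k, k ≤ 8 → (n : ℝ) ^ k ≤ n ^ 8 := fun k hk => pow_le_pow_right₀ (by linarith) hk
    have : A ^ 5 ≤ (n : ℝ) ^ 5 := by gcongr
    have := mul_le_mul_of_nonneg_left (q 3 (by norm_num)) (exp_pos 300).le
    have := q 0 (by norm_num)
    have := q 5 (by norm_num)
    linarith
  have e6 : (4 * exp 300 * (n : ℝ) ^ 3 + 50 + 26 * A ^ 5) * exp (-(A ^ 2 / 500)) ≤ ε / 2 / n := by
    calc _ ≤ (4 * exp 300 + 76) * n ^ 8 * (1 / (n : ℝ) ^ 10) := by gcongr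
      _ = (4 * exp 300 + 76) / n / n := by field_simp
      _ ≤ _ := by
          refine div_le_div_of_nonneg_right ?_ hn0.le
          rw [div_le_iff₀ hε] at h3
          rw [div_le_iff₀ hn0]
          linarith
  have e7 : ε / n = ε / 2 / n + ε / 2 / n := by ring
  linarith

end

section

open Finset Real Filter

/-- The integer eighth root. -/
def k8 (n : ℕ) : ℕ := Nat.sqrt (Nat.sqrt (Nat.sqrt n))

theorem k8_le (n : ℕ) : (k8 n : ℝ) ^ 4 ≤ √n := by
  have : (k8 n ^ 4) ^ 2 ≤ n := by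
    calc (k8 n ^ 4) ^ 2 = ((k8 n ^ 2) ^ 2) ^ 2 := by ring
      _ ≤ (Nat.sqrt (Nat.sqrt n) ^ 2) ^ 2 := by gcongr; exact Nat.sqrt_le' _
      _ ≤ Nat.sqrt n ^ 2 := by gcongr; exact Nat.sqrt_le' _
      _ ≤ n := Nat.sqrt_le' n
  exact le_sqrt_of_sq_le (by exact_mod_cast this)

theorem lt_k8 (n : ℕ) : (n : ℝ) ≤ (k8 n + 1) ^ 8 := by
  have : n ≤ (k8 n + 1) ^ 8 := by
    calc n ≤ (Nat.sqrt n + 1) ^ 2 := (Nat.lt_succ_sqrt' n).le
      _ ≤ ((Nat.sqrt (Nat.sqrt n) + 1) ^ 2) ^ 2 := by gcongr; exact Nat.lt_succ_sqrt' _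
      _ ≤ (((k8 n + 1) ^ 2) ^ 2) ^ 2 := by gcongr; exact Nat.lt_succ_sqrt' _
      _ = _ := by ring
  exact_mod_cast this

theorem grow8 {η : ℝ} (hη : 0 < η) (C : ℝ) : ∀ᶠ n : ℕ in atTop,
    C ≤ log n ∧ log n ≤ η * k8 n := by
  have h1 : Tendsto k8 atTop atTop := tendsto_atTop.2 fun b => by
    filter_upwards [eventually_ge_atTop (b * b * (b * b) * (b * b * (b * b)))] with n hn
    exact Nat.le_sqrt.2 (Nat.le_sqrt.2 (Nat.le_sqrt.2 hn))
  have h2 : Tendsto (fun n => (k8 n : ℝ) + 1) atTop atTop :=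
    tendsto_atTop_add_const_right _ _ (tendsto_natCast_atTop_atTop.comp h1)
  filter_upwards [h2.eventually (isLittleO_log_id_atTop.bound (by positivity : 0 < η / 16)),
    h1.eventually_ge_atTop 1, eventually_gt_atTop 0,
    (tendsto_log_atTop.comp tendsto_natCast_atTop_atTop).eventually_ge_atTop C] with n h3 h4 h5 h6
  have h4' : (1 : ℝ) ≤ k8 n := by exact_mod_cast h4
  simp only [id, Real.norm_eq_abs] at h3
  rw [abs_of_pos (by linarith : (0 : ℝ) < k8 n + 1)] at h3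
  have h7 := log_le_log (by exact_mod_cast h5) (lt_k8 n)
  rw [log_pow] at h7
  push_cast at h7
  exact ⟨h6, by nlinarith [le_abs_self (log ((k8 n : ℝ) + 1))]⟩

theorem exp_bound {n ε A a b : ℝ} {j : ℕ} (hn : 0 < n) (hε : 1 ≤ ε * n) (hA : A ≤ n ^ j)
    (h : (j + 1) * log n + b ≤ a) : A * exp (-a) ≤ ε * exp (-b) := by
  have h1 : n⁻¹ ≤ ε := by rwa [inv_le_iff_one_le_mul₀ hn]
  calc _ ≤ exp (j * log n) * exp (-a) := by rw [exp_nat_mul, exp_log hn]; gcongr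
    _ ≤ exp (-log n) * exp (-b) := by
        rw [← exp_add, ← exp_add]; exact exp_le_exp.2 (by linarith)
    _ ≤ _ := by rw [exp_neg (log n), exp_log hn]; gcongr

theorem LG_le {n : ℕ} (hn : (0 : ℝ) < n) : LG n ≤ 5 * log n := by
  have hπ := pi_pos
  rw [show 5 * log (n : ℝ) = log (n ^ 5) by rw [log_pow]; norm_num]
  exact log_le_log (by positivity) (by nlinarith [pi_le_four, pow_pos hn 5])

theorem par_t1 {n k ε : ℝ} (hn : 100 ≤ n) (hε : 1 ≤ ε * n) (hL : 30 ≤ log n)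
    (h : 25000 * log n ≤ ε * k) :
    exp 24 * (4 * exp (-(ε * k / 16))) ≤ ε / n * (1 / (6 * √(n ^ 5))) := by
  have hn0 : 0 < n := by linarith
  have he : 0 < ε := by by_contra h'; nlinarith
  have b1 : √(n ^ 5) ≤ n ^ 3 := sqrt_le_iff.2 ⟨by positivity, by
    rw [← pow_mul]; exact pow_le_pow_right₀ (by linarith) (by norm_num)⟩
  have b2 := exp_bound (A := 24 * n ^ 4) (j := 5) (a := ε * k / 16) (b := 24) hn0 hε
    (by rw [pow_succ' n 4]; gcongr; linarith) (by push_cast; linarith)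
  calc _ = exp 24 * (24 * n ^ 4 * exp (-(ε * k / 16))) / (6 * n ^ 4) := by field_simp; ring
    _ ≤ exp 24 * (ε * exp (-24)) / (6 * n ^ 4) := by gcongr
    _ = ε / n * (1 / (6 * n ^ 3)) := by rw [exp_neg]; field_simp
    _ ≤ _ := by gcongr

theorem par_p1 {n k : ℕ} {ε : ℝ} (hε : 0 < ε) (hk : (1000 : ℝ) ≤ k) (hk4 : (k : ℝ) ^ 4 ≤ √n)
    (hs : 1 ≤ √n) (h : 63 ≤ ε * k) : (2 * k + 2) ^ 2 * dl n k ≤ ε * n := by
  have b1 : (2 * k + 2 : ℝ) ^ 2 ≤ (3 * k) ^ 2 := by gcongr; linarith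
  have b2 : dl n k ≤ 7 * (√n * k) := by
    have : 1 * (k : ℝ) ≤ √n * k := by gcongr
    unfold dl; linarith
  calc _ ≤ (3 * k : ℝ) ^ 2 * (7 * (√n * k)) := by
        gcongr; unfold dl; positivity
    _ = 63 * k ^ 3 * √n := by ring
    _ ≤ ε * k * k ^ 3 * √n := by gcongr
    _ = ε * k ^ 4 * √n := by ring
    _ ≤ ε * √n * √n := by gcongr
    _ = _ := by rw [mul_assoc, mul_self_sqrt (by positivity)]

theorem par_p2 {n k ε : ℝ} (hn : 100 ≤ n) (hε : 1 ≤ ε * n) (hL : 30 ≤ log n)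
    (h : 25000 * log n ≤ k) :
    2 * (n ^ 3 + 2) * exp (-(k ^ 2 / 16)) ≤ ε / n * exp (-((2 * k + 2) * log (4 * n ^ 5))) := by
  have hn0 : 0 < n := by linarith
  have b1 : log (4 * n ^ 5) ≤ 6 * log n := by
    rw [show 6 * log n = log (n * n ^ 5) by rw [← pow_succ', log_pow]; norm_num]
    exact log_le_log (by positivity) (by gcongr; linarith)
  have b2 : (2 * k + 2) * log (4 * n ^ 5) ≤ 3 * k * (6 * log n) := by
    gcongr
    · exact log_nonneg (by linarith [one_le_pow₀ (n := 5) (by linarith : 1 ≤ n)])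
    · linarith
    · linarith
  have b3 : k * (25000 * log n) ≤ k * k := by gcongr; linarith
  have b4 : 1 * log n ≤ k * log n := by gcongr; linarith
  have b5 : 2 ≤ n ^ 3 := le_trans (by linarith) (le_self_pow₀ (by linarith) (by norm_num))
  have b6 := exp_bound (A := 2 * (n ^ 3 + 2) * n) (j := 5) (a := k ^ 2 / 16)
    (b := (2 * k + 2) * log (4 * n ^ 5)) hn0 hε (by
      calc _ ≤ 4 * n ^ 3 * n := mul_le_mul_of_nonneg_right (by linarith) hn0.le
        _ ≤ n * n ^ 3 * n := by gcongr; linarith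
        _ = _ := by ring) (by push_cast; linarith)
  rw [div_mul_eq_mul_div, le_div_iff₀ hn0]
  linarith

theorem par_beta {n k : ℕ} {ε : ℝ} (hn : 100 ≤ n) (hε : 1 ≤ ε * n) (hL : 30 ≤ log n)
    (h : log n ≤ ε ^ 2 / 512 * k) : n * beta2 n k ε ≤ ε * exp (-(n * LG n + 5)) := by
  have hn' : (100 : ℝ) ≤ n := by exact_mod_cast hn
  have hn0 : (0 : ℝ) < n := by linarith
  have b1 : (n : ℝ) ^ 3 ≤ n ^ n := pow_le_pow_right₀ (by linarith) (by omega)
  have b2 : (2 : ℝ) ^ n ≤ n ^ n := by gcongr; linarith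
  have b3 : (3 : ℝ) ≤ n ^ 3 := le_trans (by linarith) (le_self_pow₀ (by linarith) (by norm_num))
  have b4 : (n : ℝ) * (5 * n ^ n) ≤ n * (n * n ^ n) := by gcongr; linarith
  have b5 : n * log n ≤ n * (ε ^ 2 / 512 * k) := by gcongr
  have b6 : n * LG n ≤ n * (5 * log n) := by gcongr; exact LG_le hn0
  have b7 : 100 * log n ≤ n * log n := by gcongr
  rw [beta2, ← mul_assoc]
  refine exp_bound (j := n + 2) hn0 hε ?_ (by push_cast; linarith)
  calc _ ≤ (n : ℝ) * (5 * n ^ n) := by gcongr; linarith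
    _ ≤ _ := b4.trans_eq (by ring)

theorem par_cross {n : ℕ} {ε : ℝ} (hn : (100 : ℝ) ≤ n) (hε : 1 ≤ ε * n) (hL : 30 ≤ log n)
    (h : log n ≤ ε ^ 2 / 512 * n) :
    exp 5 * (2 * exp (-((ε * n) ^ 2 / (16 * n)))) ≤ ε * exp (-LG n) := by
  have hn0 : (0 : ℝ) < n := by linarith
  have b1 := exp_bound (A := 2) (j := 1) (a := (ε * n) ^ 2 / (16 * n)) (b := LG n + 5) hn0 hε
    (by linarith) (by
      rw [show (ε * n) ^ 2 / (16 * n) = ε ^ 2 * n / 16 by field_simp]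
      push_cast
      linarith [LG_le hn0])
  calc _ ≤ exp 5 * (ε * exp (-(LG n + 5))) := by gcongr
    _ = _ := by rw [mul_left_comm, ← exp_add]; ring_nf

theorem par_eventually {ε : ℝ} (hε : 0 < ε) (hs : √ε ≤ 1 / 10000) : ∀ᶠ n : ℕ in atTop,
    ∃ k, Par2 n k ε ∧ n * beta2 n k ε ≤ ε * exp (-(n * LG n + 5)) ∧
      exp 5 * (2 * exp (-((ε * n) ^ 2 / (16 * n)))) ≤ ε * exp (-LG n) := by
  have he1 : ε ≤ 1 / 10000 * (1 / 10000) := by
    rw [← mul_self_sqrt hε.le]; gcongr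
  filter_upwards [core hε, grow8 (by positivity : 0 < ε ^ 2 / 512) 30, eventually_ge_atTop 100]
    with n h1 ⟨hL, h2⟩ h3
  have hk4 := k8_le n
  generalize k8 n = k at *
  have hn : (100 : ℝ) ≤ n := by exact_mod_cast h3
  have a1 : ε ^ 2 * k ≤ 1 / 10000 * (1 / 10000) * (ε * k) := by rw [sq, mul_assoc]; gcongr
  have a2 : 25000 * log n ≤ ε * k := by linarith
  have a3 : ε * k ≤ 1 / 10000 * (1 / 10000) * k := by gcongr
  have hk1 : (1000 : ℝ) ≤ k := by linarith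
  have hs1 : 1 ≤ √n := one_le_sqrt.2 (by linarith)
  have a4 : (k : ℝ) ^ 2 ≤ n := (pow_le_pow_right₀ (by linarith) (by norm_num)).trans
    (hk4.trans (sqrt_le_self_iff.2 (Or.inr (by linarith))))
  have a6 : (k : ℝ) ≤ n := (le_self_pow₀ (by linarith) (by norm_num)).trans a4
  have a7 : ε * k * k ≤ ε * n := by rw [mul_assoc, ← sq]; gcongr
  have a8 : 25000 * (k : ℝ) ≤ ε * k * k := by gcongr; linarith
  have hεn : 1 ≤ ε * n := by linarith
  exact ⟨k, ⟨h1, by linarith, by linarith, by linarith, by linarith, par_t1 hn hεn hL a2,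
    par_p1 hε hk1 hk4 hs1 (by linarith), par_p2 hn hεn hL (by linarith)⟩, par_beta h3 hεn hL h2,
    par_cross hn hεn hL (h2.trans (by gcongr))⟩

end

end Pool.Agent.MP_f80039_co.H9
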