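import Pool.Agent.MP_f80039_co.H9.Tail
import Pool.Agent.MP_f80039_co.H9.Cf

/-! Multiplicative closeness. -/

set_option autoImplicit false

namespace Pool.Agent.MP_f80039_co.H9

section

open Finset Real

/-- `A` equals `B` up to a factor `exp (± η)`. -/
def Near (η A B : ℝ) : Prop := exp (-η) * B ≤ A ∧ A ≤ exp η * B

theorem Near.trans {η η' A B C : ℝ} (h : Near η A B) (h' : Near η' B C) : Near (η + η') A C := by
  refine ⟨le_trans ?_ h.1, h.2.trans ?_⟩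
  · rw [neg_add, exp_add, mul_assoc]; gcongr; exact h'.1
  · rw [exp_add, mul_assoc]; gcongr; exact h'.2

theorem Near.mono {η η' A B : ℝ} (h : Near η A B) (hB : 0 ≤ B) (hη : η ≤ η') : Near η' A B :=
  ⟨le_trans (by gcongr) h.1, h.2.trans (by gcongr)⟩

theorem Near.nonneg {η A B : ℝ} (h : Near η A B) (hB : 0 ≤ B) : 0 ≤ A :=
  le_trans (by positivity) h.1

theorem Near.mul {η η' A B A' B' : ℝ} (h : Near η A B) (h' : Near η' A' B') (hB : 0 ≤ B)
    (hB' : 0 ≤ B') : Near (η + η') (A * A') (B * B') := by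
  have := h.nonneg hB
  have := h'.nonneg hB'
  constructor
  · calc _ = (exp (-η) * B) * (exp (-η') * B') := by rw [neg_add, exp_add]; ring
      _ ≤ _ := by gcongr; exacts [h.1, h'.1]
  · calc _ ≤ (exp η * B) * (exp η' * B') := by gcongr; exacts [h.2, h'.2]
      _ = _ := by rw [exp_add]; ring

theorem Near.mul_left {η A B : ℝ} (h : Near η A B) {c : ℝ} (hc : 0 ≤ c) :
    Near η (c * A) (c * B) :=
  ⟨by rw [mul_left_comm]; gcongr; exact h.1, by rw [mul_left_comm]; gcongr; exact h.2⟩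

theorem Near.symm {η A B : ℝ} (h : Near η A B) : Near η B A := by
  have e : exp (-η) * exp η = 1 := by rw [← exp_add]; simp
  constructor
  · calc exp (-η) * A ≤ exp (-η) * (exp η * B) := by gcongr; exact h.2
      _ = B := by rw [← mul_assoc, e, one_mul]
  · calc B = exp η * (exp (-η) * B) := by rw [← mul_assoc, mul_comm (exp η), e, one_mul]
      _ ≤ _ := by gcongr; exact h.1

theorem near_refl (A : ℝ) : Near 0 A A := by simp [Near]

theorem near_exp {η a b : ℝ} (h : |a - b| ≤ η) : Near η (exp a) (exp b) := by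
  rw [abs_le] at h
  constructor <;> rw [← exp_add] <;> apply exp_le_exp.2 <;> linarith [h.1, h.2]

theorem near_log {η A b : ℝ} (hA : 0 < A) (h : |log A - b| ≤ η) : Near η A (exp b) := by
  simpa [exp_log hA] using near_exp h

theorem Ex_near {Ω : Type*} [Fintype Ω] {f g : Ω → ℝ} {η : ℝ} (h : ∀ ω, Near η (f ω) (g ω)) :
    Near η (Ex f) (Ex g) := by
  rw [Near, ← Ex_mul, ← Ex_mul]
  exact ⟨Ex_mono fun ω => (h ω).1, Ex_mono fun ω => (h ω).2⟩

theorem Ex_near_on {Ω : Type*} [Fintype Ω] {f g : Ω → ℝ} {H : Ω → Prop} {η η' K ρ : ℝ}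
    (hf : ∀ ω, 0 ≤ f ω ∧ f ω ≤ K) (hg : ∀ ω, 0 ≤ g ω ∧ g ω ≤ K)
    (h : ∀ ω, H ω → Near η (f ω) (g ω)) (hH : Pr (fun ω => ¬ H ω) ≤ ρ) (hK : 0 ≤ K)
    (hρ : K * ρ ≤ η' * Ex g) (h0 : 0 ≤ η) (h1 : 0 ≤ η') (h2 : η' ≤ 1 / 2) :
    Near (η + 2 * η') (Ex f) (Ex g) := by
  have hE : 0 ≤ Ex g := Ex_nonneg fun ω => (hg ω).1
  have h3 : K * Pr (fun ω => ¬ H ω) ≤ η' * Ex g := le_trans (by gcongr) hρ
  have e1 := one_le_exp h0
  have e2 : exp (-η) ≤ 1 := exp_le_one_iff.2 (by linarith)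
  constructor
  · have : exp (-η) * (Ex g - K * Pr fun ω => ¬ H ω) ≤ Ex f := by
      rw [Pr, ← Ex_mul, ← Ex_sub, ← Ex_mul]
      refine Ex_mono fun ω => ?_
      by_cases hω : H ω
      · rw [ind_neg (not_not.2 hω), mul_zero, sub_zero]; exact (h ω hω).1
      · rw [ind_pos hω, mul_one]
        exact le_trans (mul_nonpos_of_nonneg_of_nonpos (exp_pos _).le
          (by linarith [(hg ω).2])) (hf ω).1
    refine le_trans ?_ this
    rw [neg_add, exp_add, mul_assoc]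
    gcongr
    nlinarith [exp_neg_two_le h1 h2]
  · have : Ex f ≤ exp η * Ex g + K * Pr fun ω => ¬ H ω := by
      rw [Pr, ← Ex_mul, ← Ex_mul, ← Ex_add]
      refine Ex_mono fun ω => ?_
      by_cases hω : H ω
      · rw [ind_neg (not_not.2 hω), mul_zero, add_zero]; exact (h ω hω).2
      · rw [ind_pos hω, mul_one]
        nlinarith [(hf ω).2, (hg ω).1]
    refine this.trans ?_
    rw [exp_add]
    have := add_one_le_exp (2 * η')
    have : η' * Ex g ≤ exp η * (η' * Ex g) := le_mul_of_one_le_left (by positivity) e1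
    have : exp η * (2 * η' + 1) * Ex g ≤ exp η * exp (2 * η') * Ex g := by gcongr
    nlinarith [mul_nonneg h1 hE]

end

section

open Finset Real

theorem Pr_or_le {Ω : Type*} [Fintype Ω] (p q : Ω → Prop) :
    Pr (fun ω => p ω ∨ q ω) ≤ Pr p + Pr q := by
  simpa [or_iff_not_imp_left] using Pr_not_and (fun ω => ¬ p ω) fun ω => ¬ q ω

variable {ι : Type*} [Fintype ι] [DecidableEq ι] {α : ι → Type*} [∀ i, Fintype (α i)]
  [∀ i, Nonempty (α i)]

theorem hoeffding_abs (Y : ∀ i, α i → ℝ) (hY : ∀ i a, |Y i a| ≤ 1) {n δ : ℝ}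
    (hn : Fintype.card ι = n) (hδ : 0 < δ) (hδn : δ ≤ 4 * n) :
    Pr (fun x : ∀ i, α i => ¬ |∑ i, Y i (x i) - ∑ i, Ex (Y i)| ≤ δ) ≤
      2 * exp (-(δ ^ 2 / (16 * n))) := by
  have h1 := hoeffding Y hY hn hδ hδn
  have h2 := hoeffding (fun i a => -1 * Y i a) (by simpa using hY) hn hδ hδn
  simp only [Ex_mul, ← mul_sum] at h2
  refine le_trans (Pr_mono fun x hx => ?_) ((Pr_or_le _ _).trans
    ((add_le_add h1 h2).trans_eq (by ring)))
  by_contra h
  rw [not_or, not_lt, not_lt] at h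
  exact hx (abs_le.2 ⟨by linarith [h.1], by linarith [h.2]⟩)

theorem tiltA {ξ : ∀ i, α i → ℝ} (hξ : ∀ i a, |ξ i a| ≤ 1) (hξ0 : ∀ i, Ex (ξ i) = 0)
    {c : ι → ℝ} {n m k v S ε η : ℝ} (hn : Fintype.card ι = n) (hm : 42 ≤ m) (hmn : m ≤ n)
    (hk : 0 < k) (hkm : k ≤ m) (hε : 0 < ε) (hε1 : ε ≤ 1) (hc : ∀ i, |c i| ≤ 3 / m)
    (hc' : ∀ i, |(m - 2) / 2 * c i - 1| ≤ 6 / m) (hv : n / 7 ≤ v) (hS : n / 7 ≤ S)
    (hvS : |v - S| ≤ 4 * n / m) (P : (∀ i, α i) → Prop) (hη : 0 ≤ η) (hη1 : η ≤ 1 / 2)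
    (hP : exp 24 * (4 * exp (-(ε * k / 16))) ≤
      η * Ex fun x => ind (P x) * exp ((∑ i, ξ i (x i)) / S)) :
    Near (700 * √(ε / (n * m)) + 2 * η)
      (Ex fun x => ind (P x) * exp (-((m - 2) / 2 * (log (v - ∑ i, c i * ξ i (x i)) - log v))))
      (Ex fun x => ind (P x) * exp ((∑ i, ξ i (x i)) / S)) := by
  have hm0 : 0 < m := by linarith
  have hn0 : 0 < n := by linarith
  have hv0 : 0 < v := by linarith
  have hS0 : 0 < S := by linarith
  set κ : ι → ℝ := fun i => (m - 2) / 2 * c i / v - 1 / S with hκ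
  have hκb : ∀ i, |κ i| ≤ 240 / (n * m) := by
    intro i
    have e : κ i = ((m - 2) / 2 * c i - 1) / v - (v - S) / (v * S) := by
      simp only [hκ]; field_simp; ring
    have a1 : |((m - 2) / 2 * c i - 1) / v| ≤ 6 / m / (n / 7) := by
      rw [abs_div, abs_of_pos hv0]; gcongr; exact hc' i
    have a2 : |(v - S) / (v * S)| ≤ 4 * n / m / (n / 7 * (n / 7)) := by
      rw [abs_div, abs_of_pos (mul_pos hv0 hS0)]; gcongr
    rw [e]
    refine (abs_sub _ _).trans ((add_le_add a1 a2).trans ?_)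
    rw [show 6 / m / (n / 7) + 4 * n / m / (n / 7 * (n / 7)) = 238 / (n * m) by
      field_simp; norm_num]
    gcongr
    norm_num
  obtain ⟨δ, hδ⟩ : ∃ δ, δ = √(ε * n * k) := ⟨_, rfl⟩
  have hδ0 : 0 < δ := by rw [hδ]; positivity
  have hδ2 : δ ^ 2 = ε * n * k := by rw [hδ, sq_sqrt (by positivity)]
  have hδn : δ ≤ n := by
    refine le_of_sq_le_sq ?_ hn0.le
    rw [hδ2, sq]
    calc _ ≤ 1 * n * n := by gcongr; linarith
      _ = _ := by ring
  have hsum : ∀ (Y : ι → ℝ) (K : ℝ), 0 < K → (∀ i, |Y i| ≤ K) →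
      Pr (fun x : ∀ i, α i => ¬ |∑ i, Y i * ξ i (x i)| ≤ K * δ) ≤ 2 * exp (-(ε * k / 16)) := by
    intro Y K hK hY
    have := hoeffding_abs (fun i a => Y i / K * ξ i a) (fun i a => by
      rw [abs_mul, abs_div, abs_of_pos hK]
      exact mul_le_one₀ ((div_le_one hK).2 (hY i)) (abs_nonneg _) (hξ i a)) hn hδ0 (by linarith)
    simp only [Ex_mul, hξ0, mul_zero, sum_const_zero, sub_zero] at this
    rw [show δ ^ 2 / (16 * n) = ε * k / 16 by rw [hδ2]; field_simp] at this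
    refine le_trans (Pr_mono fun x hx => ?_) this
    simp only [div_mul_eq_mul_div, ← sum_div]
    rwa [abs_div, abs_of_pos hK, div_le_iff₀' hK]
  have hall : ∀ (Y : ι → ℝ) (K : ℝ), (∀ i, |Y i| ≤ K) → ∀ x : ∀ i, α i,
      |∑ i, Y i * ξ i (x i)| ≤ K * n := by
    intro Y K hY x
    refine (abs_sum_le_sum_abs _ _).trans ((sum_le_sum fun i _ => (?_ : _ ≤ K)).trans
      (by simp [hn, mul_comm]))
    rw [abs_mul]
    exact (mul_le_of_le_one_right (abs_nonneg _) (hξ i _)).trans (hY i)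
  have hid : ∀ x : ∀ i, α i, ∑ i, κ i * ξ i (x i) =
      (m - 2) / 2 * ((∑ i, c i * ξ i (x i)) / v) - (∑ i, ξ i (x i)) / S := by
    intro x
    simp only [hκ, sum_div, mul_sum, ← sum_sub_distrib]
    exact sum_congr rfl fun i _ => by ring
  have hg : ∀ x : ∀ i, α i, (∑ i, ξ i (x i)) / S ≤ 7 := fun x => by
    have := hall (fun _ => 1) 1 (by simp) x
    simp only [one_mul] at this
    rw [div_le_iff₀ hS0]
    linarith [le_abs_self (∑ i, ξ i (x i))]
  have hb : ∀ (x : ∀ i, α i) (y : ℝ), y ≤ 24 → 0 ≤ ind (P x) * exp y ∧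
      ind (P x) * exp y ≤ exp 24 := fun x y hy =>
    ⟨mul_nonneg (ind_nonneg _) (exp_pos _).le,
      (mul_le_of_le_one_left (exp_pos _).le (ind_le_one _)).trans (exp_le_exp.2 hy)⟩
  have hθ : ε / n ≤ √(ε / (n * m)) := by
    refine le_sqrt_of_sq_le ?_
    rw [div_pow, div_le_div_iff₀ (by positivity) (by positivity)]
    have : ε * m ≤ 1 * n := by gcongr
    nlinarith [mul_pos hε hn0]
  refine Ex_near_on (H := fun x => |∑ i, c i * ξ i (x i)| ≤ 3 / m * δ ∧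
    |∑ i, κ i * ξ i (x i)| ≤ 240 / (n * m) * δ) (K := exp 24) (ρ := 4 * exp (-(ε * k / 16)))
    (fun x => hb x _ ?_) (fun x => hb x _ (by linarith [hg x])) (fun x hx => ?_) ?_
    (exp_pos _).le hP (by positivity) hη hη1
  · have h1 := abs_le.1 (tilt_num (δ := n) hn0 hm hv ((hall c _ hc x).trans_eq (by ring)) le_rfl
      ((hall κ _ hκb x).trans_eq (by ring)) (hid x))
    have h2 : 240 * n / (n * m) + 441 * n ^ 2 / (n ^ 2 * m) = 681 / m := by field_simp; norm_num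
    have h3 : 681 / m ≤ 17 := by rw [div_le_iff₀ hm0]; linarith
    linarith [h1.2, hg x]
  · refine (near_exp ((tilt_num (δ := δ) hn0 hm hv (hx.1.trans_eq (by ring)) hδn
      (hx.2.trans_eq (by ring)) (hid x)).trans ?_)).mul_left (ind_nonneg _)
    have a1 : δ / (n * m) ≤ √(ε / (n * m)) := by
      refine le_sqrt_of_sq_le ?_
      rw [div_pow, hδ2, div_le_div_iff₀ (by positivity) (by positivity)]
      have : ε * n * k * (n * m) ≤ ε * n * m * (n * m) := by gcongr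
      nlinarith
    have a2 : δ ^ 2 / (n ^ 2 * m) ≤ ε / n := by
      rw [hδ2, div_le_div_iff₀ (by positivity) hn0]
      have : ε * n * k * n ≤ ε * n * m * n := by gcongr
      nlinarith
    rw [mul_div_assoc, mul_div_assoc]
    linarith [sqrt_nonneg (ε / (n * m))]
  · linarith [Pr_not_and (fun x : ∀ i, α i => |∑ i, c i * ξ i (x i)| ≤ 3 / m * δ)
      fun x => |∑ i, κ i * ξ i (x i)| ≤ 240 / (n * m) * δ, hsum c _ (by positivity) hc,
      hsum κ _ (by positivity) hκb]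

end

section

open Finset Real

theorem Near.add {η η' A B r : ℝ} (h : Near η A B) (hB : 0 ≤ B) (h0 : 0 ≤ η) (h1 : 0 ≤ η')
    (hr : 0 ≤ r) (hr' : r ≤ η' * B) : Near (η + η') (A + r) B := by
  refine ⟨le_trans ?_ (add_le_add h.1 hr), (add_le_add h.2 hr').trans ?_⟩
  · rw [add_zero]; gcongr; linarith
  · have h2 : exp η * (η' + 1) * B ≤ exp η * exp η' * B := by gcongr; exact add_one_le_exp _
    have h3 : 1 * (η' * B) ≤ exp η * (η' * B) := by gcongr; exact one_le_exp h0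
    rw [exp_add]
    linarith

theorem near_mul {η F A B : ℝ} (hF : 0 ≤ F) (h : F ≠ 0 → Near η A B) : Near η (F * A) (F * B) := by
  by_cases h0 : F = 0
  · simp [h0, Near]
  · exact (h h0).mul_left hF

/-- `A` equals `B` up to a factor `exp (± η)` and a term `± δ`. -/
def Nr (η δ A B : ℝ) : Prop := exp (-η) * B - δ ≤ A ∧ A ≤ exp η * (B + δ)

theorem Nr.avg {Ω : Type*} [Fintype Ω] [Nonempty Ω] {η δ A : ℝ} {B : Ω → ℝ}
    (h : ∀ ω, Nr η δ A (B ω)) : Nr η δ A (Ex B) := by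
  have h1 := Ex_le_const fun ω => (h ω).1
  have h2 := const_le_Ex fun ω => (h ω).2
  simp only [Ex_sub, Ex_add, Ex_mul, Ex_const] at h1 h2
  exact ⟨h1, h2⟩

theorem Nr.trans {η δ η' δ' A B C : ℝ} (h : Nr η δ A B) (h0 : 0 ≤ η) (h0' : 0 ≤ η') (hδ : 0 ≤ δ)
    (hδ' : 0 ≤ δ') (h1 : exp (-η') * C - δ' ≤ B) (h2 : B ≤ exp η' * C + δ') :
    Nr (η + η') (δ + δ') A C := by
  have e1 : exp (-η) * δ' ≤ 1 * δ' := by gcongr; exact exp_le_one_iff.2 (by linarith)
  have e2 : 1 * (δ + δ') ≤ exp η' * (δ + δ') := by gcongr; exact one_le_exp h0'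
  have e3 := mul_le_mul_of_nonneg_left h1 (exp_pos (-η)).le
  refine ⟨le_trans ?_ h.1, h.2.trans ?_⟩
  · rw [neg_add, exp_add]; linarith
  · rw [exp_add, mul_assoc]; gcongr; linarith

theorem Nr.mono {η δ η' δ' A B : ℝ} (h : Nr η δ A B) (hB : 0 ≤ B) (hδ : 0 ≤ δ) (h1 : η ≤ η')
    (h2 : δ ≤ δ') : Nr η' δ' A B :=
  ⟨le_trans (by gcongr) h.1, h.2.trans (by gcongr)⟩

theorem near_avg {Ω : Type*} [Fintype Ω] [Nonempty Ω] {a s B : ℝ} {y J : Ω → ℝ} (hB : 0 ≤ B)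
    (h0 : ∀ ω, 0 ≤ y ω) (h1 : ∀ ω, y ω ≤ 1) (hs : Ex y ≤ s) (h : ∀ ω, Near (a + y ω) (J ω) B) :
    Near (a + 2 * s) (Ex J) B := by
  have hs0 : 0 ≤ s := (Ex_nonneg h0).trans hs
  constructor
  · have h2 := Ex_mono fun ω => (h ω).1
    have h3 := exp_Ex_le fun ω => -(a + y ω)
    simp only [neg_eq_neg_one_mul (a + y _), Ex_mul, Ex_add, Ex_const, Ex_mul'] at h2 h3
    refine le_trans ?_ h2
    gcongr
    exact le_trans (exp_le_exp.2 (by linarith)) h3
  · have h2 : Ex J ≤ Ex fun ω => exp a * (1 + 2 * y ω) * B := Ex_mono fun ω => (h ω).2.trans (by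
      rw [exp_add]
      gcongr
      refine (exp_le_quad (abs_le.2 ⟨by linarith [h0 ω], h1 ω⟩)).trans ?_
      nlinarith [h0 ω, h1 ω])
    simp only [Ex_mul, Ex_add, Ex_const, Ex_mul'] at h2
    refine h2.trans ?_
    rw [exp_add]
    gcongr
    linarith [add_one_le_exp (2 * s)]

theorem near_off {Ω : Type*} [Fintype Ω] {F J P : Ω → ℝ} {G : Ω → Prop} {η β : ℝ} (h0 : 0 ≤ η)
    (hF : ∀ ω, 0 ≤ F ω ∧ F ω ≤ 1) (hJ : ∀ ω, 0 ≤ J ω ∧ J ω ≤ 1) (hP : ∀ ω, 0 ≤ P ω ∧ P ω ≤ 1)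
    (hG : Pr (fun ω => ¬ G ω) ≤ β) (h : ∀ ω, F ω ≠ 0 → G ω → Near η (J ω) (P ω)) :
    exp (-η) * (Ex fun ω => F ω * P ω) - β ≤ (Ex fun ω => F ω * J ω) ∧
      (Ex fun ω => F ω * J ω) ≤ exp η * (Ex fun ω => F ω * P ω) + β := by
  have h1 : ∀ ω, exp (-η) * (F ω * P ω) - ind (¬ G ω) ≤ F ω * J ω ∧
      F ω * J ω ≤ exp η * (F ω * P ω) + ind (¬ G ω) := by
    intro ω
    by_cases hω : G ω
    · simpa [ind_neg (not_not.2 hω), Near] using near_mul (hF ω).1 fun h' => h ω h' hω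
    · have a1 := mul_nonneg (hF ω).1 (hJ ω).1
      have a2 := mul_nonneg (hF ω).1 (hP ω).1
      have a3 := mul_le_one₀ (hF ω).2 (hJ ω).1 (hJ ω).2
      have a4 := mul_le_one₀ (exp_le_one_iff.2 (by linarith : -η ≤ 0)) a2
        (mul_le_one₀ (hF ω).2 (hP ω).1 (hP ω).2)
      rw [ind_pos (p := ¬ G ω) hω]
      exact ⟨by linarith, by linarith [mul_nonneg (exp_pos η).le a2]⟩
  have h2 := Ex_mono fun ω => (h1 ω).1
  have h3 := Ex_mono fun ω => (h1 ω).2
  rw [Ex_sub, Ex_mul] at h2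
  rw [Ex_add, Ex_mul] at h3
  unfold Pr at hG
  exact ⟨by linarith, by linarith⟩

theorem Nr.near {η δ η' A B : ℝ} (h : Nr η δ A B) (h1 : η ≤ 1) (h0' : 0 ≤ η') (h1' : η' ≤ 1 / 2)
    (hδ : 3 * δ ≤ η' * B) (hB : 0 ≤ B) : Near (η + 2 * η') A B := by
  have hB' := mul_nonneg h0' hB
  constructor
  · have a2 : 1 / 3 ≤ exp (-η) := by
      refine le_trans ?_ (exp_le_exp.2 (neg_le_neg h1))
      rw [exp_neg, one_div]
      exact inv_anti₀ (exp_pos _) (by linarith [exp_one_lt_d9])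
    calc _ ≤ exp (-η) * (1 - η') * B := by
          rw [neg_add, exp_add]; gcongr; exact exp_neg_two_le h0' h1'
      _ ≤ _ := by nlinarith [h.1]
  · refine h.2.trans ?_
    rw [exp_add, mul_assoc]
    gcongr
    nlinarith [add_one_le_exp (2 * η')]

theorem Nr.of_near {η δ η' A B C : ℝ} (h : Nr η δ A B) (h' : Near η' B C) (h0 : 0 ≤ η)
    (h0' : 0 ≤ η') (hδ : 0 ≤ δ) : Nr (η + η') δ A C := by
  simpa using h.trans h0 h0' hδ le_rfl (by simpa using h'.1) (by simpa using h'.2)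

theorem cols_num {η ε δ c Y Z W E : ℝ} (he : 0 < ε) (he1 : ε ≤ 1 / 1000) (h0 : 0 ≤ η)
    (hη : η ≤ 1 / 2) (hc : |c + 1 / 2 - Y| ≤ ε) (hδ0 : 0 ≤ δ) (hδ : 8 * δ ≤ ε * exp Y)
    (h1 : exp (c + (1 / 2 - ε)) ≤ E) (h2 : exp (-η) * E - δ ≤ Z) (h3 : W ≤ exp η * (exp c + δ))
    (h4 : exp (-(1 / 2)) * ((1 - 7 * ε) * Z - 5 * δ) ≤ W) : Near (η + 16 * ε) Z (exp Y) := by
  rw [abs_le] at hc
  have a0 : exp 1 ≤ 3 := by linarith [exp_one_lt_d9]
  constructor
  · have a1 : exp (-η) * exp (-(2 * ε) + Y) ≤ exp (-η) * E := by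
      gcongr; exact le_trans (exp_le_exp.2 (by linarith [hc.1])) h1
    have a2 : 1 / 3 ≤ exp (-(η + 2 * ε)) := by
      refine le_trans ?_ (exp_le_exp.2 (by linarith : -1 ≤ -(η + 2 * ε)))
      rw [exp_neg, one_div]
      exact inv_anti₀ (exp_pos _) a0
    have a3 := exp_neg_two_le he.le (by linarith)
    rw [← exp_add, show -η + (-(2 * ε) + Y) = -(η + 2 * ε) + Y by ring, exp_add] at a1
    calc _ ≤ exp (-(η + 2 * ε) + -(2 * ε)) * exp Y := by gcongr; linarith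
      _ ≤ exp (-(η + 2 * ε)) * (1 - ε) * exp Y := by rw [exp_add]; gcongr
      _ ≤ _ := by nlinarith [mul_le_mul_of_nonneg_right a2 (mul_pos he (exp_pos Y)).le]
  · have a1 : (1 - 7 * ε) * Z - 5 * δ ≤ exp (1 / 2) * (exp η * (exp c + δ)) := by
      have := mul_le_mul_of_nonneg_left (h4.trans h3) (exp_pos (1 / 2)).le
      rwa [← mul_assoc, ← exp_add, add_neg_cancel, exp_zero, one_mul] at this
    have a2 : exp (1 / 2) * exp η * δ ≤ 3 * δ := by
      gcongr; rw [← exp_add]; exact (exp_le_exp.2 (by linarith)).trans a0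
    have a3 : exp (1 / 2) * exp η * exp c ≤ exp (η + ε) * exp Y := by
      rw [← exp_add, ← exp_add, ← exp_add]; exact exp_le_exp.2 (by linarith [hc.2])
    have a5 : exp (η + ε) * (ε + 1) * exp Y ≤ exp (η + ε) * exp ε * exp Y := by
      gcongr; exact add_one_le_exp _
    have a6 : 1 * (ε * exp Y) ≤ exp (η + ε) * (ε * exp Y) := by
      gcongr; exact one_le_exp (by linarith)
    have a7 : (1 - 7 * ε) * Z ≤ exp (η + ε) * exp ε * exp Y := by linarith
    have a8 := exp_neg_two_le (by linarith : 0 ≤ 7 * ε) (by linarith)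
    by_cases hZ : Z ≤ 0
    · exact hZ.trans (by positivity)
    have a9 := mul_le_mul_of_nonneg_left ((mul_le_mul_of_nonneg_right a8 (not_le.1 hZ).le).trans a7)
      (exp_pos (2 * (7 * ε))).le
    rw [← mul_assoc, ← exp_add, add_neg_cancel, exp_zero, one_mul, ← mul_assoc, ← exp_add,
      ← exp_add] at a9
    exact a9.trans_eq (by ring_nf)

end

end Pool.Agent.MP_f80039_co.H9
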