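import Pool.Agent.MP_f80039_co.H9.Steps
import Pool.Agent.MP_f80039_co.H9.Core

/-! The probability that a random arrangement is magic. -/

set_option autoImplicit false

namespace Pool.Agent.MP_f80039_co.H9

section

open Finset Real

variable {n k : ℕ} {ε : ℝ} {x : Om n} {t : ℤ}

/-- The sum of the squares of all normalised values. -/
noncomputable def TT (n : ℕ) : ℝ := n ^ 2 / 12 - 1 / (12 * n ^ 2)

/-- The sum of the squares of the row sums. -/
noncomputable def SR (x : Om n) : ℝ := ∑ a, (∑ b, yv (x (a, b))) ^ 2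

/-- The logarithm of the Gaussian term for all columns. -/
noncomputable def LA (n : ℕ) : ℝ := 1 / 2 * log n - (n - 1) / 2 * LG n

theorem sum_sq (hn : 1 ≤ n) (x : Om n) : ∑ a, ∑ b, yv (x (a, b)) ^ 2 = TT n := by
  have : Nonempty (Fin (n ^ 2)) := ⟨⟨0, by positivity⟩⟩
  have hn' : (0 : ℝ) < n := by exact_mod_cast hn
  have h1 : Ex (yv (n := n)) = 0 := by
    have := Ex_equiv Fin.revPerm (yv (n := n))
    simp only [Fin.revPerm_apply, yv_rev, neg_eq_neg_one_mul (yv _), Ex_mul] at this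
    linarith
  have h2 := mean_kq hn
  simp only [mean, funext fun v => funext (kq_eq (n := n) v), vr_eq, vr, h1, sub_zero] at h2
  rw [← Fintype.sum_prod_type', Equiv.sum_comp x fun v => yv v ^ 2]
  rw [Ex, Fintype.card_fin] at h2
  push_cast at h2
  field_simp at h2
  rw [TT]
  field_simp
  linarith

theorem avq_eq (x : Om n) (a : Fin n) {U : Finset (Fin n)} (hU : 2 ≤ U.card) :
    avq x a U = 2 / (U.card - 1) *
      (∑ b ∈ U, yv (x (a, b)) ^ 2 - (∑ b ∈ U, yv (x (a, b))) ^ 2 / U.card) := by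
  have h1 : (2 : ℝ) ≤ U.card := by exact_mod_cast hU
  have : (U.card : ℝ) - 1 ≠ 0 := by linarith
  simp only [avq, av, kq_eq, sub_sq, sum_add_distrib, sum_sub_distrib, sum_const, nsmul_eq_mul,
    ← mul_sum, ← sum_mul]
  field_simp
  ring

theorem second_moment (ht : 2 * t = n * (n ^ 2 - 1)) (hn : 1 ≤ n) {G : Om n → ℝ}
    (hG : InvF (fun _ => univ) G) :
    (Ex fun x => G x * SR (act (Equiv.prodComm _ _) x)) = Ex fun x => G x * (TT n - SR x / n) := by
  have hn' : (0 : ℝ) < n := by exact_mod_cast hn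
  have h1 : ∀ b : Fin n, (Ex fun x => G x * (∑ a, yv (x (a, b))) ^ 2) =
      Ex fun x => G x * (TT n - SR x / n) / n := by
    intro b
    rw [hG.resample fun _ => b]
    refine Ex_congr fun x => ?_
    have h2 := Ex_sq_sum fun a (c : V (fun _ => univ) (fun _ => b) a) => yv (x (a, c))
    have h3 := fun a => Ex_V_active (U := fun _ => univ) (p := fun _ => b) (a := a) (mem_univ _)
      fun c => yv (x (a, c))
    have h4 := fun a => Ex_V_active (U := fun _ => univ) (p := fun _ => b) (a := a) (mem_univ _)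
      fun c => yv (x (a, c)) ^ 2
    simp only [h3, h4, ← sum_div,
      show ∑ a, ∑ c, yv (x (a, c)) = 0 from tot_univ ht x, zero_div, sub_zero, card_univ,
      Fintype.card_fin, sum_sub_distrib, sum_sq hn, div_pow] at h2
    simp only [sw_apply, Equiv.swap_apply_left, h2, SR]
    field_simp
  simp only [SR, mul_sum, Ex_sum] at h1 ⊢
  simp only [act_apply, Equiv.prodComm_apply, Prod.swap_prod_mk, h1, sum_const, card_univ,
    Fintype.card_fin, nsmul_eq_mul, ← Ex_mul]
  exact Ex_congr fun x => by field_simp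

theorem Ex_SR (ht : 2 * t = n * (n ^ 2 - 1)) (hn : 1 ≤ n) :
    Ex (SR (n := n)) = TT n * (n / (n + 1)) := by
  have hn' : (0 : ℝ) < n := by exact_mod_cast hn
  have := second_moment ht hn (G := fun _ => 1) fun _ _ _ => rfl
  simp only [one_mul, Ex_equiv, Ex_sub, Ex_const, div_eq_mul_inv _ (n : ℝ), Ex_mul'] at this
  field_simp at this ⊢
  linarith

theorem Ex_cols_SR (ht : 2 * t = n * (n ^ 2 - 1)) (hn : 1 ≤ n) :
    (Ex fun x : Om n => ind (Cols t n x) * SR x) = TT n * Pr (Cols (n := n) t n) := by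
  have h1 := second_moment ht hn (inv_rows (t := t)).ind
  rw [← Ex_equiv (act (Equiv.prodComm _ _))] at h1
  simp only [rows_tr] at h1
  refine h1.trans ?_
  rw [← Pr_tr _ _ rows_tr, Pr, ← Ex_mul]
  refine Ex_congr fun x => ?_
  by_cases h : Rows t x
  · have : SR x = 0 := sum_eq_zero fun a _ => by
      rw [show ∑ b, yv (x (a, b)) = 0 from
        (line_iff ht (fun _ => a) (act (Equiv.prodComm _ _) x)).1 (h a)]
      simp
    rw [this]; ring
  · simp [ind_neg h]

theorem sav_univ (hn : 2 ≤ n) (x : Om n) :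
    sav (kq n) (fun _ => univ) x = 2 / (n - 1) * (TT n - SR x / n) := by
  rw [← sum_sq (by omega) x, SR, sum_div, ← sum_sub_distrib, mul_sum]
  exact sum_congr rfl fun a _ => by simpa [avq] using avq_eq x a (U := univ) (by simpa using hn)

theorem TT_bounds (hn : (1000 : ℝ) ≤ n) : (n : ℝ) ^ 2 / 13 ≤ TT n ∧ TT n ≤ n ^ 2 / 12 ∧
    n ^ 2 / 12 - 1 ≤ TT n := by
  have h1 : 1 / (12 * (n : ℝ) ^ 2) ≤ 1 := by rw [div_le_one (by positivity)]; nlinarith
  have h2 : 0 ≤ 1 / (12 * (n : ℝ) ^ 2) := by positivity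
  unfold TT
  exact ⟨by nlinarith, by linarith, by linarith⟩

theorem Par2.psiA (h : Par2 n k ε) : ∃ c : ℝ, ∃ u : Om n → ℝ,
    (∀ x, ph (fun _ => ∅) univ x - co (fun _ => ∅) univ x = c + u x) ∧
    |c + 1 / 2 - (LA n - 1 / 4)| ≤ ε ∧ InvF (UW (fun _ => ∅) univ) u ∧
    (∀ x, (n - 1) / (2 * n * TT n) * SR x ≤ u x) ∧
    ∀ x, u x ≤ (1 + 14 * ε) / (2 * TT n) * SR x + 5 * n * ind (¬ Good2 ε (fun _ => univ) x) := by
  have hn := h.nge
  have hn0 : (0 : ℝ) < n := by linarith
  have he := h.e0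
  obtain ⟨T1, T2, T3⟩ := TT_bounds (n := n) (by linarith)
  have T0 : 0 < TT n := lt_of_lt_of_le (by positivity) T1
  have hU : UW (n := n) (fun _ => ∅) univ = fun _ => univ := by funext a; simp [UW]
  obtain ⟨v0, hv0⟩ : ∃ v0, v0 = 2 / (n - 1) * TT n := ⟨_, rfl⟩
  have e0 : (n - 1) / 2 * v0 = TT n := by
    have : (n : ℝ) - 1 ≠ 0 := by linarith
    rw [hv0]; field_simp
  have hv : ∀ x : Om n, sav (kq n) (fun _ => univ) x = v0 * (1 - SR x / (n * TT n)) := fun x => by
    rw [sav_univ (by exact_mod_cast (by linarith : (2 : ℝ) ≤ n)), hv0]; field_simp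
  obtain ⟨v1, v2⟩ := log_shift (n := n) (j := 1) (e := 0) (v := v0) (by linarith) zero_le_one
    (by norm_num) (by simp; positivity) (by rw [e0, abs_le]; constructor <;> linarith)
  have v3 : n / 7 ≤ v0 := by nlinarith
  have v4 : v0 ≤ n / 5 := by nlinarith
  have hz : ∀ x : Om n, 0 ≤ SR x / (n * TT n) := fun x => by unfold SR; positivity
  have hg := fun x : Om n => gap_bounds hn0 v3 v4 (hz x) (by
    have : 0 ≤ sav (kq n) (fun _ => univ) x := sum_nonneg fun a _ => avq_nonneg x a _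
    rw [hv] at this
    linarith [nonneg_of_mul_nonneg_right this v1])
  have hπ : π * (n : ℝ) ^ 4 ≠ 0 := by have := pi_pos; positivity
  refine ⟨1 / 2 * log n - (n - 1) / 2 * log (π * n ^ 4 * v0) - 1 / 4, fun x => (n - 1) / 2 *
    (log v0 - log (max (sav (kq n) (fun _ => univ) x) (n / 50))), fun x => ?_, ?_,
    fun g hg x => by simp only [sav_act (hU ▸ hg)], fun x => ?_, fun x => ?_⟩
  · simp only [ph, co, qq, dd, ii, hU, card_univ, Fintype.card_fin, notMem_empty, ind_neg not_false]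
    rw [log_mul hπ v1.ne', log_mul hπ (lt_max_of_lt_right (by positivity)).ne']
    simp
    field_simp
    ring
  · rw [LA, LG, show π * n ^ 5 / 6 = π * n ^ 4 * (n / 6) by ring, log_mul hπ v1.ne',
      log_mul hπ (by positivity)]
    have : 100 / (n : ℝ) ≤ ε := by rw [div_le_iff₀ hn0]; linarith [h.en]
    rw [abs_le] at v2 ⊢
    constructor <;> linarith [v2.1, v2.2, show 6 * 0 / (n : ℝ) = 0 by simp]
  · simp only [hv]
    calc _ = (n - 1) / 2 * (SR x / (n * TT n)) := by field_simp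
      _ ≤ _ := by gcongr; exacts [by linarith, (hg x).1]
  · simp only [hv]
    by_cases hG : Good2 ε (fun _ => univ) x
    · have a1 : SR x ≤ n ^ 2 / 2 * (ε * n) := by
        refine le_trans (sum_le_sum fun a _ => ?_) (le_trans (mul_sum _ _ _).ge
          (mul_le_mul_of_nonneg_left hG.2.2.1 (by positivity)))
        have := abs_mom_le 1 x a univ
        rw [← card_mul_mom, mul_pow, ← sq_abs (mom _ _ _ _), card_univ, Fintype.card_fin]
        nlinarith [mul_nonneg (sq_nonneg (n : ℝ)) (abs_nonneg (mom 1 x a univ))]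
      have a2 : SR x / (n * TT n) ≤ 7 * ε := by
        rw [div_le_iff₀ (by positivity)]
        nlinarith [mul_le_mul_of_nonneg_left T1 (mul_pos he hn0).le, mul_pos (mul_pos he hn0) T0]
      rw [ind_neg (not_not.2 hG), mul_zero, add_zero]
      calc _ ≤ n / 2 * ((1 + 14 * ε) * (SR x / (n * TT n))) := by
            gcongr
            · exact (hz x).trans (hg x).1
            · linarith
            · nlinarith [(hg x).2.2 (by linarith [h.e1]), hz x]
        _ = _ := by field_simp
    · rw [ind_pos (p := ¬ _) hG]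
      have a1 : 0 ≤ (1 + 14 * ε) / (2 * TT n) * SR x := by unfold SR; positivity
      nlinarith [(hg x).2.1]

theorem Par2.cols (h : Par2 n k ε) (ht : 2 * t = n * (n ^ 2 - 1)) (hs : √ε ≤ 1 / 10000)
    (hβ : n * beta2 n k ε ≤ ε * exp (-(n * LG n + 5))) :
    Near (71 * ε + 4000 * √ε) (Pr (Cols (n := n) t n)) (exp (LA n - 1 / 4)) := by
  have hn := h.nge
  have hn0 : (0 : ℝ) < n := by linarith
  have hn1 : 1 ≤ n := by exact_mod_cast (by linarith : (1 : ℝ) ≤ n)
  have he := h.e0
  have T0 : 0 < TT n := lt_of_lt_of_le (by positivity) (TT_bounds (n := n) (by linarith)).1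
  have hF : Frz (n := n) fun _ => ∅ := ⟨by simp, by simp [ind]⟩
  obtain ⟨c, u, h1, h2, h3, h4, h5⟩ := h.psiA
  have hu : ∀ x, 0 ≤ u x := fun x => le_trans (mul_nonneg (div_nonneg (by linarith)
    (by positivity)) (by unfold SR; positivity)) (h4 x)
  have h6 := (h.main hF ht (F := fun _ => 1) (by simp) fun _ _ _ => rfl).1
  have h7 := (h.main hF ht (F := fun x => exp (-u x))
    (fun x => ⟨(exp_pos _).le, exp_le_one_iff.2 (by linarith [hu x])⟩)
    fun g hg x => by simp only [h3 g hg x]).2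
  simp only [h1, ← exp_add, neg_add_cancel_comm_assoc, Ex_const, one_mul] at h6 h7
  rw [show 71 * ε + 4000 * √ε = 55 * ε + 4000 * √ε + 16 * ε by ring]
  refine cols_num he h.e1 (by positivity) (by linarith [h.e1]) h2
    (mul_nonneg hn0.le beta2_nonneg) ?_ ?_ h6 h7 ?_
  · have a1 : 8 * exp (-(n * LG n + 5)) ≤ exp (LA n - 1 / 4) := by
      have : (2 : ℝ) ^ 3 ≤ exp 1 ^ 3 := by gcongr; linarith [exp_one_gt_d9]
      rw [← exp_nat_mul] at this
      calc _ ≤ exp ((3 : ℕ) * 1) * exp (-(n * LG n + 5)) := by gcongr; linarith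
        _ ≤ _ := by
          rw [← exp_add, exp_le_exp, LA]
          push_cast
          nlinarith [LG_pos (n := n) (by linarith), log_nonneg (by linarith : (1 : ℝ) ≤ n)]
    nlinarith
  · refine le_trans ?_ (exp_Ex_le _)
    have a1 := Ex_mono h4
    rw [Ex_mul, Ex_SR ht hn1, show (n - 1) / (2 * n * TT n) * (TT n * (n / (n + 1))) =
      1 / 2 - 1 / (n + 1) by field_simp; ring] at a1
    have : 1 / ((n : ℝ) + 1) ≤ ε := by rw [div_le_iff₀ (by linarith)]; nlinarith [h.en]
    rw [Ex_add, Ex_const]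
    exact exp_le_exp.2 (by linarith)
  · have a1 : (Ex fun x : Om n => exp (-(1 / 2)) * (3 / 2 * ind (Cols t n x) - (1 + 14 * ε) /
        (2 * TT n) * (ind (Cols t n x) * SR x) - 5 * n * ind (¬ Good2 ε (fun _ => univ) x))) ≤
        Ex fun x => exp (-u x) * ind (Cols t n x) := Ex_mono fun x => by
      by_cases hx : Cols t n x
      · rw [ind_pos hx, show -u x = -(1 / 2) + (1 / 2 - u x) by ring, exp_add, mul_one, mul_one,
          one_mul]
        gcongr
        linarith [add_one_le_exp (1 / 2 - u x), h5 x]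
      · simp only [ind_neg hx, mul_zero, zero_mul, sub_zero, zero_sub]
        exact mul_nonpos_of_nonneg_of_nonpos (exp_pos _).le
          (neg_nonpos.2 (mul_nonneg (by positivity) (ind_nonneg _)))
    refine le_trans ?_ a1
    simp only [Ex_mul, Ex_sub, Ex_cols_SR ht hn1]
    have a2 := h.bad (U := fun _ => univ) fun a => by
      exact_mod_cast (by simp; linarith [h.kn, h.small] : (2 * k : ℝ) ≤ (univ : Finset _).card)
    rw [← mul_assoc _ (TT n),
      show (1 + 14 * ε) / (2 * TT n) * TT n = 1 / 2 + 7 * ε by field_simp; ring]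
    unfold Pr at a2 ⊢
    refine mul_le_mul_of_nonneg_left ?_ (exp_pos _).le
    nlinarith

end

section

open Finset Real

variable {n k : ℕ} {ε : ℝ} {x : Om n} {t : ℤ}

theorem Par2.line0 (h : Par2 n k ε) {U : Fin n → Finset (Fin n)} {p : Fin n → Fin n}
    (hG : Good2 ε U x) (hc : Cent U p t x) (hi : ∑ a, ind (p a ∉ U a) ≤ 2)
    (hU : ∀ a, 2 * k ≤ (U a).card) :
    Near (13 * ε) (Pr fun ρ : ∀ a, V U p a => Line p t (sw ρ x)) (exp (-(LG n / 2))) := by
  have hn := h.nge
  have hn0 : (0 : ℝ) < n := by linarith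
  have he := h.e0
  have he1 := h.e1
  obtain ⟨d1, -, -, d4, -, d6, -⟩ := h.dl_facts
  have d7 : ε / (2 * k + 2) ≤ ε := div_le_self he.le (by linarith [h.kge])
  have a1 : ε / n + 671250 / n ≤ dl n k / n := by rw [← add_div]; gcongr; linarith
  have hA := aper_of (by exact_mod_cast (by linarith : (80 : ℝ) ≤ n))
    (fun r h1 h2 => le_trans (by linarith) (hG.1 r h1 h2)) hi
  have hv := var_bounds (p := p) hG.sav hi hU h.k1 (by linarith [h.en]) (by linarith)
  obtain ⟨S, hS⟩ : ∃ S, ∑ a, vr (fun c : V U p a => (val x a c : ℝ)) = S * (n ^ 2) ^ 2 :=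
    ⟨_, (div_mul_cancel₀ _ (by positivity)).symm⟩
  have h1 := h.tl (fun a => V U p a) (fun a c => val x a c) t 0
    (fun a c => val_bd x a c) hA hc le_rfl (by positivity)
  obtain ⟨m1, m2, m3, -⟩ := sum_moments (X := fun a (c : V U p a) => (val x a c : ℝ)) (n := n)
    (by simp) fun a c => by exact_mod_cast val_bd x a c
  have h5 := (abs_sub_le _ _ _).trans (add_le_add h1 (cf_near hn0 le_rfl (by positivity) m1 m2 m3
    hc (var_ge (by exact_mod_cast (by linarith : (1 : ℝ) ≤ n)) hA)))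
  simp only [wt, zero_mul, exp_zero, mul_one, hS] at h5 hv
  have a2 : (1 / 12 - ε) * n ≤ S := le_of_mul_le_mul_right (by linarith [hv.1]) (pow_pos hn0 4)
  have a3 : S ≤ (1 / 12 + ε) * n := le_of_mul_le_mul_right (by linarith [hv.2]) (pow_pos hn0 4)
  obtain ⟨h3, h4⟩ := log_near' (u := n / 6) (w := 2 * S) (η := 12 * ε) (by positivity)
    (abs_le.2 ⟨by linarith, by linarith⟩) (by linarith)
  obtain ⟨h6, h7⟩ := log_near' one_pos (h5.trans (a1.trans (mul_one _).ge)) (by linarith)
  have h8 := pos_of_mul_pos_left h6 (sqrt_nonneg _)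
  rw [log_line hn0 (by linarith) h8, log_one] at h7
  simp only [line_sw, Pr]
  refine near_log h8 ?_
  rw [LG, show π * n ^ 5 / 6 = π * n ^ 4 * (n / 6) by ring,
    log_mul (by have := pi_pos; positivity) (by positivity)]
  have a4 : 0 ≤ dl n k / n := by positivity
  rw [abs_le] at h4 h7 ⊢
  constructor <;> linarith [h4.1, h4.2, h7.1, h7.2]

theorem Par2.step0 (h : Par2 n k ε) {U : Fin n → Finset (Fin n)} {p : Fin n → Fin n}
    {E : Om n → Prop} (hE : Inv U E) (hc : ∀ x, E x → Cent U p t x)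
    (hi : ∑ a, ind (p a ∉ U a) ≤ 2) (hU : ∀ a, 2 * k ≤ (U a).card) :
    exp (-(13 * ε)) * (Pr E * exp (-(LG n / 2))) - beta2 n k ε ≤ Pr (fun x => E x ∧ Line p t x) ∧
      Pr (fun x => E x ∧ Line p t x) ≤
        exp (13 * ε) * (Pr E * exp (-(LG n / 2))) + beta2 n k ε := by
  have he := h.e0
  have := near_off (η := 13 * ε) (by positivity) (fun x => ⟨ind_nonneg (E x), ind_le_one _⟩)
    (fun x => ⟨Pr_nonneg _, Pr_le_one _⟩) (fun _ => ⟨(exp_pos _).le, exp_le_one_iff.2 (by
      linarith [LG_pos (n := n) (by linarith [h.nge])])⟩) (h.bad hU) fun x hx hG =>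
        h.line0 hG (hc x (by_contra fun h' => hx (ind_neg h'))) hi hU
  simp only [Pr, ind_and, Ex_mul'] at this ⊢
  rw [hE.ind.resample p]
  exact this

theorem sum_center : ∑ a : Fin n, ind (a = a.rev) ≤ 1 := by
  rcases Nat.eq_zero_or_pos n with rfl | hn
  · simp
  refine (sum_ind_le _ {⟨(n - 1) / 2, by omega⟩} fun a ha => ?_).trans (by simp)
  simp only [mem_singleton, Fin.ext_iff, Fin.val_rev] at ha ⊢
  omega

theorem Par2.diag (h : Par2 n k ε) (ht : 2 * t = n * (n ^ 2 - 1)) :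
    Nr (26 * ε) (2 * beta2 n k ε) (Pr fun x : Om n => Dg t x ∧ Rows t x)
      (Pr (Cols (n := n) t n) * exp (-LG n)) := by
  have hk : 2 * k + 1 ≤ n := by
    exact_mod_cast (by linarith [h.kn, h.small, h.kge] : (2 * k + 1 : ℝ) ≤ n)
  have hn : 2 ≤ n := by exact_mod_cast (by linarith [h.nge] : (2 : ℝ) ≤ n)
  have he := h.e0
  have hβ := beta2_nonneg (n := n) (k := k) (ε := ε)
  have h1 := h.step0 (U := fun _ => univ) (p := id) (t := t) (inv_rows (t := t))
    (fun x _ => cent_of (m := n) (W := fun _ => univ) (by omega)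
      (by simp) (by simp) (total ht x) (by simp) (by simp [ind])) (by simp [ind])
      (by simp; omega)
  have hi : ∑ a : Fin n, ind (a.rev ∉ univ.erase a) ≤ 2 :=
    le_trans (sum_le_sum fun a _ => ind_mono fun ha => by
      simpa [eq_comm] using ha) (sum_center.trans one_le_two)
  have h2 := h.step0 (U := fun a => univ.erase a) (p := Fin.rev) (t := t)
    (E := fun x => Rows t x ∧ Line id t x) (inv_rows.and fun g hg x => by
      simp only [Line, val_act, id]
      rw [sum_congr rfl fun a _ => by rw [hg a a (by simp)]])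
    (fun x hx => cent_of (m := n - 1) (W := fun a => univ.erase a) (by omega) (by simp)
      (by simp) (by
        simp only [sum_erase_eq_sub (mem_univ _), sum_sub_distrib, total ht x]
        rw [show ∑ a, val x a a = t from hx.2, Nat.cast_sub (by omega)]
        ring) (by simp) hi) hi (by simp; omega)
  rw [Pr_tr _ _ rows_tr] at h1
  have hg : exp (-(LG n / 2)) ≤ 1 :=
    exp_le_one_iff.2 (by linarith [LG_pos (n := n) (by linarith [h.nge])])
  have e1 := mul_le_mul_of_nonneg_right h1.1 (exp_pos (-(LG n / 2))).le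
  have e2 := mul_le_mul_of_nonneg_right h1.2 (exp_pos (-(LG n / 2))).le
  have e3 := mul_le_of_le_one_right hβ hg
  have e4 : exp (-LG n) = exp (-(LG n / 2)) * exp (-(LG n / 2)) := by rw [← exp_add]; ring_nf
  have e5 : 1 * beta2 n k ε ≤ exp (13 * ε) * beta2 n k ε := by
    gcongr; exact one_le_exp (by positivity)
  have := Nr.trans (η := 13 * ε) (δ := beta2 n k ε) ⟨h2.1, by linarith [h2.2]⟩ (by positivity)
    (η' := 13 * ε) (by positivity) hβ hβ (C := Pr (Cols (n := n) t n) * exp (-LG n))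
    (by rw [e4]; linarith) (by rw [e4]; linarith)
  convert this using 1
  · ring
  · ring
  · congr 1; funext x; simp only [Dg, eq_iff_iff]; tauto

/-- The cells on the diagonals. -/
def FD (a : Fin n) : Finset (Fin n) := {a, a.rev}

/-- The correlation of the two diagonals. -/
noncomputable def cross (x : Om n) : ℝ := ∑ c, yv (x (c, c)) * yv (x (c.rev, c))

theorem sum_FD (a : Fin n) (g : Fin n → ℝ) :
    ∑ c, ind (c ∈ FD a) * g c = g a + g a.rev - ind (a = a.rev) * g a := by
  have : ∑ c, ind (c ∈ FD a) * g c = ∑ c ∈ FD a, g c := by simp [ind]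
  rw [this, FD]
  by_cases h : a = a.rev
  · rw [ind_pos h, ← h]; simp
  · rw [ind_neg h, sum_pair h]; ring

theorem sum_FD' (c : Fin n) (g : Fin n → ℝ) :
    ∑ a, ind (c ∈ FD a) * g a = g c + g c.rev - ind (c = c.rev) * g c := by
  rw [← sum_FD]
  refine sum_congr rfl fun a _ => ?_
  simp only [FD, mem_insert, mem_singleton, eq_comm (a := c), Fin.rev_eq_iff]

theorem frz_FD : Frz (FD (n := n)) := ⟨fun _ => card_le_two, fun b => by
  have := sum_FD' b fun _ => 1
  simp only [mul_one] at this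
  linarith [ind_nonneg (b = b.rev)]⟩

theorem cross_tail (ht : 2 * t = n * (n ^ 2 - 1)) (hn : 2 ≤ n) {δ : ℝ} (hδ : 0 < δ)
    (hδn : δ ≤ 4 * n) : Pr (fun x : Om n => Rows t x ∧ ¬ |cross x| ≤ δ + 1) ≤
      2 * exp (-(δ ^ 2 / (16 * n))) * Pr (Cols (n := n) t n) := by
  have hn' : (2 : ℝ) ≤ n := by exact_mod_cast hn
  rw [← Pr_tr _ _ rows_tr]
  simp only [Pr, ind_and, ← Ex_mul]
  rw [(inv_rows (U := fun a => univ.erase a)).ind.resample Fin.rev]
  refine Ex_mono fun x => ?_
  by_cases hx : Rows t x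
  swap
  · simp [ind_neg hx]
  rw [ind_pos hx, one_mul, mul_one]
  have hy : ∀ v w : Fin (n ^ 2), |yv v * yv w| ≤ 1 := fun v w => by
    rw [abs_mul]; nlinarith [abs_yv_le v, abs_yv_le w, abs_nonneg (yv v), abs_nonneg (yv w)]
  refine le_trans (Pr_mono fun ρ => mt fun h => ?_) (hoeffding_abs
    (fun a (c : V (fun a => univ.erase a) Fin.rev a) => yv (x (a.rev, a.rev)) * yv (x (a, c)))
    (fun a c => hy _ _) (by simp) hδ hδn)
  have h1 : cross (sw ρ x) = ∑ a, yv (x (a.rev, a.rev)) * yv (x (a, ρ a)) := by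
    rw [cross, ← Equiv.sum_comp Fin.revPerm]
    refine sum_congr rfl fun a _ => ?_
    rw [InvF.sw (F := fun x => yv (x (Fin.revPerm a, Fin.revPerm a)))
      fun g hg x => by simp only [act_row]; rw [hg _ _ (by simp)]]
    simp [sw_apply]
  have h2 : ∀ a, |Ex fun c : V (fun a => univ.erase a) Fin.rev a =>
      yv (x (a.rev, a.rev)) * yv (x (a, c))| ≤ 1 / 2 * (1 / n + ind (a = a.rev)) := by
    intro a
    rw [Ex_mul, abs_mul]
    gcongr
    · exact abs_yv_le _
    by_cases ha : a = a.rev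
    · rw [ind_pos ha]
      exact (abs_Ex_le fun c => abs_yv_le _).trans (by
        have : 0 < 1 / (n : ℝ) := by positivity
        linarith)
    · rw [Ex_V_active (by simpa [eq_comm] using ha) fun c => yv (x (a, c)), ind_neg ha,
        sum_erase_eq_sub (mem_univ _), show ∑ b, yv (x (a, b)) = 0 from
          (line_iff ht (fun _ => a) (act (Equiv.prodComm _ _) x)).1 (hx a), zero_sub, abs_div,
        abs_neg, card_erase_of_mem (mem_univ _), card_univ, Fintype.card_fin, Nat.abs_cast,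
        Nat.cast_sub (by omega), add_zero, div_le_div_iff₀ (by push_cast; linarith) (by linarith)]
      push_cast
      nlinarith [abs_yv_le (x (a, a))]
  have h3 := (abs_sum_le_sum_abs _ _).trans (sum_le_sum fun a (_ : a ∈ univ) => h2 a)
  rw [← mul_sum, sum_add_distrib, sum_const, card_univ, Fintype.card_fin, nsmul_eq_mul,
    mul_one_div_cancel (by linarith)] at h3
  rw [h1]
  linarith [abs_sub_abs_le_abs_sub (∑ a, yv (x (a.rev, a.rev)) * yv (x (a, ρ a))) (∑ a, Ex
    fun c : V (fun a => univ.erase a) Fin.rev a => yv (x (a.rev, a.rev)) * yv (x (a, c))),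
    sum_center (n := n)]

theorem psiB (ht : 2 * t = n * (n ^ 2 - 1)) (hn : (1000 : ℝ) ≤ n) (hD : Dg t x) (hR : Rows t x) :
    |ph FD univ x - co FD univ x - (LA n - 3 / 4) + 12 * cross x / n| ≤ 106 / n := by
  have hn0 : (0 : ℝ) < n := by linarith
  have hy2 : ∀ v : Fin (n ^ 2), yv v ^ 2 ≤ 1 / 4 := fun v => by
    have := abs_yv_pow v 2
    rw [abs_of_nonneg (sq_nonneg _)] at this
    linarith
  have hc := sum_center (n := n)
  have hc0 : 0 ≤ ∑ a : Fin n, ind (a = a.rev) := sum_nonneg fun a _ => ind_nonneg _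
  obtain ⟨D, hD2⟩ : ∃ D, D = ∑ a, ∑ c, ind (c ∈ FD a) * yv (x (a, c)) ^ 2 := ⟨_, rfl⟩
  have hD0 : |D| ≤ n / 2 := by
    rw [hD2]
    refine (abs_sum_le_sum_abs _ _).trans ((sum_le_sum fun a _ => (?_ : _ ≤ (1 / 2 : ℝ))).trans
      (by simp [div_eq_mul_inv]))
    rw [abs_of_nonneg (sum_nonneg fun c _ => mul_nonneg (ind_nonneg _) (sq_nonneg _)), sum_FD]
    linarith [hy2 (x (a, a)), hy2 (x (a, a.rev)),
      mul_nonneg (ind_nonneg (a = a.rev)) (sq_nonneg (yv (x (a, a))))]
  have h1 : ∀ a, |(n - 3) / 2 * avq x a (UW FD univ a) - ∑ c ∈ UW FD univ a, yv (x (a, c)) ^ 2| ≤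
      2 / n + ind (a = a.rev) := by
    intro a
    have a1 := card_UW (Fz := FD) (W := univ) a
    have a2 := sum_FD a fun _ => 1
    simp only [mul_one, card_univ, Fintype.card_fin] at a1 a2
    rw [avq_eq x a (by
      exact_mod_cast (by linarith [ind_nonneg (a = a.rev)] : (2 : ℝ) ≤ (UW FD univ a).card))]
    refine row_B hn (by linarith) (ind_cases _) (by positivity)
      ((sum_le_sum fun c _ => hy2 _).trans (by simp [div_eq_mul_inv])) ?_
    rw [sum_UW, show ∑ b, yv (x (a, b)) = 0 from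
      (line_iff ht (fun _ => a) (act (Equiv.prodComm _ _) x)).1 (hR a), zero_sub, abs_neg, sum_FD]
    have b1 := abs_le.1 (abs_yv_le (x (a, a)))
    have b2 := abs_le.1 (abs_yv_le (x (a, a.rev)))
    rw [abs_le]
    rcases ind_cases (a = a.rev) with h | h <;> rw [h] <;> constructor <;>
      linarith [b1.1, b1.2, b2.1, b2.2]
  have h2 := (abs_sum_le_sum_abs _ _).trans (sum_le_sum fun a (_ : a ∈ univ) => h1 a)
  simp only [sum_UW, sum_sub_distrib, ← mul_sum, sum_add_distrib, sum_const, card_univ,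
    Fintype.card_fin, nsmul_eq_mul, ← hD2,
    sum_sq (by exact_mod_cast (by linarith : (1 : ℝ) ≤ n))] at h2
  rw [mul_div_cancel₀ _ hn0.ne'] at h2
  obtain ⟨-, T2, T3⟩ := TT_bounds hn
  have h3 : |(n - 3) / 2 * sav (kq n) (UW FD univ) x - (n ^ 2 / 12 - D)| ≤ 4 := by
    rw [show sav (kq n) (UW FD univ) x = ∑ a, avq x a (UW FD univ a) from rfl]
    rw [abs_le] at h2 ⊢
    exact ⟨by linarith [h2.1], by linarith [h2.2]⟩
  obtain ⟨h4, h5⟩ := log_shift hn (by norm_num) le_rfl hD0 h3
  have h6 : n / 50 ≤ sav (kq n) (UW FD univ) x := by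
    by_contra h'
    nlinarith [(abs_le.1 h3).1, (abs_le.1 hD0).2]
  have h7 : |∑ c, dd FD x c| ≤ 1 := by
    simp only [dd]
    rw [sum_comm]
    simp only [sum_FD, sum_sub_distrib, sum_add_distrib]
    rw [show ∑ a, yv (x (a, a)) = 0 from (line_iff ht id x).1 hD.1,
      (line_iff ht Fin.rev x).1 hD.2, zero_add, zero_sub, abs_neg]
    exact (abs_sum_ind _ _).trans (le_trans (sum_le_sum fun a _ => mul_le_of_le_one_right
      (ind_nonneg _) ((abs_yv_le _).trans (by norm_num))) hc)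
  have h8 : |∑ c, dd FD x c ^ 2 - (D + 2 * cross x)| ≤ 1 / 2 := by
    rw [hD2, sum_comm, cross, mul_sum, ← sum_add_distrib, ← sum_sub_distrib]
    refine (abs_sum_le_sum_abs _ _).trans ((sum_le_sum fun c _ =>
      (?_ : _ ≤ ind (c = c.rev) / 2)).trans (by rw [← sum_div]; linarith))
    rw [dd, sum_FD', sum_FD' c fun a => yv (x (a, c)) ^ 2]
    by_cases h : c = c.rev
    · rw [ind_pos h, ← h, abs_le]
      constructor <;> nlinarith [hy2 (x (c, c)), sq_nonneg (yv (x (c, c)))]
    · rw [ind_neg h]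
      exact le_of_eq (abs_eq_zero.2 (by ring) |>.trans (by simp))
  have h9 : ∑ c : Fin n, ii FD c = 2 * n - ∑ a : Fin n, ind (a = a.rev) := by
    have := fun c : Fin n => sum_FD' c fun _ => 1
    simp only [mul_one] at this
    simp only [ii, this, sum_sub_distrib, sum_const, card_univ, Fintype.card_fin, nsmul_eq_mul]
    ring
  have h10 : (∑ c, dd FD x c) ^ 2 / n ≤ 1 / 1000 := by
    rw [div_le_iff₀ hn0]; linarith [(sq_le_one_iff_abs_le_one _).2 h7]
  have h11 : 0 ≤ (∑ c, dd FD x c) ^ 2 / n := by positivity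
  have h12 : |co FD univ x - (-(3 / 4) + 6 * D / n + 12 * cross x / n)| ≤ 6 / n := by
    rw [co, qq, h9, card_univ, Fintype.card_fin, show -(3 / 4) + 6 * D / n + 12 * cross x / n =
      (-(3 / 4 * n) + 6 * D + 12 * cross x) / n by field_simp, ← sub_div, abs_div,
      abs_of_pos hn0]
    gcongr
    rw [abs_le] at h8 ⊢
    constructor <;> linarith [h8.1, h8.2]
  have hπ : π * (n : ℝ) ^ 4 ≠ 0 := by have := pi_pos; positivity
  rw [ph, max_eq_left h6, LA, LG, show π * n ^ 5 / 6 = π * n ^ 4 * (n / 6) by ring,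
    log_mul hπ h4.ne', log_mul hπ (by positivity), card_univ, Fintype.card_fin,
    show 106 / (n : ℝ) = 100 / n + 6 / n by ring]
  rw [abs_le] at h5 h12 ⊢
  constructor <;> linarith [h5.1, h5.2, h12.1, h12.2]

theorem Par2.mag (h : Par2 n k ε) (ht : 2 * t = n * (n ^ 2 - 1)) (hs : √ε ≤ 1 / 10000)
    (hβ : n * beta2 n k ε ≤ ε * exp (-(n * LG n + 5)))
    (hx : exp 5 * (2 * exp (-((ε * n) ^ 2 / (16 * n)))) ≤ ε * exp (-LG n)) :
    Near (171 * ε + 8000 * √ε) (Pr (Mag (n := n) t)) (exp (log n - n * LG n - 1)) := by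
  have hn := h.nge
  have hn0 : (0 : ℝ) < n := by linarith
  have he := h.e0
  have he1 : ε ≤ 1 / 10000 * (1 / 10000) := by
    rw [← mul_self_sqrt he.le]; gcongr
  have hs0 := sqrt_nonneg ε
  have hβ0 := beta2_nonneg (n := n) (k := k) (ε := ε)
  have hL := LG_pos (n := n) (by linarith)
  have hl := log_nonneg (by linarith : (1 : ℝ) ≤ n)
  have e3 : ∀ y : ℝ, -(n * LG n + 3) ≤ y → 3 * (n * beta2 n k ε) ≤ ε * exp y := fun y hy => by
    have : 3 * exp (-(n * LG n + 5)) ≤ exp y := by
      calc _ ≤ exp 2 * exp (-(n * LG n + 5)) := by gcongr; linarith [add_one_le_exp 2]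
        _ ≤ _ := by rw [← exp_add]; exact exp_le_exp.2 (by linarith)
    nlinarith
  have hZ := h.cols ht hs hβ
  have hZ0 := Pr_nonneg (Cols (n := n) t n)
  have h1 := (h.diag ht).near (η' := ε) (by linarith) he.le (by linarith) (by
    have a1 := mul_le_mul_of_nonneg_right hZ.1 (exp_pos (-LG n)).le
    rw [← exp_add, ← exp_add] at a1
    have a2 := e3 (-(71 * ε + 4000 * √ε) + (LA n - 1 / 4) + -LG n) (by rw [LA]; nlinarith)
    nlinarith) (by positivity)
  have hI : InvF (UW FD univ) fun x : Om n => ind (Dg t x ∧ Rows t x) :=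
    (inv_dg.and inv_rows).ind
  have h2 := h.main frz_FD ht (fun x => ⟨ind_nonneg _, ind_le_one _⟩) hI
  have a0 : 118 / (n : ℝ) ≤ ε := by rw [div_le_iff₀ hn0]; linarith [h.en]
  have h3 := Ex_near_on (K := exp 4) (η := 13 * ε) (η' := ε)
    (f := fun x : Om n => ind (Dg t x ∧ Rows t x) *
      exp (ph FD univ x - co FD univ x - (LA n - 3 / 4)))
    (g := fun x => ind (Dg t x ∧ Rows t x)) (H := fun x => ¬ (Rows t x ∧ ¬ |cross x| ≤ ε * n + 1))
    (fun x => ⟨mul_nonneg (ind_nonneg _) (exp_pos _).le, by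
      by_cases hE : Dg t x ∧ Rows t x
      · rw [ind_pos hE, one_mul, exp_le_exp]
        have a1 : |cross x| ≤ n * (1 / 4) := (abs_sum_le_sum_abs _ _).trans
          ((sum_le_sum fun c _ => (by
            rw [abs_mul, show (1 / 4 : ℝ) = 1 / 2 * (1 / 2) by norm_num]
            gcongr <;> exact abs_yv_le _ : _ ≤ (1 / 4 : ℝ))).trans (by simp))
        have a2 : -3 ≤ 12 * cross x / n := by
          rw [le_div_iff₀ hn0]; linarith [(abs_le.1 a1).1]
        have a3 : 106 / (n : ℝ) ≤ 1 := by rw [div_le_one hn0]; linarith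
        linarith [(abs_le.1 (psiB ht (by linarith) hE.1 hE.2)).2]
      · rw [ind_neg hE, zero_mul]; positivity⟩)
    (fun x => ⟨ind_nonneg _, (ind_le_one _).trans (one_le_exp (by norm_num))⟩)
    (fun x hx => by
      by_cases hE : Dg t x ∧ Rows t x
      · rw [ind_pos hE, one_mul, ← exp_zero]
        refine near_exp ?_
        have a1 : |12 * cross x / n| ≤ 12 * ε + 12 / n := by
          rw [abs_div, abs_mul, abs_of_pos hn0, div_le_iff₀ hn0, add_mul, div_mul_cancel₀ _ hn0.ne',
            abs_of_pos (by norm_num : (0 : ℝ) < 12)]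
          linarith [not_not.1 (not_and.1 hx hE.2)]
        have a2 := psiB ht (by linarith) hE.1 hE.2
        rw [show 118 / (n : ℝ) = 106 / n + 12 / n by ring] at a0
        rw [abs_le] at a1 a2 ⊢
        constructor <;> linarith [a1.1, a1.2, a2.1, a2.2]
      · simpa [ind_neg hE] using (near_refl 0).mono le_rfl (by positivity : 0 ≤ 13 * ε))
    (by
      simp only [not_not]
      exact cross_tail ht (by exact_mod_cast (by linarith : (2 : ℝ) ≤ n)) (by positivity)
        (by linarith [h.small])) (exp_pos _).le (by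
      refine le_trans ?_ (mul_le_mul_of_nonneg_left h1.1 he.le)
      have a1 : exp 4 ≤ exp (-(26 * ε + 2 * ε)) * exp 5 := by
        rw [← exp_add]; exact exp_le_exp.2 (by linarith)
      have a2 := mul_le_mul_of_nonneg_left hx (mul_nonneg (exp_pos (-(26 * ε + 2 * ε))).le hZ0)
      have a3 := mul_le_mul_of_nonneg_right a1 (by positivity :
        0 ≤ 2 * exp (-((ε * n) ^ 2 / (16 * n))) * Pr (Cols (n := n) t n))
      linarith) (by positivity) he.le (by linarith)
  have h4 := (h3.trans (h1.trans (hZ.mul (near_refl (exp (-LG n))) (exp_pos _).le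
    (exp_pos _).le))).mul_left (exp_pos (LA n - 3 / 4)).le
  simp only [← Ex_mul, mul_left_comm (exp (LA n - 3 / 4)), ← exp_add, add_sub_cancel] at h4
  rw [show LA n - 3 / 4 + (LA n - 1 / 4 + -LG n) = log n - n * LG n - 1 by rw [LA]; ring] at h4
  have h5 := (h2.of_near h4 (by positivity) (by positivity) (by positivity)).near (η' := ε)
    (by linarith) he.le (by linarith) (e3 _ (by linarith)) (exp_pos _).le
  simp only [← ind_and] at h5
  exact h5.mono (exp_pos _).le (by linarith)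

end

section

open Finset Real Filter

theorem mag_tendsto (t : ℕ → ℤ) (ht : ∀ n, 2 * t n = n * (n ^ 2 - 1)) : Tendsto
    (fun n : ℕ => Pr (Mag (n := n) (t n)) / exp (log n - n * LG n - 1)) atTop (nhds 1) := by
  have h1 : Tendsto (fun s : ℝ => 171 * s ^ 2 + 8000 * s) (nhdsWithin 0 (Set.Ioi 0)) (nhds 0) := by
    have : Continuous fun s : ℝ => 171 * s ^ 2 + 8000 * s := by fun_prop
    simpa using (this.tendsto 0).mono_left nhdsWithin_le_nhds
  have h2 : ∀ᶠ s : ℝ in nhdsWithin 0 (Set.Ioi 0), s ∈ Set.Ioo 0 (1 / 10000) :=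
    Ioo_mem_nhdsGT (by norm_num)
  have key : ∀ p : ℝ → Prop, (∀ᶠ η in nhds 0, p η) → ∃ η, p η ∧ ∀ᶠ n : ℕ in atTop,
      Near η (Pr (Mag (n := n) (t n))) (exp (log n - n * LG n - 1)) := by
    intro p hp
    obtain ⟨s, h3, h4⟩ := (h2.and (h1.eventually hp)).exists
    have h5 : √(s ^ 2) ≤ 1 / 10000 := by rw [sqrt_sq h3.1.le]; exact h3.2.le
    refine ⟨_, h4, (par_eventually (pow_pos h3.1 2) h5).mono fun n ⟨k, a1, a2, a3⟩ => ?_⟩
    simpa only [sqrt_sq h3.1.le] using a1.mag (ht n) h5 a2 a3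
  refine tendsto_order.2 ⟨fun a ha => ?_, fun a ha => ?_⟩
  · obtain ⟨η, h3, h4⟩ := key (fun η => a < exp (-η))
      ((by fun_prop : ContinuousAt (fun η => exp (-η)) 0).eventually (lt_mem_nhds (by simpa)))
    exact h4.mono fun n hn => h3.trans_le ((le_div_iff₀ (exp_pos _)).2 hn.1)
  · obtain ⟨η, h3, h4⟩ := key (fun η => exp η < a)
      (continuous_exp.continuousAt.eventually (gt_mem_nhds (by simpa)))
    exact h4.mono fun n hn => lt_of_le_of_lt ((div_le_iff₀ (exp_pos _)).2 hn.2) h3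

end

end Pool.Agent.MP_f80039_co.H9
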