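import Pool.Agent.MP_f80039_co.H9.Pot
import Pool.Agent.MP_f80039_co.H9.Num

/-! Fixing the columns one after the other. -/

set_option autoImplicit false

namespace Pool.Agent.MP_f80039_co.H9

section

open Finset Real

variable {n k : ℕ} {ε : ℝ} {Fz : Fin n → Finset (Fin n)} {W : Finset (Fin n)} {b : Fin n}
  {x : Om n} {t : ℤ}

/-- The error caused by the frozen cells of a column. -/
noncomputable def Eb (Fz : Fin n → Finset (Fin n)) (W : Finset (Fin n)) (x : Om n) (b : Fin n) :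
    ℝ := ∑ a, ind (b ∈ Fz a) * |mom 1 x a (UW Fz W a)| +
      ∑ a, ind (b ∈ Fz a) * |avq x a (UW Fz W a) - 1 / 6|

theorem ind_cases (p : Prop) : ind p = 0 ∨ ind p = 1 := by
  by_cases h : p <;> simp [ind, h]

theorem abs_sum_sub {f g : Fin n → ℝ} {c : ℝ} (h : ∀ a, |f a - c| ≤ g a) :
    |∑ a, f a - n * c| ≤ ∑ a, g a := by
  have : ∑ a, f a - n * c = ∑ a, (f a - c) := by simp
  rw [this]
  exact (abs_sum_le_sum_abs _ _).trans (sum_le_sum fun a _ => h a)

theorem Par2.stats (h : Par2 n k ε) (hF : Frz Fz) (hb : b ∈ W) (hm : 2 * k + 2 < W.card)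
    (hG : Good2 ε (UW Fz W) x) {S : ℝ}
    (hS : ∑ a, vr (fun c : V (UW Fz W) (fun _ => b) a => (val x a c : ℝ)) = S * (n ^ 2) ^ 2) :
    |S - n / 12| ≤ 2 * ε * n ∧ (∃ R, ∑ a, vr (fun c : V (UW Fz W) (fun _ => b) a =>
      (val x a c : ℝ)) ^ 2 = R * (n ^ 2) ^ 4 ∧ |R - n / 144| ≤ 2 * ε * n) ∧
    |sav (kq n) (UW Fz W) x * (1 - 1 / W.card) - 2 * S - ii Fz b / 6| ≤
      ∑ a, ind (b ∈ Fz a) * |avq x a (UW Fz W a) - 1 / 6| + 5 / W.card := by
  have hk := h.kge
  have hn0 : (0 : ℝ) < n := by linarith [h.nge]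
  have hm' : (2 * k + 3 : ℝ) ≤ W.card := by exact_mod_cast hm
  have hf : ∀ a, (W.card : ℝ) ≤ (UW Fz W a).card + 2 := fun a => by exact_mod_cast hF.card_ge a
  set U := UW Fz W with hU
  obtain ⟨β, hβ⟩ : ∃ β : Fin n → ℝ, ∀ a, β a =
    1 / 2 * ((1 - ind (b ∈ Fz a)) * (avq x a (U a) * (1 - 1 / (U a).card))) := ⟨_, fun _ => rfl⟩
  have hvr : ∀ a, vr (fun c : V U (fun _ => b) a => (val x a c : ℝ)) = β a * (n ^ 2) ^ 2 :=
    fun a => by rw [vr_col hb, hβ]; ring
  have hSβ : S = ∑ a, β a := by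
    simp only [hvr, ← sum_mul] at hS
    exact (mul_right_cancel₀ (by positivity) hS).symm
  have hrow := fun a => row_beta (avq_nonneg x a (U a)) (avq_le_one x a (U a)) (ε := ε)
    (f := (U a).card) (by nlinarith [hf a, h.k1, h.e0]) (by linarith [hf a])
    (ind_cases (b ∈ Fz a))
  have hsum : ∑ a, (|avq x a (U a) - 1 / 6| / 2 + ε / 4 + ind (b ∈ Fz a) / 12) ≤ 2 * ε * n := by
    simp only [sum_add_distrib, ← sum_div, sum_const, card_univ, Fintype.card_fin, nsmul_eq_mul]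
    linarith [hG.2.1, hF.col b, h.en]
  refine ⟨?_, ⟨∑ a, β a ^ 2, ?_, ?_⟩, ?_⟩
  · have := abs_sum_sub fun a => (hrow a).1
    simp only [← hβ, ← hSβ] at this
    rw [div_eq_mul_one_div]
    exact this.trans hsum
  · rw [sum_mul]; exact sum_congr rfl fun a _ => by rw [hvr]; ring
  · have := abs_sum_sub fun a => (hrow a).2
    simp only [← hβ] at this
    rw [div_eq_mul_one_div]
    exact this.trans hsum
  have e : sav (kq n) U x * (1 - 1 / W.card) - 2 * S - ii Fz b / 6 =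
      ∑ a, (avq x a (U a) * (1 - 1 / W.card) - (1 - ind (b ∈ Fz a)) *
        (avq x a (U a) * (1 - 1 / (U a).card)) - ind (b ∈ Fz a) / 6) := by
    simp only [hSβ, hβ, sum_sub_distrib, ← sum_mul, ← sum_div, ← mul_sum, ii, sav, avq]
    ring
  rw [e]
  refine (abs_sum_le_sum_abs _ _).trans ((sum_le_sum fun a _ => row_var (avq_nonneg x a _)
    (avq_le_one x a _) (by linarith) (card_UW_le a) (hf a) (ind_cases _)).trans ?_)
  simp only [sum_add_distrib, ← sum_div, ← sum_mul]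
  have a1 : (∑ a, ind (b ∈ Fz a)) / W.card ≤ 2 / (W.card : ℝ) := by gcongr; exact hF.col b
  have a2 : (∑ a, ((W.card : ℝ) - (UW Fz W a).card)) * (3 / 2 / W.card ^ 2) ≤
      2 * W.card * (3 / 2 / W.card ^ 2) := by gcongr; exact hF.sum_card
  have a3 : 2 * (W.card : ℝ) * (3 / 2 / W.card ^ 2) = 3 / W.card := by field_simp
  have a4 : 5 / (W.card : ℝ) = 2 / W.card + 3 / W.card := by ring
  linarith

theorem skew {U : Fin n → Finset (Fin n)} {p : Fin n → Fin n} (hn : 0 < n) (hG : Good2 ε U x) :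
    ∃ B, ∑ a, m3 (fun c : V U p a => (val x a c : ℝ)) = B * (n ^ 2) ^ 3 ∧ |B| ≤ 3 * ε * n := by
  refine ⟨_, (div_mul_cancel₀ _ (by positivity)).symm, ?_⟩
  rw [abs_div, abs_of_pos (by positivity : (0 : ℝ) < (n ^ 2) ^ 3), div_le_iff₀' (by positivity)]
  refine (abs_sum_le_sum_abs _ _).trans ((sum_le_sum fun a _ => m3_V x a).trans ?_)
  rw [← mul_sum, sum_add_distrib, ← mul_sum]
  gcongr
  linarith [hG.2.2.1, hG.2.2.2]

theorem Good2.sav {U : Fin n → Finset (Fin n)} (hG : Good2 ε U x) :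
    |sav (kq n) U x - n / 6| ≤ ε * n := by
  rw [div_eq_mul_one_div]
  exact (abs_sum_sub (f := fun a => avq x a (U a)) fun a => le_rfl).trans hG.2.1

theorem co_erase (hb : b ∈ W) (hm : 2 ≤ W.card) :
    co Fz W x - co Fz (W.erase b) x = (1 / 4 + 6 * ((1 + 1 / (W.card - 1)) *
      (dd Fz x b - (∑ c ∈ W, dd Fz x c) / W.card) ^ 2)) / n - ii Fz b / 2 / n := by
  rw [co, co, qq_erase hb hm, card_erase_of_mem hb, sum_erase_eq_sub hb, Nat.cast_sub (by omega)]
  push_cast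
  ring

theorem Par2.drift (h : Par2 n k ε) (hF : Frz Fz) (hb : b ∈ W) (hG : Good2 ε (UW Fz W) x) :
    (∑ a, (W.card - (UW Fz W a).card) * |mom 1 x a (UW Fz W a)|) / W.card / n ≤
      2 * √(ε / (n * W.card)) := by
  have hm : (0 : ℝ) < W.card := by exact_mod_cast card_pos.2 ⟨b, hb⟩
  refine (h.theta hm (by simpa using card_le_univ W)).2 _ 2
    (div_nonneg (sum_nonneg fun a _ => mul_nonneg (sub_nonneg.2 (card_UW_le a)) (abs_nonneg _))
      hm.le) (by norm_num) (((div_le_one hm).2 (hF.abs_G x)).trans one_le_two) ?_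
  gcongr
  refine le_trans (sum_le_sum fun a _ => ?_) (le_trans (mul_sum _ _ _).ge
    (mul_le_mul_of_nonneg_left hG.2.2.1 zero_le_two))
  have : (W.card : ℝ) ≤ (UW Fz W a).card + 2 := by exact_mod_cast hF.card_ge a
  gcongr
  linarith

theorem Par2.tilted (h : Par2 n k ε) (hF : Frz Fz) (ht : 2 * t = n * (n ^ 2 - 1)) (hb : b ∈ W)
    (hm : 2 * k + 2 < W.card) (hT : Tot W x) (hG : Good2 ε (UW Fz W) x) {S : ℝ}
    (hS : ∑ a, vr (fun c : V (UW Fz W) (fun _ => b) a => (val x a c : ℝ)) = S * (n ^ 2) ^ 2)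
    {I : ℝ} (hI : I = Ex fun ρ : ∀ a, V (UW Fz W) (fun _ => b) a => ind (∑ a, val x a (ρ a) = t) *
      wt (fun a (c : V (UW Fz W) (fun _ => b) a) => (val x a c : ℝ)) (1 / (2 * (S * (n ^ 2) ^ 2)))
        ρ) :
    n / 7 ≤ 2 * S ∧ |sav (kq n) (UW Fz W) x - 2 * S| ≤ 4 * n / W.card ∧
      1 / (6 * √(n ^ 5)) ≤ I ∧
      |log I - (-(1 / 2 * log (π * n ^ 4 * sav (kq n) (UW Fz W) x)) + 1 / 2 * log W.card -
        1 / 2 * log (W.card - 1) - (co Fz W x - co Fz (W.erase b) x))| ≤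
        878 * √(ε / (n * W.card)) + 43 * Eb Fz W x b / n := by
  have he := h.e0
  have hk := h.kge
  have hn := h.nge
  have hn0 : (0 : ℝ) < n := by linarith
  have hm' : (2 * k + 3 : ℝ) ≤ W.card := by exact_mod_cast hm
  have hmn : (W.card : ℝ) ≤ n := by simpa using card_le_univ W
  have hw : 1 ≤ ε * ((W.card : ℝ) - 1) := h.k1.trans (by gcongr; linarith)
  have hεn := h.small
  have hv1 := hG.sav
  have hv0 : 0 < sav (kq n) (UW Fz W) x := by linarith [(abs_le.1 hv1).1]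
  obtain ⟨hS1, ⟨R, hR, hR1⟩, h4⟩ := h.stats hF hb hm hG hS
  have hS2 : n / 7 ≤ 2 * S := by linarith [(abs_le.1 hS1).1]
  have hS3 : S ≤ n := by linarith [(abs_le.1 hS1).2]
  have hS0 : 0 < S := by linarith
  have hτ : 1 / (2 * (S * ((n : ℝ) ^ 2) ^ 2)) ≤ 50 / n ^ 5 := by
    rw [div_le_div_iff₀ (by positivity) (by positivity)]
    linarith [mul_le_mul_of_nonneg_right hS2 (pow_pos hn0 4).le, pow_pos hn0 5]
  have hA := aper_of (p := fun _ => b) (by exact_mod_cast (by linarith : (80 : ℝ) ≤ n))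
    (fun r h1 h2 => le_trans (by linarith) (hG.1 r h1 h2)) (hF.inact hb)
  have hd : |dd Fz x b - (∑ c ∈ W, dd Fz x c) / W.card| ≤ 2 :=
    (abs_sub _ _).trans (by linarith [hF.abs_dd x b, hF.abs_avg_dd (W := W) x])
  have hE2 := hF.sum_ind b (f := fun a => avq x a (UW Fz W a) - 1 / 6) (K := 5 / 6) fun a => by
    rw [abs_le]
    constructor <;> linarith [avq_nonneg x a (UW Fz W a), avq_le_one x a (UW Fz W a)]
  have hi0 : 0 ≤ ii Fz b := sum_nonneg fun a _ => ind_nonneg _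
  have h5 := num_var hn0 he h.e1 h.en hv1 hw hi0 (hF.col b) (by linarith) h4
  have h6 := var_num (by linarith) hmn hv0.le (sav_le _ x) hi0 (hF.col b) hE2 h4
  have hw0 : 0 < (W.card : ℝ) - 1 := by linarith
  obtain ⟨B, hB, hB1⟩ := skew (p := fun _ => b) (by exact_mod_cast hn0) hG
  obtain ⟨D, hD, hD1, hD2⟩ := hF.mean_col ht hb hT
  have h1 := h.tl (fun a => V (UW Fz W) (fun _ => b) a) (fun a c => val x a c) t
    (1 / (2 * (S * (n ^ 2) ^ 2))) (fun a c => val_bd x a c) hA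
    (by rw [hD, abs_mul, abs_of_pos (pow_pos hn0 2)]; gcongr; exact hD1.trans (by norm_num))
    (by positivity) hτ
  rw [← hI, hR, hB, hD, hS, cf_half hS0.ne' (by positivity)] at h1
  obtain ⟨h2, h3⟩ := num_cf hn0 he h.e1 h.en hS1 hR1 hB1 hD1 hd hD2 (w := 1 / (W.card - 1))
    (by positivity) (by rw [div_le_iff₀ hw0]; exact hw) h1
  have hI1 := line_ge hn0 hS0 hS3 h2
  rw [log_line hn0 hS0 (lt_of_lt_of_le (by positivity) hI1)] at h3
  refine ⟨hS2, h6, hI1, ?_⟩
  rw [log_mul (by have := pi_pos; positivity) hv0.ne']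
  exact tilted_num hn0 (h.theta (by linarith only [hw0]) hmn).1 (h.drift hF hb hG)
    (sum_nonneg fun a _ => mul_nonneg (ind_nonneg _) (abs_nonneg _))
    (sum_nonneg fun a _ => mul_nonneg (ind_nonneg _) (abs_nonneg _)) h3 h5
    (co_erase hb (by omega))

theorem Par2.step1 (h : Par2 n k ε) (hF : Frz Fz) (ht : 2 * t = n * (n ^ 2 - 1)) (hb : b ∈ W)
    (hm : 2 * k + 2 < W.card) (hT : Tot W x) (hG : Good2 ε (UW Fz W) x) :
    Near (1580 * √(ε / (n * W.card)) + 43 * Eb Fz W x b / n)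
      (Ex fun ρ : ∀ a, V (UW Fz W) (fun _ => b) a => ind (Line (fun _ => b) t (sw ρ x)) *
        exp (ph Fz (W.erase b) (sw ρ x) - co Fz (W.erase b) (sw ρ x)))
      (exp (ph Fz W x - co Fz W x)) := by
  have he := h.e0
  have hk := h.kge
  have hn := h.nge
  have hn0 : (0 : ℝ) < n := by linarith
  have hm' : (2 * k + 3 : ℝ) ≤ W.card := by exact_mod_cast hm
  have hmn : (W.card : ℝ) ≤ n := by simpa using card_le_univ W
  have hf : ∀ a, (W.card : ℝ) ≤ (UW Fz W a).card + 2 := fun a => by exact_mod_cast hF.card_ge a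
  have hεn := h.small
  have hv : n / 7 ≤ sav (kq n) (UW Fz W) x := by linarith [(abs_le.1 hG.sav).1]
  have hη : ε / n ≤ 1 / 2 := by rw [div_le_iff₀ hn0]; linarith [h.e1]
  have hθ := (h.theta (by linarith) hmn).1
  obtain ⟨S, hS⟩ : ∃ S, ∑ a, vr (fun c : V (UW Fz W) (fun _ => b) a => (val x a c : ℝ)) =
    S * (n ^ 2) ^ 2 := ⟨_, (div_mul_cancel₀ _ (by positivity)).symm⟩
  obtain ⟨h1, h2, h3, h4⟩ := h.tilted hF ht hb hm hT hG hS rfl
  obtain ⟨ξ, hξ⟩ : ∃ ξ : ∀ a, V (UW Fz W) (fun _ => b) a → ℝ, ∀ a c, ξ a c =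
    (zc (fun c : V (UW Fz W) (fun _ => b) a => (val x a c : ℝ)) c ^ 2 -
      vr fun c : V (UW Fz W) (fun _ => b) a => (val x a c : ℝ)) / n ^ 4 := ⟨_, fun _ _ => rfl⟩
  obtain ⟨c, hc⟩ : ∃ c : Fin n → ℝ, ∀ a, c a = 2 * (UW Fz W a).card /
    (((UW Fz W a).card - 1) * ((UW Fz W a).card - 2)) := ⟨_, fun _ => rfl⟩
  have hξ1 : ∀ a c, |ξ a c| ≤ 1 := fun a c => by
    rw [hξ, abs_div, abs_of_pos (pow_pos hn0 4), div_le_one (pow_pos hn0 4)]
    exact (tilt_abs (N := n ^ 2) (fun c => by exact_mod_cast val_bd x a c) c).trans_eq (by ring)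
  have hc1 := fun a => c_bounds (by linarith : (42 : ℝ) ≤ W.card) (card_UW_le a) (hf a)
  simp only [← hc] at hc1
  have hw : ∀ ρ, wt (fun a (c : V (UW Fz W) (fun _ => b) a) => (val x a c : ℝ))
      (1 / (2 * (S * (n ^ 2) ^ 2))) ρ = exp ((∑ a, ξ a (ρ a)) / (2 * S)) := fun ρ => by
    simp only [wt, hξ, ← sum_div]
    congr 1
    ring
  simp only [hw] at h3 h4
  have h5 := tiltA hξ1 (fun a => by
      simp only [funext (hξ a), div_eq_mul_inv, Ex_mul', Ex_sub, Ex_const, Ex_zc_sq, sub_self,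
        zero_mul]) (n := n) (by simp) (by linarith) hmn (by linarith : (0 : ℝ) < k)
    (by linarith) he (by linarith [h.e1]) (fun a => (hc1 a).1) (fun a => (hc1 a).2) hv h1 h2
    (fun ρ => ∑ a, val x a (ρ a) = t) (by positivity) hη (h.t1.trans (by gcongr))
  have hv' : ∀ ρ : ∀ a, V (UW Fz W) (fun _ => b) a, sav (kq n) (UW Fz (W.erase b)) (sw ρ x) =
      sav (kq n) (UW Fz W) x - ∑ a, c a * ξ a (ρ a) := fun ρ => by
    rw [← UW_erase, sav_sw, sav, ← sum_sub_distrib]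
    refine sum_congr rfl fun a _ => ?_
    rw [hc, hξ]
    exact avq_erase x a (by exact_mod_cast (by linarith [hf a] : (3 : ℝ) ≤ (UW Fz W a).card)) _
  have hv2 : ∀ ρ : ∀ a, V (UW Fz W) (fun _ => b) a,
      n / 50 ≤ sav (kq n) (UW Fz W) x - ∑ a, c a * ξ a (ρ a) := fun ρ => by
    have a1 : ∑ a, c a * ξ a (ρ a) ≤ ∑ _a : Fin n, (1 / 14 : ℝ) := sum_le_sum fun a _ => by
      refine (le_abs_self _).trans ?_
      rw [abs_mul]
      refine (mul_le_of_le_one_right (abs_nonneg _) (hξ1 a _)).trans ((hc1 a).1.trans ?_)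
      rw [div_le_div_iff₀ (by linarith) (by norm_num)]
      linarith
    simp only [sum_const, card_univ, Fintype.card_fin, nsmul_eq_mul] at a1
    linarith
  have hπ : 0 < π * (n : ℝ) ^ 4 := by have := pi_pos; positivity
  have hv0 : 0 < sav (kq n) (UW Fz W) x := by linarith
  obtain ⟨A, hA⟩ : ∃ A, A = 1 / 2 * log (W.card - 1) - (W.card - 2) / 2 *
    log (π * n ^ 4 * sav (kq n) (UW Fz W) x) - co Fz (W.erase b) x := ⟨_, rfl⟩
  have e : ∀ ρ : ∀ a, V (UW Fz W) (fun _ => b) a, ind (Line (fun _ => b) t (sw ρ x)) *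
      exp (ph Fz (W.erase b) (sw ρ x) - co Fz (W.erase b) (sw ρ x)) =
      exp A * (ind (∑ a, val x a (ρ a) = t) * exp (-((W.card - 2) / 2 *
        (log (sav (kq n) (UW Fz W) x - ∑ a, c a * ξ a (ρ a)) - log (sav (kq n) (UW Fz W) x))))) := by
    intro ρ
    have e1 : co Fz (W.erase b) (sw ρ x) = co Fz (W.erase b) x := by
      simp only [co, qq, (inv_dd _).sw ρ x]
    rw [line_sw, mul_left_comm, ← exp_add, e1, ph, hv', max_eq_left (hv2 ρ), hA,
      log_mul hπ.ne' hv0.ne', log_mul hπ.ne' (by linarith [hv2 ρ]), card_erase_of_mem hb,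
      Nat.cast_sub (by omega)]
    congr 2
    push_cast
    ring
  simp only [e, Ex_mul]
  have h6 := (h5.trans (near_log (lt_of_lt_of_le (by positivity) h3) h4)).mul_left (exp_pos A).le
  rw [← exp_add] at h6
  rw [show ph Fz W x - co Fz W x = _ from ?_]
  · exact h6.mono (exp_pos _).le (by linarith)
  · rw [hA, ph, max_eq_left (by linarith)]
    ring

end

section

open Finset Real

variable {n k : ℕ} {ε : ℝ} {Fz : Fin n → Finset (Fin n)} {W : Finset (Fin n)} {b : Fin n}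
  {x : Om n} {t : ℤ}

theorem sav_drift {U : Fin n → Finset (Fin n)} {p : Fin n → Fin n} (x : Om n)
    {κ : Fin (n ^ 2) → Fin (n ^ 2) → ℝ} (h0 : ∀ v y, 0 ≤ κ v y) (h1 : ∀ v y, κ v y ≤ 1)
    (hs : ∀ v, κ v v = 0) (hs' : ∀ v y, κ v y = κ y v) {B δ : ℝ}
    (hB : ∑ a, ind ((U a).card ≤ 2) ≤ B) (hδ : 0 < δ) (hδn : δ ≤ 4 * n) :
    Pr (fun ρ : ∀ a, V U p a =>
      ¬ |sav κ (fun a => (U a).erase (p a)) (sw ρ x) - sav κ U x| ≤ δ + B) ≤
      2 * exp (-(δ ^ 2 / (16 * n))) := by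
  set Y : ∀ a, V U p a → ℝ := fun a ρ =>
    av (fun b b' => κ (x (a, b)) (x (a, b'))) ((U a).erase ρ) with hY
  have a0 : ∀ a (S : Finset (Fin n)), 0 ≤ av (fun b b' => κ (x (a, b)) (x (a, b'))) S ∧
      av (fun b b' => κ (x (a, b)) (x (a, b'))) S ≤ 1 := fun a S =>
    ⟨av_nonneg fun _ _ => h0 _ _, av_le_one (fun _ _ => h1 _ _) fun _ => hs _⟩
  have h2 : ∀ a, |Ex (Y a) - av (fun b b' => κ (x (a, b)) (x (a, b'))) (U a)| ≤
      ind ((U a).card ≤ 2) := by
    intro a
    by_cases hc : (U a).card ≤ 2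
    · rw [ind_pos hc, abs_le]
      constructor <;> linarith [a0 a (U a), Ex_nonneg (f := Y a) fun ρ => (a0 a _).1,
        Ex_le_const (f := Y a) fun ρ => (a0 a _).2]
    rw [ind_neg hc, abs_nonpos_iff, sub_eq_zero]
    by_cases hp : p a ∈ U a
    · rw [← Ex_av_erase (φ := fun b b' => κ (x (a, b)) (x (a, b'))) (U := U a) (by omega)
        (fun _ => hs _) fun _ _ => hs' _ _, Ex_subtype (U a) fun ρ => av _ ((U a).erase ρ), hY,
        Ex_V_active hp fun ρ => av _ ((U a).erase ρ)]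
    · rw [hY, Ex_V_inactive hp fun ρ => av _ ((U a).erase ρ), erase_eq_of_notMem hp]
  refine le_trans (Pr_mono fun ρ => mt fun h => ?_) (hoeffding_abs Y (fun a ρ => by
    rw [abs_of_nonneg (a0 a _).1]; exact (a0 a _).2) (by simp) hδ hδn)
  have h3 := (abs_sum_le_sum_abs _ _).trans ((sum_le_sum fun a _ => h2 a).trans hB)
  rw [sum_sub_distrib] at h3
  rw [sav_sw]
  exact (abs_sub_le _ _ _).trans (add_le_add h h3)

theorem Frz.small (hF : Frz Fz) (hm : 3 ≤ W.card) :
    ∑ a, ind ((UW Fz W a).card ≤ 2) ≤ 2 * W.card := by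
  refine le_trans (sum_le_sum fun a _ => ?_) hF.sum_card
  by_cases h : (UW Fz W a).card ≤ 2
  · have : ((UW Fz W a).card : ℝ) + 1 ≤ W.card := by exact_mod_cast (by omega)
    rw [ind_pos h]
    linarith
  · rw [ind_neg h]
    exact sub_nonneg.2 (card_UW_le a)

theorem Frz.var2 (hF : Frz Fz) (hb : b ∈ W) (x : Om n) {S : ℝ}
    (hS : ∑ a, vr (fun c : V (UW Fz W) (fun _ => b) a => (val x a c : ℝ)) = S * (n ^ 2) ^ 2) :
    |2 * S - sav (kq n) (UW Fz W) x * (1 - 1 / W.card)| ≤ 2 * W.card ∧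
      2 * S ≤ sav (kq n) (UW Fz W) x := by
  have hn0 : (0 : ℝ) < n := by exact_mod_cast b.pos
  have h1 : 2 * S = ∑ a, (1 - ind (b ∈ Fz a)) *
      (avq x a (UW Fz W a) * (1 - 1 / (UW Fz W a).card)) := by
    simp only [vr_col hb, ← mul_sum] at hS
    exact mul_left_cancel₀ (by positivity : (n : ℝ) ^ 4 / 2 ≠ 0) (by rw [hS]; ring)
  have h2 := fun a => row_var2 (avq_nonneg x a (UW Fz W a)) (avq_le_one x a (UW Fz W a))
    (m := W.card) (f := (UW Fz W a).card) (by exact_mod_cast card_pos.2 ⟨b, hb⟩)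
    (by exact_mod_cast Nat.eq_zero_or_pos _) (ind_cases (b ∈ Fz a)) (by
      rcases (card_le_card (sdiff_subset : UW Fz W a ⊆ W)).eq_or_lt with h | h
      · refine Or.inl ⟨by exact_mod_cast h, ind_neg fun hb' => ?_⟩
        exact (mem_UW.1 ((eq_of_subset_of_card_le sdiff_subset h.ge).ge hb)).2 hb'
      · exact Or.inr (by exact_mod_cast h))
  rw [h1, sav, sum_mul, ← sum_sub_distrib]
  exact ⟨(abs_sum_le_sum_abs _ _).trans ((sum_le_sum fun a _ => (h2 a).1).trans hF.sum_card),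
    sum_le_sum fun a _ => (h2 a).2⟩

theorem Par2.line2 (h : Par2 n k ε) (hF : Frz Fz) (ht : 2 * t = n * (n ^ 2 - 1)) (hb : b ∈ W)
    (hm : 2 ≤ W.card) (hm0 : W.card ≤ 2 * k + 2) (hT : Tot W x) (hG : Gs (n / 8) (UW Fz W) x) :
    n / 50 ≤ sav (kq n) (UW Fz W) x ∧ Near (ε / (2 * k + 2))
      (Pr fun ρ : ∀ a, V (UW Fz W) (fun _ => b) a => Line (fun _ => b) t (sw ρ x))
      (exp (-(1 / 2 * log (π * n ^ 4 * sav (kq n) (UW Fz W) x)) + 1 / 2 * log W.card -
        1 / 2 * log (W.card - 1))) := by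
  have hn := h.nge
  have hn0 : (0 : ℝ) < n := by linarith
  have hm' : (2 : ℝ) ≤ W.card := by exact_mod_cast hm
  have hm0' : (W.card : ℝ) ≤ 2 * k + 2 := by exact_mod_cast hm0
  obtain ⟨d1, d2, -, d4, -, d6, -⟩ := h.dl_facts
  have a1 : ε / n + 671250 / n ≤ dl n k / n := by rw [← add_div]; gcongr; linarith [h.e1]
  have hA := aper_of (p := fun _ => b) (by exact_mod_cast (by linarith : (80 : ℝ) ≤ n)) hG
    (hF.inact hb)
  have hv := var_ge (by exact_mod_cast (by linarith : (1 : ℝ) ≤ n)) hA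
  obtain ⟨S, hS⟩ : ∃ S, ∑ a, vr (fun c : V (UW Fz W) (fun _ => b) a => (val x a c : ℝ)) =
    S * (n ^ 2) ^ 2 := ⟨_, (div_mul_cancel₀ _ (by positivity)).symm⟩
  have hS1 : n / 100 ≤ S := by
    rw [hS] at hv
    exact le_of_mul_le_mul_right (by linarith) (pow_pos hn0 4)
  obtain ⟨h2, h3⟩ := hF.var2 hb x hS
  have hv1 : n / 50 ≤ sav (kq n) (UW Fz W) x := by linarith
  have hv0 : 0 < sav (kq n) (UW Fz W) x := by linarith
  have a2 : 1 / 2 ≤ 1 - 1 / (W.card : ℝ) := by
    have : 1 / (W.card : ℝ) ≤ 1 / 2 := by gcongr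
    linarith
  have a3 : n / 50 * (1 / 2) ≤ sav (kq n) (UW Fz W) x * (1 - 1 / W.card) := by gcongr
  have h4 := (log_near' (η := 100 * (dl n k / n)) (by linarith) (h2.trans (by
    calc _ ≤ 100 * (dl n k / n) * (n / 50 * (1 / 2)) := by field_simp; linarith
      _ ≤ _ := by gcongr)) (by linarith)).2
  rw [log_mul hv0.ne' (by linarith), one_sub_div (by linarith),
    log_div (by linarith) (by linarith)] at h4
  obtain ⟨D, hD, hD1, -⟩ := hF.mean_col ht hb hT
  have hD2 : |∑ a, Ex (fun c : V (UW Fz W) (fun _ => b) a => (val x a c : ℝ)) - t| ≤ 6 * n ^ 2 := by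
    rw [hD, abs_mul, abs_of_pos (pow_pos hn0 2)]; gcongr; exact hD1.trans (by norm_num)
  have h1 := h.tl (fun a => V (UW Fz W) (fun _ => b) a) (fun a c => val x a c) t 0
    (fun a c => val_bd x a c) hA hD2 le_rfl (by positivity)
  obtain ⟨m1, m2, m3, -⟩ := sum_moments
    (X := fun a (c : V (UW Fz W) (fun _ => b) a) => (val x a c : ℝ)) (n := n) (by simp)
    fun a c => by exact_mod_cast val_bd x a c
  have h5 := (abs_sub_le _ _ _).trans (add_le_add h1
    (cf_near hn0 le_rfl (by positivity) m1 m2 m3 hD2 hv))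
  simp only [wt, zero_mul, exp_zero, mul_one, hS] at h5
  obtain ⟨h6, h7⟩ := log_near' one_pos (h5.trans (a1.trans (mul_one _).ge)) (by linarith)
  have h8 := pos_of_mul_pos_left h6 (sqrt_nonneg _)
  rw [log_line hn0 (by linarith) h8, log_one] at h7
  refine ⟨hv1, ?_⟩
  simp only [line_sw, Pr]
  refine near_log h8 ?_
  rw [log_mul (by have := pi_pos; positivity) hv0.ne']
  have a4 : 0 ≤ dl n k / n := by positivity
  rw [abs_le] at h4 h7 ⊢
  constructor <;> linarith [h4.1, h4.2, h7.1, h7.2]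

theorem Par2.fail (h : Par2 n k ε) (hF : Frz Fz) (hm0 : W.card ≤ 2 * k + 2) {γ : ℝ}
    (hG : Gs γ (UW Fz W) x) :
    Pr (fun ρ : ∀ a, V (UW Fz W) (fun _ => b) a => ¬ (3 ≤ W.card →
      Gs (γ - dl n k) (UW Fz (W.erase b)) (sw ρ x) ∧
        |sav (kq n) (UW Fz (W.erase b)) (sw ρ x) - sav (kq n) (UW Fz W) x| ≤ dl n k)) ≤
      ε / n * exp (-((2 * k + 2) * log (4 * n ^ 5))) := by
  refine le_trans ?_ h.p2
  by_cases hm : 3 ≤ W.card
  swap
  · rw [Pr_of_not fun ρ h' => h' fun h'' => absurd h'' hm]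
    positivity
  have hn0 : (0 : ℝ) < n := by linarith [h.nge]
  have hk0 : (0 : ℝ) < k := by linarith [h.kge]
  have hB : ∑ a, ind ((UW Fz W a).card ≤ 2) ≤ 2 * (2 * k + 2) :=
    (hF.small hm).trans (by exact_mod_cast (by omega))
  have key := fun (κ : Fin (n ^ 2) → Fin (n ^ 2) → ℝ) h0 h1 hs hs' =>
    sav_drift (p := fun _ => b) x (κ := κ) h0 h1 hs hs' hB (δ := √n * k) (by positivity)
      h.dl_facts.2.2.2.2.2.2
  rw [show (√n * k) ^ 2 / (16 * n) = k ^ 2 / 16 by rw [mul_pow, sq_sqrt hn0.le]; field_simp,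
    UW_erase] at key
  have h1 := key (kq n) (kq_nonneg n) (kq_le_one n) (kq_self n) fun v y => by
    rw [kq_eq, kq_eq]; ring
  have h2 : Pr (fun ρ : ∀ a, V (UW Fz W) (fun _ => b) a =>
      ¬ Gs (γ - dl n k) (UW Fz (W.erase b)) (sw ρ x)) ≤
      (n ^ 3 + 1) * (2 * exp (-(k ^ 2 / 16))) := by
    calc _ ≤ Pr (fun ρ : ∀ a, V (UW Fz W) (fun _ => b) a => ∃ r ∈ Icc n (n ^ 3),
          ¬ |sav (ks n r) (UW Fz (W.erase b)) (sw ρ x) - sav (ks n r) (UW Fz W) x| ≤ dl n k) := by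
          refine Pr_mono fun ρ hρ => ?_
          simp only [Gs, not_forall, not_le] at hρ
          obtain ⟨r, h3, h4, h5⟩ := hρ
          exact ⟨r, mem_Icc.2 ⟨h3, h4⟩, fun h6 => by linarith [(abs_le.1 h6).1, hG r h3 h4]⟩
      _ ≤ ∑ _r ∈ Icc n (n ^ 3), 2 * exp (-(k ^ 2 / 16)) :=
          (Pr_exists_le _ _).trans (sum_le_sum fun r _ =>
            key _ (ks_nonneg n r) (ks_le_one n r) (ks_self n r) (ks_symm n r))
      _ ≤ _ := by
          rw [sum_const, Nat.card_Icc, nsmul_eq_mul]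
          gcongr
          exact_mod_cast Nat.sub_le _ _
  simp only [hm, true_imp_iff]
  refine (Pr_not_and _ _).trans ((add_le_add h2 h1).trans_eq (by ring))

theorem Par2.step2 (h : Par2 n k ε) (hF : Frz Fz) (ht : 2 * t = n * (n ^ 2 - 1)) (hb : b ∈ W)
    (hm : 2 ≤ W.card) (hm0 : W.card ≤ 2 * k + 2) (hT : Tot W x) {γ : ℝ} (hγ : n / 8 ≤ γ)
    (hG : Gs γ (UW Fz W) x) :
    Near (53 * (ε / (2 * k + 2)))
      (Ex fun ρ : ∀ a, V (UW Fz W) (fun _ => b) a => ind (Line (fun _ => b) t (sw ρ x) ∧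
        (3 ≤ W.card → Gs (γ - dl n k) (UW Fz (W.erase b)) (sw ρ x))) *
          exp (ph Fz (W.erase b) (sw ρ x))) (exp (ph Fz W x)) ∧
    Pr (fun ρ : ∀ a, V (UW Fz W) (fun _ => b) a =>
      ¬ (3 ≤ W.card → Gs (γ - dl n k) (UW Fz (W.erase b)) (sw ρ x))) ≤
      ε / (2 * k + 2) * exp (ph Fz W x) := by
  have hn := h.nge
  have hn0 : (0 : ℝ) < n := by linarith
  have he := h.e0
  have hm' : (2 : ℝ) ≤ W.card := by exact_mod_cast hm
  have hm0' : (W.card : ℝ) ≤ 2 * k + 2 := by exact_mod_cast hm0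
  have hc : ((W.erase b).card : ℝ) = W.card - 1 := by
    rw [card_erase_of_mem hb, Nat.cast_sub (by omega), Nat.cast_one]
  obtain ⟨d1, -, d3, d4, d5, d6, -⟩ := h.dl_facts
  have a0 : 0 ≤ dl n k / n := by positivity
  have a1 : -((2 * k + 2) * log (4 * n ^ 5)) ≤ ph Fz W x - 1 := by
    have b1 := ph_ge (Fz := Fz) (by exact_mod_cast (by linarith : (1 : ℝ) ≤ n))
      (by omega : 1 ≤ W.card) x
    have b2 : 1 ≤ log (4 * (n : ℝ) ^ 5) := by
      rw [le_log_iff_exp_le (by positivity)]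
      linarith [exp_one_lt_d9, one_le_pow₀ (n := 5) (by linarith : (1 : ℝ) ≤ n)]
    nlinarith
  have h0 := h.fail (b := b) hF hm0 hG
  obtain ⟨hv, h1⟩ := h.line2 hF ht hb hm hm0 hT fun r h1 h2 => hγ.trans (hG r h1 h2)
  obtain ⟨A, hA⟩ : ∃ A, A = 1 / 2 * log (W.card - 1) - (W.card - 1 - 1) / 2 *
    log (π * n ^ 4 * sav (kq n) (UW Fz W) x) := ⟨_, rfl⟩
  have h2 := h1.mul_left (exp_pos A).le
  rw [← exp_add, show A + _ = ph Fz W x by rw [hA, ph, max_eq_left hv]; ring, Pr, ← Ex_mul] at h2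
  have hb1 : ∀ (p : Prop) {y : ℝ}, y ≤ 0 → 0 ≤ ind p * exp y ∧ ind p * exp y ≤ 1 := fun p y hy =>
    ⟨mul_nonneg (ind_nonneg _) (exp_pos _).le,
      mul_le_one₀ (ind_le_one _) (exp_pos _).le (exp_le_one_iff.2 hy)⟩
  refine ⟨((Ex_near_on (K := 1) (η := 50 * (ε / (2 * k + 2))) (η' := ε / n)
    (fun ρ => hb1 _ ?_) (fun ρ => ?_) (fun ρ hρ => ?_) h0 zero_le_one ?_ (by positivity)
    (by positivity) (by linarith)).trans h2).mono (exp_pos _).le (by linarith), ?_⟩
  · refine (ph_le (by exact_mod_cast hn) (by rw [card_erase_of_mem hb]; omega) _).trans ?_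
    rw [hc]
    linarith
  · rw [mul_comm]
    exact hb1 _ (hA ▸ (ph_le0 hn (by linarith) hv).trans (by linarith))
  · rw [show ind (Line (fun _ => b) t (sw ρ x) ∧ (3 ≤ W.card →
      Gs (γ - dl n k) (UW Fz (W.erase b)) (sw ρ x))) = ind (Line (fun _ => b) t (sw ρ x)) by
        rw [and_iff_left fun h3 => (hρ h3).1], mul_comm (exp A)]
    refine (near_exp ?_).mul_left (ind_nonneg _)
    rw [hA, ph, hc, sub_sub_sub_cancel_left, ← mul_sub]
    by_cases h3 : 3 ≤ W.card
    · have b1 : |max (sav (kq n) (UW Fz (W.erase b)) (sw ρ x)) (n / 50) -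
          sav (kq n) (UW Fz W) x| ≤ 50 * (dl n k / n) * sav (kq n) (UW Fz W) x := by
        nth_rewrite 1 [← max_eq_left hv]
        refine (abs_max_sub_max_le_abs _ _ _).trans ((hρ h3).2.trans ?_)
        calc _ = 50 * (dl n k / n) * (n / 50) := by field_simp
          _ ≤ _ := by gcongr
      obtain ⟨b2, b3⟩ := log_near' (by linarith) b1 (by linarith)
      have hπ : π * (n : ℝ) ^ 4 ≠ 0 := by have := pi_pos; positivity
      rw [log_mul hπ b2.ne', log_mul hπ (by linarith), add_sub_add_left_eq_sub, abs_mul,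
        abs_sub_comm, abs_of_nonneg (by linarith)]
      calc _ ≤ (2 * k + 2) / 2 * (2 * (50 * (dl n k / n))) := by gcongr; linarith
        _ ≤ _ := by linarith
    · rw [show W.card = 2 by omega]
      norm_num
      positivity
  · rw [one_mul]
    gcongr
    refine le_trans ?_ h2.1
    rw [← exp_add]
    exact exp_le_exp.2 (by linarith)
  · refine (Pr_mono fun ρ hρ h' => hρ fun h3 => (h' h3).1).trans (h0.trans ?_)
    gcongr
    linarith

/-- All columns of `W` have sum `t`. -/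
def AllC (t : ℤ) (W : Finset (Fin n)) (x : Om n) : Prop := ∀ b ∈ W, Line (fun _ => b) t x

theorem allC_erase (hb : b ∈ W) : AllC t W x ↔ Line (fun _ => b) t x ∧ AllC t (W.erase b) x :=
  ⟨fun h => ⟨h b hb, fun c hc => h c (mem_of_mem_erase hc)⟩, fun h c hc => by
    by_cases e : c = b
    · exact e ▸ h.1
    · exact h.2 c (mem_erase.2 ⟨e, hc⟩)⟩

theorem InvF.resample {U : Fin n → Finset (Fin n)} (p : Fin n → Fin n) {F : Om n → ℝ}
    (hF : InvF U F) (G : Om n → ℝ) :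
    Ex (fun x => F x * G x) = Ex fun x => F x * Ex fun ρ : ∀ a, V U p a => G (H9.sw ρ x) := by
  rw [Ex_resample (H9.sw (U := U) (p := p))]
  simp only [hF.sw, Ex_mul]

theorem UW_mono (a : Fin n) : UW Fz (W.erase b) a ⊆ UW Fz W a :=
  sdiff_subset_sdiff (erase_subset _ _) Subset.rfl

theorem Par2.phase2 (h : Par2 n k ε) (hF : Frz Fz) (ht : 2 * t = n * (n ^ 2 - 1)) (m : ℕ)
    (hm : 1 ≤ m) (hm0 : m ≤ 2 * k + 2) : ∀ W : Finset (Fin n), W.card = m → ∀ F : Om n → ℝ,
      (∀ x, 0 ≤ F x) → InvF (UW Fz W) F →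
      (∀ x, F x ≠ 0 → Tot W x ∧ (2 ≤ m → Gs (n / 8 + m * dl n k) (UW Fz W) x)) →
      Near (m * (54 * (ε / (2 * k + 2)))) (Ex fun x => F x * ind (AllC t W x))
        (Ex fun x => F x * exp (ph Fz W x)) := by
  have he : 0 ≤ ε / (2 * k + 2) := by have := h.e0; positivity
  have hd : 0 ≤ dl n k := by linarith [h.dl_facts.1]
  induction m, hm using Nat.le_induction with
  | base =>
    intro W hW F hF0 _ hT
    obtain ⟨b, rfl⟩ := card_eq_one.1 hW
    refine Ex_near fun x => near_mul (hF0 x) fun hx => ?_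
    rw [ind_pos (p := AllC t {b} x) (by simpa [AllC, line_iff ht, Tot] using (hT x hx).1)]
    simpa [ph] using (near_refl 1).mono zero_le_one (by positivity : 0 ≤ 54 * (ε / (2 * k + 2)))
  | succ m hm ih =>
    intro W hW F hF0 hI hT
    obtain ⟨b, hb⟩ := card_pos.1 (by omega : 0 < W.card)
    have h1 := fun x hx => h.step2 hF ht hb (by omega) (by omega) (hT x hx).1
      (le_add_of_nonneg_right (by positivity)) ((hT x hx).2 (by omega))
    rw [show (n : ℝ) / 8 + (m + 1 : ℕ) * dl n k - dl n k = n / 8 + m * dl n k by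
      push_cast; ring] at h1
    set G : Om n → Prop := fun x => 3 ≤ W.card → Gs (n / 8 + m * dl n k) (UW Fz (W.erase b)) x
    have h2 := ih (by omega) (W.erase b) (by rw [card_erase_of_mem hb]; omega)
      (fun x => F x * ind (Line (fun _ => b) t x ∧ G x))
      (fun x => mul_nonneg (hF0 x) (ind_nonneg _))
      ((hI.mono UW_mono).mul (Inv.ind (inv_line.and fun g hg x =>
        imp_congr_right fun _ => inv_gs g hg x))) fun x hx => by
        have hx' : Line (fun _ => b) t x ∧ G x := by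
          by_contra h'
          exact hx (by rw [ind_neg h', mul_zero])
        exact ⟨tot_erase ht hb (hT x (left_ne_zero_of_mul hx)).1 hx'.1,
          fun h2 => hx'.2 (by omega)⟩
    simp only [mul_assoc] at h2
    rw [hI.resample (fun _ => b) fun x => _ * exp _] at h2
    have h3 := h2.trans (Ex_near fun x => near_mul (hF0 x) fun hx => (h1 x hx).1)
    have h4 : (Ex fun x => F x * ind (¬ G x)) ≤
        ε / (2 * k + 2) * Ex fun x => F x * exp (ph Fz W x) := by
      rw [hI.resample fun _ => b, ← Ex_mul]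
      refine Ex_mono fun x => ?_
      by_cases hx : F x = 0
      · simp [hx]
      · rw [mul_left_comm]
        exact mul_le_mul_of_nonneg_left (h1 x hx).2 (hF0 x)
    have hE := Ex_nonneg fun x => mul_nonneg (hF0 x) (exp_pos (ph Fz W x)).le
    have h5 := h3.add hE (by positivity) he (r := Ex fun x => F x * ind (¬ G x ∧ AllC t W x))
      (Ex_nonneg fun x => mul_nonneg (hF0 x) (ind_nonneg _))
      (le_trans (Ex_mono fun x => mul_le_mul_of_nonneg_left (ind_mono And.left) (hF0 x)) h4)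
    rw [← Ex_add] at h5
    convert h5 using 2
    · push_cast; ring
    · funext x
      rw [← mul_add, ← ind_and, allC_erase hb]
      by_cases hG : G x
      · simp only [ind_and, ind_pos hG, ind_neg (not_not.2 hG)]; ring
      · simp only [ind_and, ind_neg hG, ind_pos (p := ¬ G x) hG]; ring

end

section

open Finset Real

variable {n k : ℕ} {ε : ℝ} {Fz : Fin n → Finset (Fin n)} {W : Finset (Fin n)} {x : Om n} {t : ℤ}

theorem beta2_nonneg : 0 ≤ beta2 n k ε := by unfold beta2; positivity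

theorem Par2.bad (h : Par2 n k ε) {U : Fin n → Finset (Fin n)} (hU : ∀ a, 2 * k ≤ (U a).card) :
    Pr (fun x => ¬ Good2 ε U x) ≤ beta2 n k ε :=
  bad2_le (by exact_mod_cast (by linarith [h.kge] : (0 : ℝ) < k)) hU h.e0 (by linarith [h.e1])
    (by exact_mod_cast (by linarith [h.nge] : (2 : ℝ) ≤ n)) h.kn

theorem Par2.avg (h : Par2 n k ε) (hF : Frz Fz) (ht : 2 * t = n * (n ^ 2 - 1))
    (hm : 2 * k + 2 < W.card) (hT : Tot W x) (hG : Good2 ε (UW Fz W) x) :
    Near (2000 * √(ε / n / W.card)) (Ex fun b : W =>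
      Ex fun ρ : ∀ a, V (UW Fz W) (fun _ => b) a => ind (Line (fun _ => b) t (sw ρ x)) *
        exp (ph Fz (W.erase b) (sw ρ x) - co Fz (W.erase b) (sw ρ x)))
      (exp (ph Fz W x - co Fz W x)) := by
  have hn := h.nge
  have hm0 : (0 : ℝ) < W.card := by exact_mod_cast (by omega)
  have : Nonempty W := (card_pos.1 (by omega)).to_subtype
  have h0 : ∀ b, 0 ≤ Eb Fz W x b := fun b => add_nonneg
    (sum_nonneg fun a _ => mul_nonneg (ind_nonneg _) (abs_nonneg _))
    (sum_nonneg fun a _ => mul_nonneg (ind_nonneg _) (abs_nonneg _))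
  have h1 : ∀ b, Eb Fz W x b ≤ 4 := fun b => by
    have a1 := hF.sum_ind b fun a => abs_mom_le 1 x a (UW Fz W a)
    have a2 := hF.sum_ind b (f := fun a => avq x a (UW Fz W a) - 1 / 6) (K := 1) fun a => by
      rw [abs_le]
      constructor <;> linarith [avq_nonneg x a (UW Fz W a), avq_le_one x a (UW Fz W a)]
    unfold Eb
    linarith
  have h2 : ∀ f : Fin n → ℝ, ∑ a, |f a| ≤ ε * n →
      ∑ b ∈ W, ∑ a, ind (b ∈ Fz a) * |f a| ≤ 2 * (ε * n) := fun f hf => by
    rw [sum_comm]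
    refine le_trans (sum_le_sum fun a _ => ?_) (le_trans (mul_sum _ _ _).ge
      (mul_le_mul_of_nonneg_left hf zero_le_two))
    have : (W.card : ℝ) ≤ (UW Fz W a).card + 2 := by exact_mod_cast hF.card_ge a
    rw [← sum_mul, ← card_UW]
    gcongr
    linarith
  have h3 := (h.theta hm0 (by simpa using card_le_univ W)).2 (Ex fun b : W => Eb Fz W x b) 4
    (Ex_nonneg fun b => h0 b) (by norm_num) (Ex_le_const fun b => h1 b) (by
      rw [Ex_subtype W (Eb Fz W x)]
      gcongr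
      simp only [Eb, sum_add_distrib]
      linarith [h2 _ hG.2.1, h2 _ hG.2.2.1])
  refine (near_avg (exp_pos _).le (y := fun b : W => 43 * Eb Fz W x b / n)
    (s := 43 * (4 * √(ε / (n * W.card)))) (fun b => by have := h0 b; positivity)
    (fun b => by rw [div_le_one (by linarith)]; linarith [h1 b]) ?_
    fun b => h.step1 hF ht b.2 hm hT hG).mono (exp_pos _).le ?_
  · simp only [div_eq_mul_inv, Ex_mul, Ex_mul'] at h3 ⊢
    linarith
  · rw [div_div]
    linarith [sqrt_nonneg (ε / (n * W.card))]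

theorem Par2.phase1 (h : Par2 n k ε) (hF : Frz Fz) (ht : 2 * t = n * (n ^ 2 - 1)) (m : ℕ)
    (hm : 2 * k + 2 ≤ m) : ∀ W : Finset (Fin n), W.card = m → ∀ F : Om n → ℝ,
      (∀ x, 0 ≤ F x ∧ F x ≤ 1) → InvF (UW Fz W) F → (∀ x, F x ≠ 0 → Tot W x) →
      Nr (55 * ε + 4000 * √(ε / n * m)) (m * beta2 n k ε) (Ex fun x => F x * ind (AllC t W x))
        (Ex fun x => F x * exp (ph Fz W x - co Fz W x)) := by
  have he := h.e0
  have hn := h.nge
  have hk := h.kge
  have hβ := beta2_nonneg (n := n) (k := k) (ε := ε)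
  have hΨ : ∀ W : Finset (Fin n), 2 ≤ W.card → ∀ x, 0 ≤ exp (ph Fz W x - co Fz W x) ∧
      exp (ph Fz W x - co Fz W x) ≤ 1 := fun W hW x =>
    ⟨(exp_pos _).le, hF.psi_le (by exact_mod_cast hn) hW x⟩
  induction m, hm using Nat.le_induction with
  | base =>
    intro W hW F hF0 hI hT
    have hb : Pr (fun x => ¬ Gs (n / 4) (UW Fz W) x) ≤ beta2 n k ε :=
      (Pr_mono fun x => mt And.left).trans (h.bad fun a => by have := hF.card_ge (W := W) a; omega)
    have h1 := h.phase2 hF ht (2 * k + 2) (by omega) le_rfl W hW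
      (fun x => F x * ind (Gs (n / 4) (UW Fz W) x))
      (fun x => mul_nonneg (hF0 x).1 (ind_nonneg _)) (hI.mul inv_gs.ind) fun x hx => by
        refine ⟨hT x (left_ne_zero_of_mul hx), fun _ r h1 h2 => le_trans ?_
          ((by_contra fun h' => hx (by rw [ind_neg h', mul_zero]) : Gs _ _ x) r h1 h2)⟩
        have a1 : (2 * k + 2) * dl n k ≤ (2 * k + 2) ^ 2 * dl n k := by
          gcongr; exacts [by linarith [h.dl_facts.1], by nlinarith]
        push_cast
        linarith [h.p1, h.small]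
    have h2 := h1.trans (Ex_near fun x => (near_exp (η := ε) (b := ph Fz W x - co Fz W x) (by
      rw [sub_sub_cancel]
      refine (hF.abs_co x).trans ?_
      rw [hW, div_le_iff₀ (by linarith)]
      push_cast
      linarith [h.kn])).mul_left (mul_nonneg (hF0 x).1 (ind_nonneg _)))
    rw [show ((2 * k + 2 : ℕ) : ℝ) * (54 * (ε / (2 * k + 2))) + ε = 55 * ε by
      push_cast; field_simp; ring] at h2
    simp only [mul_assoc] at h2
    have key : ∀ P : Om n → ℝ, (∀ x, 0 ≤ P x ∧ P x ≤ 1) → _ := fun P hP =>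
      near_off (J := fun x => ind (Gs (n / 4) (UW Fz W) x) * P x) le_rfl hF0
        (fun x => ⟨mul_nonneg (ind_nonneg _) (hP x).1,
          mul_le_one₀ (ind_le_one _) (hP x).1 (hP x).2⟩) hP hb fun x _ hx => by
            rw [ind_pos hx, one_mul]; exact near_refl _
    have h3 := key (fun x => ind (AllC t W x)) fun x => ⟨ind_nonneg _, ind_le_one _⟩
    have h4 := key _ (hΨ W (by omega))
    have h5 : ∀ P : Om n → ℝ, (∀ x, 0 ≤ P x) →
        (Ex fun x => F x * (ind (Gs (n / 4) (UW Fz W) x) * P x)) ≤ Ex fun x => F x * P x :=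
      fun P hP => Ex_mono fun x => mul_le_mul_of_nonneg_left
        (mul_le_of_le_one_left (hP x) (ind_le_one _)) (hF0 x).1
    simp only [neg_zero, exp_zero, one_mul] at h3 h4
    have e1 : exp (-(55 * ε)) * beta2 n k ε ≤ 1 * beta2 n k ε := by
      gcongr; exact exp_le_one_iff.2 (by linarith)
    have e2 : 1 * beta2 n k ε ≤ exp (55 * ε) * beta2 n k ε := by
      gcongr; exact one_le_exp (by linarith)
    have e3 := mul_le_mul_of_nonneg_left h4.1 (exp_pos (-(55 * ε))).le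
    have e4 := mul_le_mul_of_nonneg_left (h5 _ fun x => (hΨ W (by omega) x).1)
      (exp_pos (55 * ε)).le
    refine Nr.mono (η := 55 * ε) (δ := beta2 n k ε)
      ⟨by linarith [h2.1, h5 (fun x => ind (AllC t W x)) fun x => ind_nonneg _],
        by linarith [h2.2, h3.1]⟩
      (Ex_nonneg fun x => mul_nonneg (hF0 x).1 (exp_pos _).le) hβ
      (le_add_of_nonneg_right (by positivity)) (le_mul_of_one_le_left hβ (by push_cast; linarith))
  | succ m hm ih =>
    intro W hW F hF0 hI hT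
    have : Nonempty W := (card_pos.1 (by omega)).to_subtype
    have hW' : ∀ b : W, (W.erase b).card = m := fun b => by rw [card_erase_of_mem b.2]; omega
    have h1 := Nr.avg fun b : W => by
      have := ih (W.erase b) (hW' b) (fun x => F x * ind (Line (fun _ => b) t x))
        (fun x => ⟨mul_nonneg (hF0 x).1 (ind_nonneg _),
          mul_le_one₀ (hF0 x).2 (ind_nonneg _) (ind_le_one _)⟩)
        ((hI.mono UW_mono).mul inv_line.ind) fun x hx => tot_erase ht b.2
          (hT x (left_ne_zero_of_mul hx)) (by_contra fun h' => hx (by rw [ind_neg h', mul_zero]))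
      simp only [mul_assoc, ← ind_and, ← allC_erase b.2] at this
      rw [hI.resample (fun _ => b) fun x => _ * exp _] at this
      exact this
    rw [Ex_comm] at h1
    simp only [Ex_mul] at h1
    have hJ : ∀ (b : W) (y : Om n), 0 ≤ ind (Line (fun _ => b) t y) *
        exp (ph Fz (W.erase b) y - co Fz (W.erase b) y) ∧ ind (Line (fun _ => b) t y) *
        exp (ph Fz (W.erase b) y - co Fz (W.erase b) y) ≤ 1 := fun b y =>
      ⟨mul_nonneg (ind_nonneg _) (exp_pos _).le, mul_le_one₀ (ind_le_one _) (exp_pos _).le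
        (hΨ _ (by rw [hW']; omega) y).2⟩
    obtain ⟨h2, h3⟩ := near_off (by positivity) hF0
      (fun x => ⟨Ex_nonneg fun b => Ex_nonneg fun ρ => (hJ b _).1,
        Ex_le_const fun b => Ex_le_const fun ρ => (hJ b _).2⟩) (hΨ W (by omega))
      (h.bad fun a => by have := hF.card_ge (W := W) a; omega)
      fun x hx hG => h.avg hF ht (by omega) (hT x hx) hG
    refine (h1.trans (by positivity) (by positivity) (by positivity) hβ h2 h3).mono
      (Ex_nonneg fun x => mul_nonneg (hF0 x).1 (exp_pos _).le) (by positivity) ?_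
      (le_of_eq (by push_cast; ring))
    have := sqrt_step (c := ε / n) (m := m) (by positivity) (by positivity)
    rw [hW]
    push_cast
    linarith

theorem tot_univ (ht : 2 * t = n * (n ^ 2 - 1)) (x : Om n) : Tot univ x := by
  have h1 : (2 * t : ℝ) = n * (n ^ 2 - 1) := by exact_mod_cast ht
  have h2 : ∑ a, ∑ b, (val x a b : ℝ) = n * t := by exact_mod_cast total ht x
  rcases Nat.eq_zero_or_pos n with rfl | hn
  · simp [Tot]
  simp only [val_eq, sum_add_distrib, ← mul_sum, sum_const, card_univ, Fintype.card_fin,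
    nsmul_eq_mul] at h2
  exact (mul_eq_zero.1 (by linear_combination h2 + n / 2 * h1)).resolve_left
    (by positivity : (n : ℝ) ^ 2 ≠ 0)

theorem Par2.main (h : Par2 n k ε) (hF : Frz Fz) (ht : 2 * t = n * (n ^ 2 - 1)) {F : Om n → ℝ}
    (hF0 : ∀ x, 0 ≤ F x ∧ F x ≤ 1) (hI : InvF (UW Fz univ) F) :
    Nr (55 * ε + 4000 * √ε) (n * beta2 n k ε) (Ex fun x => F x * ind (Cols t n x))
      (Ex fun x => F x * exp (ph Fz univ x - co Fz univ x)) := by
  have := h.phase1 hF ht n (by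
    exact_mod_cast (by linarith [h.kn, h.small, h.kge] : (2 * k + 2 : ℝ) ≤ n)) univ (by simp) F
    hF0 hI fun x _ => tot_univ ht x
  rw [div_mul_cancel₀ _ (by linarith [h.nge])] at this
  simpa [AllC, Cols, Line] using this

end

end Pool.Agent.MP_f80039_co.H9
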