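import Pool.Agent.MP_f80039_co.H9.Base

/-! Moments, exponential tail bounds, pair averages. -/

set_option autoImplicit false

namespace Pool.Agent.MP_f80039_co.H9

section

open Finset Real

section one

variable {γ : Type*} [Fintype γ] [Nonempty γ]

/-- The centred variable. -/
noncomputable def zc (X : γ → ℝ) (c : γ) : ℝ := X c - Ex X

/-- The third central moment. -/
noncomputable def m3 (X : γ → ℝ) : ℝ := Ex fun c => zc X c ^ 3

/-- The variance of the squared centred variable. -/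
noncomputable def p4 (X : γ → ℝ) : ℝ := (Ex fun c => zc X c ^ 4) - vr X ^ 2

theorem Ex_zc (X : γ → ℝ) : Ex (zc X) = 0 := by
  unfold zc; rw [Ex_sub, Ex_const, sub_self]

omit [Nonempty γ] in
theorem Ex_zc_sq (X : γ → ℝ) : (Ex fun c => zc X c ^ 2) = vr X := rfl

variable {X : γ → ℝ} {N : ℝ}

theorem tilt_abs (h : ∀ c, 0 ≤ X c ∧ X c ≤ N) (c : γ) : |zc X c ^ 2 - vr X| ≤ N ^ 2 := by
  have h1 := abs_le.1 (abs_sub_Ex_le h c)
  have h2 : zc X c ^ 2 ≤ N ^ 2 := sq_le_sq' h1.1 h1.2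
  rw [abs_le]
  constructor <;> linarith [vr_le h, vr_nonneg X, sq_nonneg (zc X c)]

theorem moment_bounds (h : ∀ c, 0 ≤ X c ∧ X c ≤ N) :
    |m3 X| ≤ N ^ 3 ∧ |p4 X| ≤ N ^ 4 ∧ vr X ^ 2 ≤ N ^ 4 := by
  have h1 : ∀ k, |Ex fun c => zc X c ^ k| ≤ N ^ k := fun k => abs_Ex_le fun c => by
    rw [abs_pow]; gcongr; exact abs_sub_Ex_le h c
  have h2 : vr X ^ 2 ≤ N ^ 4 := by
    calc _ ≤ (N ^ 2) ^ 2 := by gcongr; exacts [vr_nonneg X, vr_le h]
      _ = _ := by ring
  have h3 : 0 ≤ Ex fun c => zc X c ^ 4 := Ex_nonneg fun c => by positivity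
  refine ⟨h1 3, ?_, h2⟩
  rw [p4, abs_le]
  constructor <;> linarith [(abs_le.1 (h1 4)).2, sq_nonneg (vr X)]

end one

section sum

variable {ι : Type*} [Fintype ι] [DecidableEq ι] {α : ι → Type*} [∀ i, Fintype (α i)]
  [∀ i, Nonempty (α i)]

/-- The tilting weight. -/
noncomputable def wt (X : ∀ i, α i → ℝ) (τ : ℝ) (x : ∀ i, α i) : ℝ :=
  exp (τ * ∑ i, (zc (X i) (x i) ^ 2 - vr (X i)))

omit [DecidableEq ι] in
theorem sum_moments {X : ∀ i, α i → ℝ} {n : ℝ} (hc : Fintype.card ι = n)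
    (h : ∀ i a, 0 ≤ X i a ∧ X i a ≤ n ^ 2) :
    |∑ i, p4 (X i)| ≤ n ^ 9 ∧ |∑ i, vr (X i) ^ 2| ≤ n ^ 9 ∧ |∑ i, m3 (X i)| ≤ n ^ 7 ∧
      ∑ i, vr (X i) ≤ n ^ 5 := by
  have key : ∀ (f : ι → ℝ) (c : ℝ), (∀ i, |f i| ≤ c) → |∑ i, f i| ≤ n * c := fun f c hf =>
    (abs_sum_le_sum_abs _ _).trans ((sum_le_sum fun i _ => hf i).trans (by simp [hc]))
  refine ⟨(key _ _ fun i => (moment_bounds (h i)).2.1).trans_eq (by ring),
    (key _ _ fun i => (abs_of_nonneg (sq_nonneg _)).trans_le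
      (moment_bounds (h i)).2.2).trans_eq (by ring),
    (key _ _ fun i => (moment_bounds (h i)).1).trans_eq (by ring), (le_abs_self _).trans
    ((key _ _ fun i => (abs_of_nonneg (vr_nonneg _)).trans_le (vr_le (h i))).trans_eq (by ring))⟩

end sum

end

section

open Finset Real

theorem avg_sub {α : Type*} [DecidableEq α] {U W : Finset α} (hUW : U ⊆ W) (hU : U.Nonempty)
    {y : α → ℝ} {M : ℝ} (hy : ∀ c, |y c| ≤ M) :
    |(∑ c ∈ U, y c) / U.card - (∑ c ∈ W, y c) / W.card| ≤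
      2 * M * (W.card - U.card) / W.card := by
  have hf : (0 : ℝ) < U.card := by exact_mod_cast hU.card_pos
  have hfm : (U.card : ℝ) ≤ W.card := by exact_mod_cast card_le_card hUW
  have hm : (0 : ℝ) < W.card := by linarith
  have hA : |∑ c ∈ U, y c| ≤ U.card * M :=
    (abs_sum_le_sum_abs _ _).trans ((sum_le_sum fun c _ => hy c).trans (by simp))
  have hB : |∑ c ∈ W \ U, y c| ≤ (W.card - U.card) * M := by
    refine (abs_sum_le_sum_abs _ _).trans ((sum_le_sum fun c _ => hy c).trans ?_)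
    simp [card_sdiff_of_subset hUW, Nat.cast_sub (card_le_card hUW)]
  rw [← sum_sdiff hUW]
  set A := ∑ c ∈ U, y c
  set B := ∑ c ∈ W \ U, y c
  generalize (U.card : ℝ) = f at *
  generalize (W.card : ℝ) = m at *
  have e : A / f - (B + A) / m = (A * (m - f) / f - B) / m := by field_simp; ring
  rw [e, abs_div, abs_of_pos hm]
  gcongr
  have h1 : |A * (m - f) / f| ≤ (m - f) * M := by
    rw [abs_div, abs_mul, abs_of_pos hf, abs_of_nonneg (sub_nonneg.2 hfm), div_le_iff₀ hf]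
    nlinarith [sub_nonneg.2 hfm]
  linarith [abs_sub (A * (m - f) / f) B]

theorem Ex_subtype {α : Type*} (U : Finset α) (y : α → ℝ) :
    Ex (fun c : U => y c) = (∑ c ∈ U, y c) / U.card := by
  simp only [Ex, sum_coe_sort, Fintype.card_coe]

theorem exp_le_quad {y : ℝ} (hy : |y| ≤ 1) : exp y ≤ 1 + y + y ^ 2 := by
  linarith [(abs_le.1 (abs_exp_sub_one_sub_id_le hy)).2]

theorem Pr_le_exp {Ω : Type*} [Fintype Ω] (f : Ω → ℝ) (a : ℝ) :
    Pr (fun ω => a < f ω) ≤ exp (-a) * Ex fun ω => exp (f ω) := by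
  rw [← Ex_mul]
  refine Ex_mono fun ω => ?_
  rw [← exp_add]
  by_cases h : a < f ω
  · rw [ind_pos h]; exact one_le_exp (by linarith)
  · rw [ind_neg h]; exact (exp_pos _).le

theorem exp_Ex_le {Ω : Type*} [Fintype Ω] [Nonempty Ω] (f : Ω → ℝ) :
    exp (Ex f) ≤ Ex fun ω => exp (f ω) := by
  have : (Ex fun ω => exp (Ex f) * (f ω - Ex f + 1)) = exp (Ex f) := by
    rw [Ex_mul, Ex_add, Ex_sub, Ex_const, Ex_const]; ring
  rw [← this]
  refine Ex_mono fun ω => ?_
  calc _ ≤ exp (Ex f) * exp (f ω - Ex f) := by gcongr; exact add_one_le_exp _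
    _ = _ := by rw [← exp_add]; ring_nf

theorem hoeffding {ι : Type*} [Fintype ι] [DecidableEq ι] {α : ι → Type*} [∀ i, Fintype (α i)]
    [∀ i, Nonempty (α i)] (Y : ∀ i, α i → ℝ) (hY : ∀ i a, |Y i a| ≤ 1) {n δ : ℝ}
    (hn : Fintype.card ι = n) (hδ : 0 < δ) (hδn : δ ≤ 4 * n) :
    Pr (fun x : ∀ i, α i => ∑ i, Y i (x i) < ∑ i, Ex (Y i) - δ) ≤ exp (-(δ ^ 2 / (16 * n))) := by
  have hn0 : 0 < n := by linarith
  set l := δ / (8 * n) with hl
  have hl0 : 0 < l := by positivity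
  have hl1 : l ≤ 1 / 2 := by rw [hl, div_le_iff₀ (by positivity)]; linarith
  calc _ ≤ Pr (fun x : ∀ i, α i => l * δ < ∑ i, l * (Ex (Y i) - Y i (x i))) := by
        refine Pr_mono fun x hx => ?_
        rw [← mul_sum, sum_sub_distrib]
        gcongr
        linarith
    _ ≤ _ := Pr_le_exp _ _
    _ = exp (-(l * δ)) * ∏ i, Ex fun a => exp (l * (Ex (Y i) - Y i a)) := by
        simp only [exp_sum]
        rw [Ex_pi_prod fun i a => exp (l * (Ex (Y i) - Y i a))]
    _ ≤ exp (-(l * δ)) * ∏ _i : ι, exp (4 * l ^ 2) := by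
        gcongr with i
        · exact fun i _ => Ex_nonneg fun _ => (exp_pos _).le
        have h2 : ∀ a, |Ex (Y i) - Y i a| ≤ 2 := fun a => by
          linarith [abs_sub (Ex (Y i)) (Y i a), abs_Ex_le (hY i), hY i a]
        calc _ ≤ Ex fun a => 1 + l * (Ex (Y i) - Y i a) + 4 * l ^ 2 := by
              refine Ex_mono fun a => (exp_le_quad ?_).trans ?_
              · rw [abs_mul, abs_of_pos hl0]; nlinarith [h2 a]
              · have : (Ex (Y i) - Y i a) ^ 2 ≤ 2 ^ 2 := by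
                  rw [← sq_abs]; gcongr; exact h2 a
                nlinarith [sq_nonneg l]
          _ = 4 * l ^ 2 + 1 := by
              simp only [Ex_add, Ex_mul, Ex_sub, Ex_const]; ring
          _ ≤ _ := add_one_le_exp _
    _ = _ := by
        rw [prod_const, card_univ, ← exp_nat_mul, ← exp_add, hn, hl]
        congr 1
        field_simp
        ring

section perm

variable {α β : Type*} [Fintype α] [DecidableEq α] [Fintype β] [DecidableEq β]

/-- Moving the cells of an arrangement. -/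
def act (g : Equiv.Perm α) : (α ≃ β) ≃ (α ≃ β) where
  toFun x := g.trans x
  invFun x := g.symm.trans x
  left_inv x := by ext; simp
  right_inv x := by ext; simp

omit [Fintype α] [DecidableEq α] [Fintype β] [DecidableEq β] in
@[simp] theorem act_apply (g : Equiv.Perm α) (x : α ≃ β) (c : α) : act g x c = x (g c) := rfl

theorem resample_cell (W : Finset α) {q : α} (hq : q ∉ W) (G : (α ≃ β) → β → ℝ)
    (F : (α ≃ β) → ℝ) (hG : ∀ x x', (∀ c ∈ W, x c = x' c) → G x = G x')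
    (hF : ∀ x y, |G x y| ≤ F x) :
    Ex (fun x => G x (x q)) ≤
      Ex fun x => Ex (G x) + 2 * (W.card / Fintype.card α) * F x := by
  have : Nonempty (Wᶜ : Finset α) := ⟨⟨q, mem_compl.2 hq⟩⟩
  rw [Ex_resample (fun ρ : (Wᶜ : Finset α) => act (Equiv.swap q ρ))]
  refine Ex_mono fun x => ?_
  have h1 : ∀ ρ : (Wᶜ : Finset α), G (act (Equiv.swap q ρ) x) (act (Equiv.swap q ρ) x q) =
      G x (x ρ) := by
    intro ρ
    rw [hG (act (Equiv.swap q ρ) x) x fun c hc => by
      rw [act_apply, Equiv.swap_apply_of_ne_of_ne]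
      · rintro rfl; exact hq hc
      · rintro rfl; exact mem_compl.1 ρ.2 hc]
    simp
  simp only [h1]
  rw [Ex_subtype Wᶜ fun c => G x (x c)]
  have h2 := (abs_le.1 (avg_sub (subset_univ Wᶜ) ⟨q, mem_compl.2 hq⟩
    (y := fun c => G x (x c)) fun c => hF x _)).2
  have h3 : (∑ c, G x (x c)) / (univ : Finset α).card = Ex (G x) := Ex_equiv x (G x)
  have h4 : ((univ : Finset α).card : ℝ) - (Wᶜ).card = W.card := by
    rw [card_compl, card_univ, Nat.cast_sub (card_le_univ W)]; ring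
  rw [h3, h4, card_univ] at h2
  have : 2 * F x * W.card / Fintype.card α = 2 * (W.card / Fintype.card α) * F x := by ring
  linarith

/-- The mean of a kernel over all pairs of values. -/
noncomputable def mean (κ : β → β → ℝ) : ℝ := Ex fun v => Ex (κ v)

theorem pairs_mgf [Nonempty (α ≃ β)] {J : Type*} [Fintype J] [DecidableEq J] (P Q : J → α)
    (hP : Function.Injective P) (hQ : Function.Injective Q) (hPQ : ∀ i j, P i ≠ Q j)
    (κ : J → β → β → ℝ) (hκ : ∀ j v y, |κ j v y| ≤ 1) {l η : ℝ} (hl : 0 ≤ l) (hl1 : l ≤ 1)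
    (hη : 4 * ((2 * Fintype.card J + 1) / Fintype.card α) ≤ η) (S : Finset J) :
    Ex (fun x : α ≃ β => exp (l * ∑ j ∈ S, κ j (x (P j)) (x (Q j)))) ≤
      exp (∑ j ∈ S, (l ^ 2 + l * (mean (κ j) + η))) := by
  induction S using Finset.induction_on with
  | empty => simp [Ex_const]
  | insert j S hj ih =>
    set F : (α ≃ β) → ℝ := fun x => exp (l * ∑ j ∈ S, κ j (x (P j)) (x (Q j))) with hF
    have hF0 : ∀ x, 0 ≤ F x := fun x => (exp_pos _).le
    set W : Finset α := S.image P ∪ S.image Q with hW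
    have hFW : ∀ x x' : α ≃ β, (∀ c ∈ W, x c = x' c) → F x = F x' := by
      intro x x' h
      simp only [hF]
      rw [sum_congr rfl fun i hi => by
        rw [h (P i) (mem_union_left _ (mem_image_of_mem _ hi)),
          h (Q i) (mem_union_right _ (mem_image_of_mem _ hi))]]
    have hPW : P j ∉ W := by
      simp only [hW, mem_union, mem_image, not_or, not_exists, not_and]
      exact ⟨fun i hi h => hj (hP h ▸ hi), fun i _ h => hPQ j i h.symm⟩
    have hQW : Q j ∉ insert (P j) W := by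
      simp only [hW, mem_insert, mem_union, mem_image, not_or, not_exists, not_and]
      exact ⟨(hPQ j j).symm, fun i _ h => hPQ i j h, fun i hi h => hj (hQ h ▸ hi)⟩
    have hWc : W.card ≤ 2 * Fintype.card J := by
      have h1 := card_union_le (S.image P) (S.image Q)
      have h2 := card_image_le (s := S) (f := P)
      have h3 := card_image_le (s := S) (f := Q)
      have h4 := card_le_univ S
      rw [← hW] at h1
      omega
    have hc1 : 2 * (((insert (P j) W).card : ℝ) / Fintype.card α) ≤ η / 2 := by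
      have : ((insert (P j) W).card : ℝ) ≤ 2 * Fintype.card J + 1 := by
        exact_mod_cast (card_insert_le _ _).trans (by omega)
      have : ((insert (P j) W).card : ℝ) / Fintype.card α ≤
          (2 * Fintype.card J + 1) / Fintype.card α := by gcongr
      linarith
    have hc2 : 2 * ((W.card : ℝ) / Fintype.card α) ≤ η / 2 := by
      have : (W.card : ℝ) ≤ 2 * Fintype.card J + 1 := by
        exact_mod_cast hWc.trans (by omega)
      have : (W.card : ℝ) / Fintype.card α ≤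
          (2 * Fintype.card J + 1) / Fintype.card α := by gcongr
      linarith
    have : Nonempty β := ⟨Classical.arbitrary (α ≃ β) (P j)⟩
    have habs : ∀ (x : α ≃ β) {z : ℝ}, |z| ≤ 1 → |F x * z| ≤ F x := fun x z hz => by
      rw [abs_mul, abs_of_nonneg (hF0 x)]
      exact mul_le_of_le_one_right (hF0 x) hz
    have h1 := resample_cell (insert (P j) W) hQW (fun x y => F x * κ j (x (P j)) y) F
      (fun x x' h => by
        rw [hFW x x' fun c hc => h c (mem_insert_of_mem hc), h _ (mem_insert_self _ _)])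
      fun x y => habs x (hκ _ _ _)
    have h2 := resample_cell W hPW (fun x v => F x * Ex (κ j v)) F
      (fun x x' h => by rw [hFW x x' h]) fun x v => habs x (abs_Ex_le (hκ j v))
    simp only [Ex_mul, Ex_add, Ex_mul'] at h1 h2
    have hE : 0 ≤ Ex F := Ex_nonneg hF0
    have h3 : Ex (fun x : α ≃ β => F x * κ j (x (P j)) (x (Q j))) ≤ (mean (κ j) + η) * Ex F := by
      have e1 := mul_le_mul_of_nonneg_right hc1 hE
      have e2 := mul_le_mul_of_nonneg_right hc2 hE
      rw [mean]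
      linarith
    calc _ ≤ Ex fun x : α ≃ β => (1 + l ^ 2) * F x + l * (F x * κ j (x (P j)) (x (Q j))) := by
          refine Ex_mono fun x => ?_
          rw [sum_insert hj, mul_add, exp_add]
          have hk := hκ j (x (P j)) (x (Q j))
          set k := κ j (x (P j)) (x (Q j))
          have hlk : |l * k| ≤ 1 := by
            rw [abs_mul, abs_of_nonneg hl]; exact mul_le_one₀ hl1 (abs_nonneg _) hk
          have hk2 : k ^ 2 ≤ 1 := by rw [← sq_abs]; exact pow_le_one₀ (abs_nonneg _) hk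
          have : exp (l * k) ≤ 1 + l * k + l ^ 2 := by
            have := exp_le_quad hlk
            nlinarith [sq_nonneg l]
          change exp (l * k) * F x ≤ _
          nlinarith [hF0 x]
      _ ≤ (l ^ 2 + l * (mean (κ j) + η) + 1) * Ex F := by
          rw [Ex_add, Ex_mul, Ex_mul]
          nlinarith
      _ ≤ exp (l ^ 2 + l * (mean (κ j) + η)) * exp (∑ j ∈ S, (l ^ 2 + l * (mean (κ j) + η))) := by
          gcongr
          exact add_one_le_exp _
      _ = _ := by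
          rw [← exp_add, sum_insert hj]

theorem pair_marginal {γ : Type*} [Fintype γ] [DecidableEq γ] {p q : γ} (hpq : p ≠ q)
    (φ : γ → γ → ℝ) (hφ : ∀ a, φ a a = 0) :
    Ex (fun g : Equiv.Perm γ => φ (g p) (g q)) =
      (∑ a, ∑ b, φ a b) / (Fintype.card γ * (Fintype.card γ - 1)) := by
  set c := Ex (fun g : Equiv.Perm γ => φ (g p) (g q)) with hc
  have h1 : ∀ a b, Ex (fun g : Equiv.Perm γ => φ (g a) (g b)) = if a = b then 0 else c := by
    intro a b
    split_ifs with hab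
    · subst hab; simp [hφ, Ex]
    · set π₁ := Equiv.swap p a
      have e1 : π₁ p = a := Equiv.swap_apply_left _ _
      have e2 : a ≠ π₁ q := fun h => hpq (π₁.injective (e1.trans h))
      rw [hc, ← Ex_equiv (Equiv.mulRight (Equiv.swap (π₁ q) b * π₁))
        fun g : Equiv.Perm γ => φ (g p) (g q)]
      simp [e1, Equiv.swap_apply_of_ne_of_ne e2 hab]
  have h2 : ∑ a, ∑ b, Ex (fun g : Equiv.Perm γ => φ (g a) (g b)) = ∑ a, ∑ b, φ a b := by
    simp only [← Ex_sum]
    rw [← Ex_const (Ω := Equiv.Perm γ) (∑ a, ∑ b, φ a b)]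
    refine Ex_congr fun g => ?_
    rw [← Equiv.sum_comp g fun a => ∑ b, φ a b]
    exact sum_congr rfl fun a _ => Equiv.sum_comp g (φ (g a))
  have h3 : ∀ a : γ, (∑ b, if a = b then 0 else c) = (Fintype.card γ - 1) * c := by
    intro a
    have : ∀ b, (if a = b then 0 else c) = c - if a = b then c else 0 := fun b => by
      split_ifs <;> simp
    simp [this]
    ring
  simp only [h1, h3, sum_const, card_univ, nsmul_eq_mul] at h2
  have h4 : (1 : ℝ) < Fintype.card γ := by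
    exact_mod_cast Fintype.one_lt_card_iff.2 ⟨p, q, hpq⟩
  rw [← h2]
  have : (Fintype.card γ : ℝ) - 1 ≠ 0 := by linarith
  field_simp

end perm

/-- The mean of `φ` over ordered pairs of distinct points of `U`. -/
noncomputable def av {γ : Type*} (φ : γ → γ → ℝ) (U : Finset γ) : ℝ :=
  (∑ a ∈ U, ∑ b ∈ U, φ a b) / (U.card * (U.card - 1))

theorem tail_fam {ι γ β : Type*} [Fintype ι] [DecidableEq ι] [Fintype γ] [DecidableEq γ] [Fintype β]
    [DecidableEq β] [Nonempty (ι × γ ≃ β)] (U : ι → Finset γ) {k : ℕ} (hk : 0 < k)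
    (hU : ∀ a, 2 * k ≤ (U a).card) (κ : ι → β → β → ℝ) (hκ : ∀ a v y, |κ a v y| ≤ 1)
    (hκ0 : ∀ a v, κ a v v = 0) {ε : ℝ} (hε : 0 < ε) (hε1 : ε ≤ 1)
    (hη : 8 * ((2 * (Fintype.card ι * k) + 1) / Fintype.card (ι × γ)) ≤ ε) :
    Pr (fun x : ι × γ ≃ β => ∑ a, mean (κ a) + Fintype.card ι * ε <
      ∑ a, av (fun b b' => κ a (x (a, b)) (x (a, b'))) (U a)) ≤
      exp (-(Fintype.card ι * k * ε ^ 2 / 16)) := by
  have hemb : ∀ a, Nonempty (Fin k × Bool ↪ U a) := fun a =>
    Function.Embedding.nonempty_of_card_le (by simp; linarith [hU a])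
  let u : ∀ a, Fin k × Bool ↪ U a := fun a => Classical.choice (hemb a)
  set l := ε / 4 with hl
  have hk' : (0 : ℝ) < k := by exact_mod_cast hk
  set S : (ι × γ ≃ β) → ℝ := fun x => ∑ a, av (fun b b' => κ a (x (a, b)) (x (a, b'))) (U a)
  set T : (ι × γ ≃ β) → (∀ a, Equiv.Perm (U a)) → ℝ := fun x g =>
    l * ∑ j : ι × Fin k, κ j.1 (x (j.1, g j.1 (u j.1 (j.2, false))))
      (x (j.1, g j.1 (u j.1 (j.2, true)))) with hT
  have h1 : ∀ x, Ex (T x) = l * k * S x := by
    intro x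
    simp only [hT, Ex_mul, Ex_sum, Fintype.sum_prod_type, S, mul_assoc]
    rw [mul_sum _ _ (k : ℝ)]
    refine congrArg _ (sum_congr rfl fun a _ => ?_)
    rw [sum_congr rfl fun j _ => (Ex_eval (α := fun a => Equiv.Perm (U a)) a fun g =>
      κ a (x (a, g (u a (j, false)))) (x (a, g (u a (j, true))))).trans
      (pair_marginal (fun h => by simpa using (u a).injective h)
        (fun b b' : U a => κ a (x (a, b)) (x (a, b'))) fun b => hκ0 _ _)]
    simp only [sum_const, card_univ, Fintype.card_fin, nsmul_eq_mul, av, Fintype.card_coe]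
    congr 2
    rw [← sum_coe_sort (U a)]
    exact sum_congr rfl fun b _ => sum_coe_sort (U a) fun b' => κ a (x (a, b)) (x (a, b'))
  have h2 : ∀ g, Ex (fun x => exp (T x g)) ≤
      exp (k * (Fintype.card ι * (l ^ 2 + l * (ε / 2)) + l * ∑ a, mean (κ a))) := by
    intro g
    have hinj : ∀ (s s' : Bool) (i j : ι × Fin k),
        ((i.1, (g i.1 (u i.1 (i.2, s)) : γ)) : ι × γ) = (j.1, (g j.1 (u j.1 (j.2, s')) : γ)) →
        i = j ∧ s = s' := by
      rintro s s' ⟨a, i⟩ ⟨a', j⟩ h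
      obtain ⟨rfl, h⟩ := Prod.mk.inj h
      simpa using (u a).injective ((g a).injective (Subtype.ext h))
    have := pairs_mgf (fun j : ι × Fin k => ((j.1, g j.1 (u j.1 (j.2, false))) : ι × γ))
      (fun j : ι × Fin k => ((j.1, g j.1 (u j.1 (j.2, true))) : ι × γ))
      (fun i j h => (hinj _ _ i j h).1) (fun i j h => (hinj _ _ i j h).1)
      (fun i j h => by simpa using (hinj _ _ i j h).2) (fun j => κ j.1) (fun j => hκ j.1) (l := l) (η := ε / 2)
      (by positivity) (by linarith) (by simp at hη ⊢; linarith) univ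
    refine this.trans_eq (congrArg _ ?_)
    simp only [Fintype.sum_prod_type, sum_const, card_univ, Fintype.card_fin, nsmul_eq_mul,
      mul_add, sum_add_distrib, ← mul_sum, Fintype.card_prod, Nat.cast_mul]
    ring
  calc _ ≤ Pr (fun x => l * k * (∑ a, mean (κ a) + Fintype.card ι * ε) < l * k * S x) :=
        Pr_mono fun x hx => by gcongr
    _ ≤ _ := Pr_le_exp _ _
    _ ≤ exp (-(l * k * (∑ a, mean (κ a) + Fintype.card ι * ε))) *
        exp (k * (Fintype.card ι * (l ^ 2 + l * (ε / 2)) + l * ∑ a, mean (κ a))) := by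
        gcongr
        calc _ ≤ Ex fun x => Ex fun g => exp (T x g) := Ex_mono fun x => h1 x ▸ exp_Ex_le _
          _ ≤ _ := by rw [Ex_comm]; exact Ex_le_const h2
    _ = _ := by rw [← exp_add, hl]; ring_nf

theorem tail {ι γ β : Type*} [Fintype ι] [DecidableEq ι] [Fintype γ] [DecidableEq γ] [Fintype β]
    [DecidableEq β] [Nonempty (ι × γ ≃ β)] (U : ι → Finset γ) {k : ℕ} (hk : 0 < k)
    (hU : ∀ a, 2 * k ≤ (U a).card) (κ : β → β → ℝ) (hκ : ∀ v y, |κ v y| ≤ 1)
    (hκ0 : ∀ v, κ v v = 0) {ε : ℝ} (hε : 0 < ε) (hε1 : ε ≤ 1)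
    (hη : 8 * ((2 * (Fintype.card ι * k) + 1) / Fintype.card (ι × γ)) ≤ ε) :
    Pr (fun x : ι × γ ≃ β => Fintype.card ι * (mean κ + ε) <
      ∑ a, av (fun b b' => κ (x (a, b)) (x (a, b'))) (U a)) ≤
      exp (-(Fintype.card ι * k * ε ^ 2 / 16)) := by
  simpa [mul_add] using tail_fam U hk hU (fun _ => κ) (fun _ => hκ) (fun _ => hκ0) hε hε1 hη

end

section

open Finset Real

section av

variable {γ : Type*} [DecidableEq γ] {φ : γ → γ → ℝ} {U : Finset γ}

omit [DecidableEq γ] in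
theorem av_nonneg (h : ∀ a b, 0 ≤ φ a b) : 0 ≤ av φ U := by
  refine div_nonneg (sum_nonneg fun a _ => sum_nonneg fun b _ => h a b) ?_
  rcases Nat.eq_zero_or_pos U.card with h0 | h0
  · simp [h0]
  · have : (1 : ℝ) ≤ U.card := by exact_mod_cast h0
    exact mul_nonneg (by linarith) (by linarith)

theorem av_le_one (h : ∀ a b, φ a b ≤ 1) (h0 : ∀ a, φ a a = 0) : av φ U ≤ 1 := by
  rcases Nat.eq_zero_or_pos U.card with hc | hc
  · simp [av, hc]
  have hc' : (1 : ℝ) ≤ U.card := by exact_mod_cast hc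
  refine div_le_one_of_le₀ ?_ (mul_nonneg (by linarith) (by linarith))
  calc _ ≤ ∑ _a ∈ U, ((U.card : ℝ) - 1) := sum_le_sum fun a ha => by
        rw [← add_sum_erase U _ ha, h0, zero_add]
        refine (sum_le_sum fun b _ => h a b).trans ?_
        simp [card_erase_of_mem ha, Nat.cast_sub hc]
    _ = _ := by simp; ring

omit [DecidableEq γ] in
theorem av_neg : av (fun a b => -φ a b) U = -av φ U := by
  simp only [av, sum_neg_distrib, neg_div]

omit [DecidableEq γ] in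
theorem Ex_pair (hU : U.Nonempty) (h0 : ∀ a, φ a a = 0) :
    (Ex fun a : U => Ex fun b : U => φ a b) = av φ U * (1 - 1 / U.card) := by
  have h1 : ∀ a, (Ex fun b : U => φ a b) = (∑ b ∈ U, φ a b) / U.card := fun a =>
    Ex_subtype U (φ a)
  simp only [h1]
  rw [Ex_subtype U fun a => (∑ b ∈ U, φ a b) / U.card, ← sum_div, av]
  have hc : (0 : ℝ) < U.card := by exact_mod_cast hU.card_pos
  by_cases h2 : U.card = 1
  · obtain ⟨a, rfl⟩ := card_eq_one.1 h2
    simp [h0]
  · have : (U.card : ℝ) - 1 ≠ 0 := by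
      rw [sub_ne_zero]; exact_mod_cast h2
    field_simp

theorem Ex_av_erase (h3 : 3 ≤ U.card) (h0 : ∀ a, φ a a = 0) (hs : ∀ a b, φ a b = φ b a) :
    (Ex fun ρ : U => av φ (U.erase ρ)) = av φ U := by
  have hc : (3 : ℝ) ≤ U.card := by exact_mod_cast h3
  have h1 : ∀ ρ ∈ U, av φ (U.erase ρ) = (∑ a ∈ U, ∑ b ∈ U, φ a b - 2 * ∑ b ∈ U, φ ρ b) /
      ((U.card - 1) * (U.card - 2)) := by
    intro ρ hρ
    rw [av, card_erase_of_mem hρ, Nat.cast_sub (by omega), sum_erase_eq_sub hρ]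
    simp only [sum_erase_eq_sub hρ, sum_sub_distrib, h0, hs _ ρ]
    push_cast
    ring_nf
  rw [Ex_subtype U fun ρ => av φ (U.erase ρ), sum_congr rfl h1, ← sum_div, sum_sub_distrib,
    ← mul_sum, av]
  simp only [sum_const, nsmul_eq_mul]
  have : (U.card : ℝ) - 1 ≠ 0 := by linarith
  have : (U.card : ℝ) - 2 ≠ 0 := by linarith
  field_simp

theorem av_swap {p ρ : γ} (hp : p ∈ U) (hρ : ρ ∈ U) :
    av (fun a b => φ (Equiv.swap p ρ a) (Equiv.swap p ρ b)) (U.erase p) = av φ (U.erase ρ) := by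
  have h : (U.erase p).map (Equiv.swap p ρ).toEmbedding = U.erase ρ := by
    ext c
    simp only [mem_map_equiv, Equiv.symm_swap, mem_erase, Equiv.swap_apply_def]
    split_ifs <;> grind
  rw [← h]
  simp only [av, sum_map, card_map, Equiv.coe_toEmbedding]

end av

/-- The trigonometric kernels. -/
noncomputable def ks (n r : ℕ) (v y : Fin (n ^ 2)) : ℝ :=
  sin ((π * r / (n ^ 3 : ℕ) * (v : ℕ) - π * r / (n ^ 3 : ℕ) * (y : ℕ)) / 2) ^ 2

/-- The quadratic kernel. -/
noncomputable def kq (n : ℕ) (v y : Fin (n ^ 2)) : ℝ := ((v : ℕ) - (y : ℕ)) ^ 2 / (n ^ 2) ^ 2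

theorem ks_nonneg (n r : ℕ) (v y : Fin (n ^ 2)) : 0 ≤ ks n r v y := sq_nonneg _
theorem ks_le_one (n r : ℕ) (v y : Fin (n ^ 2)) : ks n r v y ≤ 1 := sin_sq_le_one _
theorem ks_self (n r : ℕ) (v : Fin (n ^ 2)) : ks n r v v = 0 := by simp [ks]
theorem ks_symm (n r : ℕ) (v y : Fin (n ^ 2)) : ks n r v y = ks n r y v := by
  rw [ks, ks, ← neg_sub, neg_div, sin_neg, neg_sq]

theorem kq_nonneg (n : ℕ) (v y : Fin (n ^ 2)) : 0 ≤ kq n v y := by unfold kq; positivity
theorem kq_self (n : ℕ) (v : Fin (n ^ 2)) : kq n v v = 0 := by simp [kq]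
theorem kq_le_one (n : ℕ) (v y : Fin (n ^ 2)) : kq n v y ≤ 1 := by
  refine div_le_one_of_le₀ ?_ (by positivity)
  have h1 : ((v : ℕ) : ℝ) ≤ n ^ 2 := by exact_mod_cast v.2.le
  have h2 : ((y : ℕ) : ℝ) ≤ n ^ 2 := by exact_mod_cast y.2.le
  have h3 : (0 : ℝ) ≤ (v : ℕ) := by positivity
  have h4 : (0 : ℝ) ≤ (y : ℕ) := by positivity
  exact sq_le_sq' (by linarith) (by linarith)

theorem mean_ks {n r : ℕ} (hn : 2 ≤ n) (h1 : n ≤ r) (h2 : r ≤ n ^ 3) :
    5 / 18 ≤ mean (ks n r) := by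
  have hn' : (2 : ℝ) ≤ n := by exact_mod_cast hn
  have hN : (4 : ℝ) ≤ n ^ 2 := by nlinarith
  have : Nonempty (Fin (n ^ 2)) := ⟨⟨0, by positivity⟩⟩
  set u : ℝ := π * r / (n ^ 3 : ℕ) with hu
  have h3 := normSq_Ec_ce fun v : Fin (n ^ 2) => u * (v : ℕ)
  change _ = 1 - 2 * mean (ks n r) at h3
  have hr1 : (n : ℝ) ≤ r := by exact_mod_cast h1
  have hr2 : (r : ℝ) ≤ n ^ 3 := by exact_mod_cast h2
  have hu1 : π / (2 * n ^ 2) ≤ u / 2 := by
    rw [hu]; push_cast
    calc π / (2 * n ^ 2) = π * n / n ^ 3 / 2 := by field_simp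
      _ ≤ _ := by gcongr
  have hu2 : u / 2 ≤ π / 2 := by
    rw [hu]; push_cast
    gcongr
    rw [div_le_iff₀ (by positivity)]
    gcongr
  have hy0 : 0 < π / (2 * (n : ℝ) ^ 2) := by have := pi_pos; positivity
  have hs : 3 / (2 * (n : ℝ) ^ 2) ≤ sin (u / 2) := by
    refine le_trans ?_ (sin_le_sin_of_le_of_le_pi_div_two (by linarith [pi_pos]) hu2 hu1)
    refine le_trans ?_ (sin_gt_sub_cube hy0).le
    have e : π / (2 * (n : ℝ) ^ 2) - (π / (2 * n ^ 2)) ^ 3 / 6 =
        (π - π ^ 3 / (24 * (n ^ 2) ^ 2)) / (2 * n ^ 2) := by field_simp; ring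
    rw [e]
    gcongr
    have : π ^ 3 / (24 * ((n : ℝ) ^ 2) ^ 2) ≤ 3.15 ^ 3 / (24 * 4 ^ 2) := by
      gcongr
      exact pi_lt_d2.le
    linarith [pi_gt_d2]
  have h4 : ‖ce u - 1‖ = 2 * sin (u / 2) := by
    rw [ce, Complex.norm_exp_I_mul_ofReal_sub_one, Real.norm_eq_abs, abs_of_nonneg]
    have : 0 < 3 / (2 * (n : ℝ) ^ 2) := by positivity
    linarith
  have h5 : ∀ v : ℕ, ce (u * v) = ce u ^ v := fun v => by
    rw [ce, ce, ← Complex.exp_nat_mul]; push_cast; ring_nf
  have h6 : ‖∑ v ∈ range (n ^ 2), ce u ^ v‖ * ‖ce u - 1‖ ≤ 2 := by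
    rw [← norm_mul, geom_sum_mul]
    refine (norm_sub_le _ _).trans ?_
    rw [norm_pow, norm_ce]; norm_num
  have h7 : ‖Ec fun v : Fin (n ^ 2) => ce (u * (v : ℕ))‖ ≤ 2 / 3 := by
    simp only [h5, Ec]
    rw [Fin.sum_univ_eq_sum_range (fun v => ce u ^ v), norm_div, Fintype.card_fin,
      Complex.norm_natCast, div_le_iff₀ (by positivity)]
    push_cast
    have h8 : ‖∑ v ∈ range (n ^ 2), ce u ^ v‖ * (2 * (3 / (2 * (n : ℝ) ^ 2))) ≤ 2 := by
      refine le_trans ?_ h6
      rw [h4]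
      gcongr
    rw [show 2 * (3 / (2 * (n : ℝ) ^ 2)) = 3 / n ^ 2 by field_simp, ← mul_div_assoc,
      div_le_iff₀ (by positivity)] at h8
    linarith
  have h9 : ‖Ec fun v : Fin (n ^ 2) => ce (u * (v : ℕ))‖ ^ 2 ≤ (2 / 3) ^ 2 := by gcongr
  linarith

theorem mean_kq {n : ℕ} (hn : 1 ≤ n) : mean (kq n) = 1 / 6 - 1 / (6 * ((n : ℝ) ^ 2) ^ 2) := by
  have h1 : ∀ N : ℕ, ∑ v ∈ range N, (v : ℝ) = N * (N - 1) / 2 := fun N => by
    induction N with
    | zero => simp
    | succ N ih => rw [sum_range_succ, ih]; push_cast; ring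
  have h2 : ∀ N : ℕ, ∑ v ∈ range N, (v : ℝ) ^ 2 = N * (N - 1) * (2 * N - 1) / 6 := fun N => by
    induction N with
    | zero => simp
    | succ N ih => rw [sum_range_succ, ih]; push_cast; ring
  have h3 : ∀ v y : ℝ, (v - y) ^ 2 = v ^ 2 - 2 * v * y + y ^ 2 := fun v y => by ring
  have hn' : (0 : ℝ) < n := by exact_mod_cast hn
  simp only [mean, Ex, kq, Fintype.card_fin, ← sum_div, h3, sum_add_distrib, sum_sub_distrib,
    ← mul_sum, ← sum_mul, sum_const, card_univ, nsmul_eq_mul]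
  rw [Fin.sum_univ_eq_sum_range (fun v => (v : ℝ)), Fin.sum_univ_eq_sum_range
    (fun v => (v : ℝ) ^ 2), h1, h2]
  push_cast
  field_simp
  ring

end

end Pool.Agent.MP_f80039_co.H9
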