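import Pool.Agent.MP_f80039_co.H9.Tail

/-! Tilted characteristic functions. -/

set_option autoImplicit false

namespace Pool.Agent.MP_f80039_co.H9

section

open Finset Real

theorem abs_mono_le {a b ω : ℝ} (ha : |a| ≤ ω) (hb : |b| ≤ ω ^ 2) (hω : ω ≤ 1) (i j k : ℕ)
    (h : k ≤ i + 2 * j) : |a ^ i * b ^ j| ≤ ω ^ k := by
  have h0 : 0 ≤ ω := (abs_nonneg a).trans ha
  rw [abs_mul, abs_pow, abs_pow]
  calc _ ≤ ω ^ i * (ω ^ 2) ^ j := by gcongr
    _ = ω ^ (i + 2 * j) := by rw [pow_add, pow_mul]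
    _ ≤ _ := pow_le_pow_of_le_one h0 hω h

theorem taylor5 {a b ω : ℝ} (ha : |a| ≤ ω) (hb : |b| ≤ ω ^ 2) (hω : ω ≤ 1 / 2) :
    |exp b * cos a - (1 + b - a ^ 2 / 2 + b ^ 2 / 2 - a ^ 2 * b / 2 + a ^ 4 / 24)| ≤ 2 * ω ^ 5 ∧
      |exp b * sin a - (a + a * b - a ^ 3 / 6)| ≤ 2 * ω ^ 5 := by
  have h0 : 0 ≤ ω := (abs_nonneg a).trans ha
  set ζ : ℂ := b + a * Complex.I with hζ
  have h1 : ‖ζ‖ ≤ 2 * ω := by
    refine (Complex.norm_le_abs_re_add_abs_im ζ).trans ?_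
    simp only [hζ, Complex.add_re, Complex.ofReal_re, Complex.mul_re, Complex.I_re, mul_zero,
      Complex.ofReal_im, Complex.I_im, mul_one, sub_self, add_zero, Complex.add_im,
      Complex.mul_im, zero_add]
    nlinarith
  have h2 := Complex.exp_bound (x := ζ) (by linarith) (n := 5) (by norm_num)
  have h3 : ‖ζ‖ ^ 5 ≤ (2 * ω) ^ 5 := by gcongr
  have h4 : ‖Complex.exp ζ - ∑ m ∈ range 5, ζ ^ m / m.factorial‖ ≤ ω ^ 5 / 3 := by
    refine h2.trans ?_
    norm_num [Nat.factorial]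
    nlinarith [pow_nonneg h0 5]
  have hre := (Complex.abs_re_le_norm _).trans h4
  have him := (Complex.abs_im_le_norm _).trans h4
  have e1 : (Complex.exp ζ - ∑ m ∈ range 5, ζ ^ m / m.factorial).re =
      exp b * cos a - (1 + b - a ^ 2 / 2 + b ^ 2 / 2 - a ^ 2 * b / 2 + a ^ 4 / 24) -
        (a ^ 0 * b ^ 3 / 6 - a ^ 2 * b ^ 2 / 4 + a ^ 0 * b ^ 4 / 24) := by
    simp [hζ, sum_range_succ, Complex.exp_re, Nat.factorial, pow_succ]
    ring
  have e2 : (Complex.exp ζ - ∑ m ∈ range 5, ζ ^ m / m.factorial).im =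
      exp b * sin a - (a + a * b - a ^ 3 / 6) -
        (a ^ 1 * b ^ 2 / 2 - a ^ 3 * b ^ 1 / 6 + a ^ 1 * b ^ 3 / 6) := by
    simp [hζ, sum_range_succ, Complex.exp_im, Nat.factorial, pow_succ]
    ring
  have m := fun i j h => abs_le.1 (abs_mono_le ha hb (by linarith) i j 5 h)
  rw [e1, abs_le] at hre
  rw [e2, abs_le] at him
  have := m 0 3 (by norm_num)
  have := m 2 2 (by norm_num)
  have := m 0 4 (by norm_num)
  have := m 1 2 (by norm_num)
  have := m 3 1 (by norm_num)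
  have := m 1 3 (by norm_num)
  have := pow_nonneg h0 5
  rw [abs_le, abs_le]
  refine ⟨⟨?_, ?_⟩, ?_, ?_⟩ <;> linarith

section one

variable {γ : Type*} [Fintype γ] [Nonempty γ] {a b : γ → ℝ} {ω : ℝ}

/-- The tilted characteristic function of one variable. -/
noncomputable def tp (a b : γ → ℝ) : ℂ := Ec fun c => (exp (b c) : ℝ) * ce (a c)

/-- The Gaussian exponent. -/
noncomputable def th (a : γ → ℝ) : ℝ := (Ex fun c => a c ^ 2) / 2

/-- The even correction. -/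
noncomputable def te (a b : γ → ℝ) : ℝ := (Ex fun c => b c ^ 2) / 2 -
  (Ex fun c => a c ^ 2 * b c) / 2 + (Ex fun c => a c ^ 4) / 24 - th a ^ 2 / 2

/-- The odd correction. -/
noncomputable def tod (a b : γ → ℝ) : ℝ := (Ex fun c => a c * b c) - (Ex fun c => a c ^ 3) / 6

theorem tilt_bounds (ha : ∀ c, |a c| ≤ ω) (hb : ∀ c, |b c| ≤ ω ^ 2) (hω : ω ≤ 1 / 2) :
    (0 ≤ th a ∧ th a ≤ ω ^ 2 / 2) ∧ |te a b| ≤ 2 * ω ^ 4 ∧ |tod a b| ≤ 2 * ω ^ 3 := by
  have h0 : 0 ≤ ω := (abs_nonneg _).trans (ha (Classical.arbitrary γ))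
  have m := fun i j k h => abs_le.1 (abs_Ex_le fun c =>
    abs_mono_le (ha c) (hb c) (by linarith) i j k h)
  have h1 := m 2 0 2 (by norm_num)
  have h2 := m 0 2 4 (by norm_num)
  have h3 := m 2 1 4 (by norm_num)
  have h4 := m 4 0 4 (by norm_num)
  have h5 := m 1 1 3 (by norm_num)
  have h6 := m 3 0 3 (by norm_num)
  simp only [pow_zero, pow_one, mul_one, one_mul] at h1 h2 h3 h4 h5 h6
  have h7 : 0 ≤ th a := div_nonneg (Ex_nonneg fun _ => sq_nonneg _) (by norm_num)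
  have h8 : th a ≤ ω ^ 2 / 2 := by unfold th; linarith [h1.2]
  have h9 : th a ^ 2 ≤ (ω ^ 2 / 2) ^ 2 := by gcongr
  have := pow_nonneg h0 3
  have := pow_nonneg h0 4
  refine ⟨⟨h7, h8⟩, ?_, ?_⟩
  · rw [te, abs_le]
    constructor <;> nlinarith [sq_nonneg (th a)]
  · rw [tod, abs_le]
    constructor <;> linarith

theorem norm_tp_le (hb : ∀ c, |b c| ≤ ω ^ 2) (hω : ω ^ 2 ≤ 1) :
    ‖tp a b - Ec fun c => ce (a c)‖ ≤ 2 * ω ^ 2 := by
  have : tp a b - Ec (fun c => ce (a c)) = Ec fun c => ((exp (b c) - 1 : ℝ) : ℂ) * ce (a c) := by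
    simp only [tp, Ec, ← sub_div, ← sum_sub_distrib]
    push_cast
    simp only [sub_mul, one_mul]
  rw [this, Ec, norm_div, Complex.norm_natCast]
  refine le_trans (b := Ex fun c => ‖((exp (b c) - 1 : ℝ) : ℂ) * ce (a c)‖)
    (div_le_div_of_nonneg_right (norm_sum_le _ _) (Nat.cast_nonneg _)) (Ex_le_const fun c => ?_)
  rw [norm_mul, norm_ce, mul_one, Complex.norm_real, Real.norm_eq_abs]
  linarith [abs_exp_sub_one_le ((hb c).trans hω), hb c]

theorem norm_tp_le' (hb0 : Ex b = 0) (hb : ∀ c, |b c| ≤ ω ^ 2) (hω : ω ^ 2 ≤ 1) :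
    ‖tp a b‖ ≤ exp (2 * ω ^ 4) := by
  rw [tp, Ec, norm_div, Complex.norm_natCast]
  refine le_trans (b := Ex fun c => ‖((exp (b c) : ℝ) : ℂ) * ce (a c)‖)
    (div_le_div_of_nonneg_right (norm_sum_le _ _) (Nat.cast_nonneg _)) ?_
  calc _ ≤ Ex fun c => 1 + b c + ω ^ 4 := Ex_mono fun c => by
        rw [norm_mul, norm_ce, mul_one, Complex.norm_real, Real.norm_eq_abs,
          abs_of_pos (exp_pos _)]
        have : |b c| ^ 2 ≤ (ω ^ 2) ^ 2 := by gcongr; exact hb c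
        rw [sq_abs] at this
        linarith [exp_le_quad ((hb c).trans hω)]
    _ = ω ^ 4 + 1 := by simp only [Ex_add, Ex_const, hb0]; ring
    _ ≤ _ := le_trans (by nlinarith [sq_nonneg (ω ^ 2)]) (add_one_le_exp _)

theorem tp_approx (ha0 : Ex a = 0) (hb0 : Ex b = 0) (ha : ∀ c, |a c| ≤ ω)
    (hb : ∀ c, |b c| ≤ ω ^ 2) (hω : ω ≤ 1 / 2) :
    ‖tp a b - Complex.exp ((-th a + te a b : ℝ) + tod a b * Complex.I)‖ ≤ 9 * ω ^ 5 := by
  have h0 : 0 ≤ ω := (abs_nonneg _).trans (ha (Classical.arbitrary γ))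
  obtain ⟨⟨h1, h2⟩, h3, h4⟩ := tilt_bounds ha hb hω
  have hre : |(tp a b).re - (1 - th a + te a b + th a ^ 2 / 2)| ≤ 2 * ω ^ 5 := by
    have : (tp a b).re - (1 - th a + te a b + th a ^ 2 / 2) = Ex fun c => exp (b c) * cos (a c) -
        (1 + b c - a c ^ 2 / 2 + b c ^ 2 / 2 - a c ^ 2 * b c / 2 + a c ^ 4 / 24) := by
      simp only [tp, Ec_re, Complex.re_ofReal_mul, ce_re, te, th, div_eq_mul_inv, Ex_sub, Ex_add,
        Ex_mul', Ex_const, hb0]
      ring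
    rw [this]
    exact abs_Ex_le fun c => (taylor5 (ha c) (hb c) hω).1
  have him : |(tp a b).im - tod a b| ≤ 2 * ω ^ 5 := by
    have : (tp a b).im - tod a b = Ex fun c => exp (b c) * sin (a c) -
        (a c + a c * b c - a c ^ 3 / 6) := by
      simp only [tp, Ec_im, Complex.im_ofReal_mul, ce_im, tod, div_eq_mul_inv, Ex_sub, Ex_add,
        Ex_mul', ha0]
      ring
    rw [this]
    exact abs_Ex_le fun c => (taylor5 (ha c) (hb c) hω).2
  set h := th a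
  set e := te a b
  set o := tod a b
  set d : ℂ := e + o * Complex.I with hd
  have p3 : ω ^ 4 ≤ ω ^ 3 / 2 := by nlinarith [pow_nonneg h0 3]
  have p2 : ω ^ 3 ≤ ω ^ 2 / 2 := by nlinarith [pow_nonneg h0 2]
  have p1 : ω ^ 2 ≤ 1 / 4 := by nlinarith
  have p5 : ω ^ 6 ≤ ω ^ 5 / 2 := by nlinarith [pow_nonneg h0 5]
  have hdn : ‖d‖ ≤ 3 * ω ^ 3 := by
    refine (Complex.norm_le_abs_re_add_abs_im d).trans ?_
    simp [hd]
    linarith
  have hl : ((-h + e : ℝ) : ℂ) + o * Complex.I = -h + d := by rw [hd]; push_cast; ring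
  rw [hl]
  have hln : ‖-(h : ℂ) + d‖ ≤ 2 * ω ^ 2 := by
    refine (norm_add_le _ _).trans ?_
    rw [norm_neg, Complex.norm_real, Real.norm_eq_abs, abs_of_nonneg h1]
    linarith
  have h5 := Complex.exp_bound (x := -h + d) (by linarith) (n := 3) (by norm_num)
  have h6 : ‖-(h : ℂ) + d‖ ^ 3 ≤ (2 * ω ^ 2) ^ 3 := by gcongr
  have h7 : ‖Complex.exp (-h + d) - (1 + (-h + d) + (-h + d) ^ 2 / 2)‖ ≤ ω ^ 5 := by
    norm_num [Nat.factorial, sum_range_succ] at h5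
    refine h5.trans ?_
    nlinarith [pow_nonneg h0 5]
  have h8 : ‖d * (d / 2 - h)‖ ≤ 4 * ω ^ 5 := by
    have : ‖d / 2 - h‖ ≤ 5 / 4 * ω ^ 2 := by
      refine (norm_sub_le _ _).trans ?_
      rw [norm_div, Complex.norm_real, Real.norm_eq_abs, abs_of_nonneg h1]
      norm_num
      linarith
    rw [norm_mul]
    calc _ ≤ (3 * ω ^ 3) * (5 / 4 * ω ^ 2) := by gcongr
      _ ≤ _ := by nlinarith [pow_nonneg h0 5]
  have h9 : ‖tp a b - (1 - h + d + h ^ 2 / 2)‖ ≤ 4 * ω ^ 5 := by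
    refine (Complex.norm_le_abs_re_add_abs_im _).trans ?_
    have e1 : (tp a b - (1 - h + d + h ^ 2 / 2)).re = (tp a b).re - (1 - h + e + h ^ 2 / 2) := by
      simp [hd, pow_two]
    have e2 : (tp a b - (1 - h + d + h ^ 2 / 2)).im = (tp a b).im - o := by
      simp [hd, pow_two]
    rw [e1, e2]
    linarith
  calc _ = ‖(tp a b - (1 - h + d + h ^ 2 / 2)) - d * (d / 2 - h) -
        (Complex.exp (-h + d) - (1 + (-h + d) + (-h + d) ^ 2 / 2))‖ := by ring_nf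
    _ ≤ _ := by
      linarith [norm_sub_le (tp a b - (1 - h + d + h ^ 2 / 2) - d * (d / 2 - h))
        (Complex.exp (-h + d) - (1 + (-h + d) + (-h + d) ^ 2 / 2)),
        norm_sub_le (tp a b - (1 - h + d + h ^ 2 / 2)) (d * (d / 2 - h))]

end one

theorem norm_prod_sub_prod' {ι : Type*} (s : Finset ι) (z w : ι → ℂ) {K : ℝ} (hK : 1 ≤ K)
    (hz : ∀ i, ‖z i‖ ≤ K) (hw : ∀ i, ‖w i‖ ≤ K) :
    ‖∏ i ∈ s, z i - ∏ i ∈ s, w i‖ ≤ K ^ s.card * ∑ i ∈ s, ‖z i - w i‖ := by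
  have hK0 : 0 < K := by linarith
  have h1 : ∀ u : ℂ, ‖u / K‖ = ‖u‖ / K := fun u => by
    rw [norm_div, Complex.norm_real, Real.norm_eq_abs, abs_of_pos hK0]
  have h := norm_prod_sub_prod s (fun i => z i / K) (fun i => w i / K)
    (fun i => by rw [h1, div_le_one hK0]; exact hz i) fun i => by
      rw [h1, div_le_one hK0]; exact hw i
  simp only [prod_div_distrib, prod_const, ← sub_div, h1, norm_div, norm_pow, Complex.norm_real,
    Real.norm_eq_abs, abs_of_pos hK0] at h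
  rw [div_le_iff₀ (by positivity), mul_comm] at h
  refine h.trans ?_
  gcongr
  exact div_le_self (norm_nonneg _) hK

theorem exp_cos_approx {E O η₁ η₂ : ℝ} (hE : |E| ≤ η₁) (hO : |O| ≤ η₂) (h1 : η₁ ≤ 1)
    (h2 : η₂ ≤ 1) : |exp E * cos O - (1 + E - O ^ 2 / 2)| ≤ η₁ * η₂ ^ 2 + η₁ ^ 2 + η₂ ^ 4 := by
  have r1 := abs_exp_sub_one_sub_id_le (hE.trans h1)
  have r2 := cos_bound (hO.trans h2)
  have e : exp E * cos O - (1 + E - O ^ 2 / 2) = -(E * O ^ 2 / 2) + (exp E - 1 - E) * cos O +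
      (1 + E) * (cos O - (1 - O ^ 2 / 2)) := by ring
  have b1 : |-(E * O ^ 2 / 2)| ≤ η₁ * η₂ ^ 2 := by
    rw [abs_neg, abs_div, abs_mul, abs_pow, abs_two]
    have : |E| * |O| ^ 2 ≤ η₁ * η₂ ^ 2 := by gcongr; exact (abs_nonneg _).trans hE
    linarith [mul_nonneg (abs_nonneg E) (sq_nonneg |O|)]
  have b2 : |(exp E - 1 - E) * cos O| ≤ η₁ ^ 2 := by
    rw [abs_mul]
    have : |E| ^ 2 ≤ η₁ ^ 2 := by gcongr
    rw [sq_abs] at this
    nlinarith [abs_cos_le_one O, abs_nonneg (exp E - 1 - E), abs_nonneg (cos O)]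
  have b3 : |(1 + E) * (cos O - (1 - O ^ 2 / 2))| ≤ η₂ ^ 4 := by
    rw [abs_mul]
    have h3 : |1 + E| ≤ 2 := by linarith [abs_add_le 1 E, abs_one (α := ℝ)]
    have : |O| ^ 4 ≤ η₂ ^ 4 := by gcongr
    nlinarith [abs_nonneg (cos O - (1 - O ^ 2 / 2)), pow_nonneg (abs_nonneg O) 4]
  rw [e]
  linarith [abs_add_three (-(E * O ^ 2 / 2)) ((exp E - 1 - E) * cos O)
    ((1 + E) * (cos O - (1 - O ^ 2 / 2)))]

end

section

open Finset Real

section one

variable {γ : Type*} [Fintype γ] [Nonempty γ]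

theorem tilt_moments (X : γ → ℝ) (u τ : ℝ) :
    th (fun c => u * zc X c) = u ^ 2 / 2 * vr X ∧
    te (fun c => u * zc X c) (fun c => τ * (zc X c ^ 2 - vr X)) =
      τ ^ 2 / 2 * p4 X - u ^ 2 * τ / 2 * p4 X + u ^ 4 / 24 * (p4 X - 2 * vr X ^ 2) ∧
    tod (fun c => u * zc X c) (fun c => τ * (zc X c ^ 2 - vr X)) =
      (u * τ - u ^ 3 / 6) * m3 X := by
  have h1 : th (fun c => u * zc X c) = u ^ 2 / 2 * vr X := by
    simp only [th, mul_pow, Ex_mul, Ex_zc_sq]; ring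
  have e1 : ∀ c, (τ * (zc X c ^ 2 - vr X)) ^ 2 =
      τ ^ 2 * (zc X c ^ 4 - 2 * vr X * zc X c ^ 2 + vr X ^ 2) := fun c => by ring
  have e2 : ∀ c, (u * zc X c) ^ 2 * (τ * (zc X c ^ 2 - vr X)) =
      u ^ 2 * τ * (zc X c ^ 4 - vr X * zc X c ^ 2) := fun c => by ring
  have e3 : ∀ c, u * zc X c * (τ * (zc X c ^ 2 - vr X)) =
      u * τ * (zc X c ^ 3 - vr X * zc X c) := fun c => by ring
  refine ⟨h1, ?_, ?_⟩
  · simp only [te, h1, e1, e2]
    simp only [mul_pow, Ex_mul, Ex_add, Ex_sub, Ex_const, Ex_zc_sq, p4]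
    ring
  · simp only [tod, e3]
    simp only [mul_pow, Ex_mul, Ex_sub, Ex_zc, m3]
    ring

variable {X : γ → ℝ} {N : ℝ}

theorem full_le_one (u : ℝ) (X : γ → ℝ) : full u X ≤ 1 :=
  Ex_le_const fun _ => Ex_le_const fun _ => sin_sq_le_one _

theorem full_lip (h : ∀ c, 0 ≤ X c ∧ X c ≤ N) (u u' : ℝ) :
    full u' X - |u - u'| * N ≤ full u X := by
  rw [sub_le_iff_le_add, full, full, ← Ex_const (Ω := γ) (|u - u'| * N), ← Ex_add]
  refine Ex_mono fun a => ?_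
  rw [← Ex_const (Ω := γ) (|u - u'| * N), ← Ex_add]
  refine Ex_mono fun b => ?_
  have hab : |X a - X b| ≤ N := by
    have := h a
    have := h b
    rw [abs_le]
    constructor <;> linarith
  set y := (u * X a - u * X b) / 2 with hy
  set y' := (u' * X a - u' * X b) / 2 with hy'
  have h1 : |y' - y| ≤ |u - u'| * N / 2 := by
    rw [show y' - y = (u - u') * (X b - X a) / 2 by rw [hy, hy']; ring, abs_div, abs_mul, abs_two,
      abs_sub_comm (X b)]
    gcongr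
  have h2 := (abs_sin_sub_sin_le y' y).trans h1
  have h3 : |sin y' + sin y| ≤ 2 := by
    linarith [abs_add_le (sin y') (sin y), abs_sin_le_one y, abs_sin_le_one y']
  have h4 : |(sin y' - sin y) * (sin y' + sin y)| ≤ |u - u'| * N / 2 * 2 := by
    rw [abs_mul]; gcongr
    exact (abs_nonneg _).trans h2
  nlinarith [le_abs_self ((sin y' - sin y) * (sin y' + sin y))]

end one

section sum

variable {ι : Type*} [Fintype ι] [DecidableEq ι] {α : ι → Type*} [∀ i, Fintype (α i)]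
  [∀ i, Nonempty (α i)]

/-- The tilted characteristic function of the sum. -/
noncomputable def PhiT (X : ∀ i, α i → ℝ) (t τ u : ℝ) : ℂ :=
  Ec fun x : ∀ i, α i => (wt X τ x : ℝ) * ce (u * (∑ i, X i (x i) - t))

omit [∀ i, Nonempty (α i)] in
theorem PhiT_eq (X : ∀ i, α i → ℝ) (t τ u : ℝ) :
    PhiT X t τ u = ce (u * (∑ i, Ex (X i) - t)) *
      ∏ i, tp (fun c => u * zc (X i) c) fun c => τ * (zc (X i) c ^ 2 - vr (X i)) := by
  simp only [tp]
  rw [← Ec_pi_prod, ← Ec_mul, PhiT]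
  congr 1
  funext x
  rw [prod_mul_distrib, ← ce_sum, ← Complex.ofReal_prod, ← exp_sum, ← mul_sum, ← mul_sum,
    mul_left_comm, ← ce_add, wt]
  simp only [zc, sum_sub_distrib]
  ring_nf

variable {X : ∀ i, α i → ℝ} {N : ℝ}

theorem PhiT_approx (h : ∀ i a, 0 ≤ X i a ∧ X i a ≤ N) {t τ u ω n : ℝ}
    (hn : Fintype.card ι = n) (ht : |∑ i, Ex (X i) - t| ≤ 6 * N) (hu : 0 ≤ u) (hτ : 0 ≤ τ)
    (hw : u * N ≤ ω) (hτ' : τ * N ^ 2 ≤ ω ^ 2) (hω0 : 0 ≤ ω) (hω : ω ≤ 1 / 2)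
    (h1 : 2 * n * ω ^ 4 ≤ 1) (h2 : 6 * ω + 2 * n * ω ^ 3 ≤ 1) :
    |(PhiT X t τ u).re - exp (-(u ^ 2 / 2 * ∑ i, vr (X i))) *
      (1 + τ ^ 2 / 2 * ∑ i, p4 (X i) - u ^ 2 * τ / 2 * ∑ i, p4 (X i) +
        u ^ 4 / 24 * (∑ i, p4 (X i) - 2 * ∑ i, vr (X i) ^ 2) -
        (u * (∑ i, Ex (X i) - t) + (u * τ - u ^ 3 / 6) * ∑ i, m3 (X i)) ^ 2 / 2)| ≤
      27 * n * ω ^ 5 + (2 * n * ω ^ 4 * (6 * ω + 2 * n * ω ^ 3) ^ 2 + (2 * n * ω ^ 4) ^ 2 +
        (6 * ω + 2 * n * ω ^ 3) ^ 4) := by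
  set a : ∀ i, α i → ℝ := fun i c => u * zc (X i) c with ha
  set b : ∀ i, α i → ℝ := fun i c => τ * (zc (X i) c ^ 2 - vr (X i)) with hb
  have hab : ∀ i c, |a i c| ≤ ω := fun i c => by
    simp only [ha]
    rw [abs_mul, abs_of_nonneg hu]
    exact le_trans (by gcongr; exact abs_sub_Ex_le (h i) c) hw
  have hbb : ∀ i c, |b i c| ≤ ω ^ 2 := fun i c => by
    simp only [hb]
    rw [abs_mul, abs_of_nonneg hτ]
    exact le_trans (by gcongr; exact tilt_abs (h i) c) hτ'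
  have ha0 : ∀ i, Ex (a i) = 0 := fun i => by simp only [ha, Ex_mul, Ex_zc, mul_zero]
  have hb0 : ∀ i, Ex (b i) = 0 := fun i => by
    simp only [hb, Ex_mul, Ex_sub, Ex_zc_sq, Ex_const, sub_self, mul_zero]
  have hB := fun i => tilt_bounds (hab i) (hbb i) hω
  have hn0 : 0 ≤ n := hn ▸ Nat.cast_nonneg _
  have p1 := norm_prod_sub_prod' univ (fun i => tp (a i) (b i))
    (fun i => Complex.exp ((-th (a i) + te (a i) (b i) : ℝ) + tod (a i) (b i) * Complex.I))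
    (K := exp (2 * ω ^ 4)) (one_le_exp (by positivity))
    (fun i => norm_tp_le' (hb0 i) (hbb i) (by nlinarith)) fun i => by
      rw [Complex.norm_exp]
      apply exp_le_exp.2
      simp
      linarith [(hB i).1.1, (abs_le.1 (hB i).2.1).2]
  have p2 : exp (2 * ω ^ 4) ^ (univ : Finset ι).card ≤ 3 := by
    rw [← exp_nat_mul, card_univ, hn]
    exact (exp_le_exp.2 (by linarith : _ ≤ (1 : ℝ))).trans (by linarith [exp_one_lt_d9])
  have p3 := sum_le_sum fun i (_ : i ∈ univ) => tp_approx (ha0 i) (hb0 i) (hab i) (hbb i) hω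
  rw [sum_const, card_univ, nsmul_eq_mul, hn] at p3
  have p4' := p1.trans (mul_le_mul p2 p3 (sum_nonneg fun _ _ => norm_nonneg _) (by norm_num))
  rw [← Complex.exp_sum, sum_add_distrib, ← sum_mul, ← Complex.ofReal_sum, ← Complex.ofReal_sum,
    sum_add_distrib, sum_neg_distrib] at p4'
  have hE : |∑ i, te (a i) (b i)| ≤ 2 * n * ω ^ 4 := (abs_sum_le_sum_abs _ _).trans
    ((sum_le_sum fun i _ => (hB i).2.1).trans (by simp [hn]; apply le_of_eq; ring))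
  have hO : |u * (∑ i, Ex (X i) - t) + ∑ i, tod (a i) (b i)| ≤ 6 * ω + 2 * n * ω ^ 3 := by
    refine (abs_add_le _ _).trans (add_le_add ?_ ((abs_sum_le_sum_abs _ _).trans
      ((sum_le_sum fun i _ => (hB i).2.2).trans (by simp [hn]; apply le_of_eq; ring))))
    rw [abs_mul, abs_of_nonneg hu]
    calc _ ≤ u * (6 * N) := by gcongr
      _ ≤ _ := by linarith
  have q := exp_cos_approx hE hO h1 h2
  have e1 : ∑ i, th (a i) = u ^ 2 / 2 * ∑ i, vr (X i) := by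
    simp only [ha, (tilt_moments _ u τ).1, mul_sum]
  have e2 : ∑ i, te (a i) (b i) = τ ^ 2 / 2 * ∑ i, p4 (X i) - u ^ 2 * τ / 2 * ∑ i, p4 (X i) +
      u ^ 4 / 24 * (∑ i, p4 (X i) - 2 * ∑ i, vr (X i) ^ 2) := by
    simp only [ha, hb, (tilt_moments _ u τ).2.1, sum_add_distrib, sum_sub_distrib, ← mul_sum]
  have e3 : ∑ i, tod (a i) (b i) = (u * τ - u ^ 3 / 6) * ∑ i, m3 (X i) := by
    simp only [ha, hb, (tilt_moments _ u τ).2.2, mul_sum]
  rw [← e1, ← e3, add_sub_assoc 1, add_assoc 1, ← e2, PhiT_eq]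
  set H := ∑ i, th (a i)
  set E := ∑ i, te (a i) (b i)
  set O := ∑ i, tod (a i) (b i)
  set D := u * (∑ i, Ex (X i) - t)
  set P := ∏ i, tp (a i) (b i)
  have hH : exp (-H) ≤ 1 := exp_le_one_iff.2 (neg_nonpos.2 (sum_nonneg fun i _ => (hB i).1.1))
  have r1 : (ce D * Complex.exp ((-H + E : ℝ) + O * Complex.I)).re =
      exp (-H) * (exp E * cos (D + O)) := by
    rw [ce, ← Complex.exp_add, Complex.exp_re, ← mul_assoc, ← exp_add]
    simp
  have r2 : |(ce D * P).re - (ce D * Complex.exp ((-H + E : ℝ) + O * Complex.I)).re| ≤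
      3 * (n * (9 * ω ^ 5)) := by
    rw [← Complex.sub_re, ← mul_sub]
    refine (Complex.abs_re_le_norm _).trans ?_
    rwa [norm_mul, norm_ce, one_mul]
  have r3 : |exp (-H) * (exp E * cos (D + O)) - exp (-H) * (1 + E - (D + O) ^ 2 / 2)| ≤
      1 * |exp E * cos (D + O) - (1 + E - (D + O) ^ 2 / 2)| := by
    rw [← mul_sub, abs_mul, abs_of_pos (exp_pos _)]
    gcongr
  rw [r1] at r2
  linarith [abs_sub_le (ce D * P).re (exp (-H) * (exp E * cos (D + O)))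
    (exp (-H) * (1 + E - (D + O) ^ 2 / 2))]

theorem norm_PhiT_le (h : ∀ i a, 0 ≤ X i a ∧ X i a ≤ N) {t τ u β : ℝ} (hτ : 0 ≤ τ)
    (hτ' : τ * N ^ 2 ≤ β) (hβ0 : 0 ≤ β) (hβ : β ≤ 1) :
    ‖PhiT X t τ u‖ ≤ exp (6 * Fintype.card ι * β) * exp (-∑ i, full u (X i)) := by
  rw [PhiT_eq, norm_mul, norm_ce, one_mul, norm_prod, ← sum_neg_distrib, exp_sum,
    show 6 * Fintype.card ι * β = Fintype.card ι * (6 * β) by ring, exp_nat_mul, ← card_univ,
    ← prod_const, ← prod_mul_distrib]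
  refine prod_le_prod (fun i _ => norm_nonneg _) fun i _ => ?_
  have h1 := norm_tp_le (a := fun c => u * zc (X i) c)
    (b := fun c => τ * (zc (X i) c ^ 2 - vr (X i))) (ω := √β) (fun c => by
      rw [sq_sqrt hβ0, abs_mul, abs_of_nonneg hτ]
      exact le_trans (by gcongr; exact tilt_abs (h i) c) hτ') (by rwa [sq_sqrt hβ0])
  rw [sq_sqrt hβ0] at h1
  have h2 : ‖Ec fun c => ce (u * zc (X i) c)‖ ≤ exp (-full u (X i)) := norm_psi_le u (X i)
  have h3 : 1 / 3 ≤ exp (-full u (X i)) := by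
    refine le_trans ?_ (exp_le_exp.2 (neg_le_neg (full_le_one u (X i))))
    rw [exp_neg, one_div]
    exact inv_anti₀ (exp_pos _) (by linarith [exp_one_lt_d9])
  have h4 := add_one_le_exp (6 * β)
  have h5 := norm_le_norm_add_norm_sub' (tp (fun c => u * zc (X i) c)
    fun c => τ * (zc (X i) c ^ 2 - vr (X i))) (Ec fun c => ce (u * zc (X i) c))
  nlinarith

omit [∀ i, Nonempty (α i)] in
theorem PhiT_cont (X : ∀ i, α i → ℝ) (t τ : ℝ) : Continuous fun u => (PhiT X t τ u).re := by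
  simp only [PhiT, Ec_re, Complex.re_ofReal_mul, ce_re, Ex]
  fun_prop

omit [∀ i, Nonempty (α i)] in
theorem inversion (X : ∀ i, α i → ℤ) (t : ℤ) (τ : ℝ) :
    ∫ u in (0 : ℝ)..π, (PhiT (fun i a => (X i a : ℝ)) t τ u).re =
      π * Ex fun x : ∀ i, α i => ind (∑ i, X i (x i) = t) * wt (fun i a => (X i a : ℝ)) τ x := by
  simp only [PhiT, Ec_re, Complex.re_ofReal_mul, ce_re, Ex]
  rw [intervalIntegral.integral_div, intervalIntegral.integral_finsetSum fun x _ =>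
    Continuous.intervalIntegrable (by fun_prop) _ _, ← mul_div_assoc, mul_sum]
  congr 1
  refine sum_congr rfl fun x _ => ?_
  rw [intervalIntegral.integral_const_mul]
  have e : ∑ i, (X i (x i) : ℝ) - t = ((∑ i, X i (x i) - t : ℤ) : ℝ) := by push_cast; rfl
  rw [e]
  by_cases hd : ∑ i, X i (x i) = t
  · simp [hd, ind]
    ring
  · have : ((∑ i, X i (x i) - t : ℤ) : ℝ) ≠ 0 := by exact_mod_cast sub_ne_zero.2 hd
    rw [intervalIntegral.integral_comp_mul_right (fun y => cos y) this, integral_cos, ind_neg hd,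
      mul_comm π, sin_int_mul_pi]
    simp

end sum

theorem gauss_poly {v : ℝ} (hv : 0 < v) (p0 p1 p2 p3 u0 : ℝ) :
    ∫ u in (0 : ℝ)..u0, exp (-(u ^ 2 / 2 * v)) * (p0 + p1 * u ^ 2 + p2 * u ^ 4 + p3 * u ^ 6) =
      (p0 + p1 / v + 3 * p2 / v ^ 2 + 15 * p3 / v ^ 3) *
        (∫ u in (0 : ℝ)..u0, exp (-(u ^ 2 / 2 * v))) -
      ((p1 / v + 3 * p2 / v ^ 2 + 15 * p3 / v ^ 3) * u0 + (p2 / v + 5 * p3 / v ^ 2) * u0 ^ 3 +
        p3 / v * u0 ^ 5) * exp (-(u0 ^ 2 / 2 * v)) := by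
  set c := p0 + p1 / v + 3 * p2 / v ^ 2 + 15 * p3 / v ^ 3 with hc
  set F : ℝ → ℝ := fun u => -((p1 / v + 3 * p2 / v ^ 2 + 15 * p3 / v ^ 3) * u +
    (p2 / v + 5 * p3 / v ^ 2) * u ^ 3 + p3 / v * u ^ 5) * exp (-(u ^ 2 / 2 * v)) with hF
  have hd : ∀ u, HasDerivAt F (exp (-(u ^ 2 / 2 * v)) * (p0 + p1 * u ^ 2 + p2 * u ^ 4 +
      p3 * u ^ 6) - c * exp (-(u ^ 2 / 2 * v))) u := by
    intro u
    have h1 := ((((hasDerivAt_id' u).const_mul (p1 / v + 3 * p2 / v ^ 2 + 15 * p3 / v ^ 3)).add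
      ((hasDerivAt_pow 3 u).const_mul (p2 / v + 5 * p3 / v ^ 2))).add
      ((hasDerivAt_pow 5 u).const_mul (p3 / v))).neg
    have h2 := (((hasDerivAt_pow 2 u).div_const 2).mul_const v).neg.exp
    refine (h1.mul h2).congr_deriv ?_
    simp only [hc, Pi.neg_apply, Pi.add_apply]
    norm_num
    field_simp
    ring
  have h1 := intervalIntegral.integral_eq_sub_of_hasDerivAt (a := 0) (b := u0)
    (fun u _ => hd u) (Continuous.intervalIntegrable (by fun_prop) _ _)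
  rw [intervalIntegral.integral_sub (Continuous.intervalIntegrable (by fun_prop) _ _)
    (Continuous.intervalIntegrable (by fun_prop) _ _), intervalIntegral.integral_const_mul] at h1
  simp only [hF] at h1
  linear_combination h1

theorem gauss_tail {v u0 : ℝ} (hv : 0 < v) (hu : 0 < u0) :
    |(∫ u in (0 : ℝ)..u0, exp (-(u ^ 2 / 2 * v))) - √(2 * π / v) / 2| ≤
      exp (-(u0 ^ 2 / 2 * v)) / (v / 2 * u0) := by
  set b := v / 2 with hb
  have hb0 : 0 < b := by positivity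
  have e : ∀ u : ℝ, -(u ^ 2 / 2 * v) = -b * u ^ 2 := fun u => by rw [hb]; ring
  simp only [e]
  set g : ℝ → ℝ := fun x => exp (-b * x ^ 2) with hg
  have hint : MeasureTheory.Integrable g := integrable_exp_neg_mul_sq hb0
  have h3 := intervalIntegral.integral_interval_add_Ioi (a := 0) (b := u0)
    hint.integrableOn hint.integrableOn
  rw [show ∫ x in Set.Ioi (0 : ℝ), g x = √(π / b) / 2 from integral_gaussian_Ioi b,
    show π / b = 2 * π / v by rw [hb]; field_simp] at h3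
  have h4 : 0 ≤ ∫ x in Set.Ioi u0, g x :=
    MeasureTheory.setIntegral_nonneg measurableSet_Ioi fun x _ => (exp_pos _).le
  have h5 : ∫ x in Set.Ioi u0, g x ≤ exp (-b * u0 ^ 2) / (b * u0) := by
    have hneg : -(b * u0) < 0 := by have := mul_pos hb0 hu; linarith
    calc ∫ x in Set.Ioi u0, g x ≤ ∫ x in Set.Ioi u0, exp (-(b * u0) * x) := by
          refine MeasureTheory.setIntegral_mono_on hint.integrableOn
            (integrableOn_exp_mul_Ioi hneg _) measurableSet_Ioi fun x hx => ?_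
          have hx' : u0 < x := hx
          simp only [hg]
          apply exp_le_exp.2
          nlinarith [mul_pos hb0 (hu.trans hx'), mul_pos hb0 (sub_pos.2 hx')]
      _ = _ := by
          rw [integral_exp_mul_Ioi hneg]; field_simp
  rw [abs_le]
  constructor <;> linarith

end

end Pool.Agent.MP_f80039_co.H9
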